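import Mathlib
import Pool.Agent.R245.PB.Sm
import Pool.Agent.H147R3.PE.Three
set_option autoImplicit false

/-! One dimensional input: the extension operator of the parabola on a block of times. -/

namespace Pool.Agent.R245.PC

open Pool.Agent.R245.PB MeasureTheory Set Complex Filter Real
open Pool.Agent.H147R3.PE (BS FT ch)
open scoped ENNReal Topology

/-- the one dimensional extension operator -/
noncomputable def E1 (G : ℝ → ℂ) (t y : ℝ) : ℂ := ∫ a, G a * ec (a * y + a ^ 2 * t)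

lemma E1_FT (G : ℝ → ℂ) (t y : ℝ) : E1 G t y = FT (ch (-(2 * π * t)) G) (-(2 * π * y)) := by
  unfold E1 FT ch
  congr 1
  ext a
  rw [← mul_assoc, ← Complex.exp_add, mul_comm]
  congr 1
  unfold ec
  congr 1
  push_cast
  ring

lemma lint_c {c : ℝ} (hc : c ≠ 0) {F : ℝ → ℝ≥0∞} (hF : Measurable F) :
    ∫⁻ y, F (c * y) = ENNReal.ofReal |c⁻¹| * ∫⁻ y, F y := by
  have h1 := lintegral_map (μ := (volume : Measure ℝ)) hF (measurable_const_mul c)
  rw [Real.map_volume_mul_left hc, lintegral_smul_measure, smul_eq_mul] at h1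
  exact h1.symm

lemma E1_two {G : ℝ → ℂ} (h1 : Integrable G) (h2 : MemLp G 2) (hm : Measurable G) (t : ℝ) :
    ∫⁻ y, ‖E1 G t y‖ₑ ^ 2 = ∫⁻ a, ‖G a‖ₑ ^ 2 := by
  have hc : -(2 * π) ≠ 0 := by
    rw [neg_ne_zero]
    positivity
  have hcm : Measurable (ch (-(2 * π * t)) G) := by
    unfold ch
    exact (by fun_prop : Measurable fun z : ℝ =>
      cexp (((-(-(2 * π * t) * z ^ 2) : ℝ) : ℂ) * I)).mul hm
  have hn : ∀ z, ‖ch (-(2 * π * t)) G z‖ = ‖G z‖ := Pool.Agent.H147R3.PE.ch_norm _ _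
  have i1 : Integrable (ch (-(2 * π * t)) G) :=
    h1.mono hcm.aestronglyMeasurable (ae_of_all _ fun z => (hn z).le)
  have i2 : MemLp (ch (-(2 * π * t)) G) 2 := h2.mono hcm.aestronglyMeasurable
    (ae_of_all _ fun z => (hn z).le)
  have hF : Measurable fun ξ => ‖FT (ch (-(2 * π * t)) G) ξ‖ₑ ^ 2 :=
    (Pool.Agent.H147R3.PE.FT_meas1 _ hcm).enorm.pow_const 2
  have e1 : ∀ y, ‖E1 G t y‖ₑ ^ 2 = (fun ξ => ‖FT (ch (-(2 * π * t)) G) ξ‖ₑ ^ 2) (-(2 * π) * y) := by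
    intro y
    simp only
    rw [E1_FT, neg_mul]
  simp only [e1]
  rw [lint_c hc hF, Pool.Agent.H147R3.PE.planch _ i1 i2, ← mul_assoc,
    ← ENNReal.ofReal_mul (abs_nonneg _)]
  have e2 : |(-(2 * π))⁻¹| * (2 * π) = 1 := by
    rw [abs_inv, abs_neg, abs_of_pos (by positivity)]
    field_simp
  rw [e2, ENNReal.ofReal_one, one_mul]
  simp only [Pool.Agent.H147R3.PE.ch_enorm]

lemma blk_nu {T : ℝ} (hT : 0 < T) {e : ℝ} (he0 : 0 < e) (he1 : e < 1) {B : Set ℝ}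
    (hB : ∀ t ∈ B, |t| ≤ T) (h : ℝ) (hh : h ≠ 0) (σ : ℝ) :
    (volume.restrict B) {t | |2 * (-(2 * π * t)) * h - σ| ≤ 1 / 2} ≤
      ENNReal.ofReal (2 * T ^ e) * ENNReal.ofReal (|h| ^ (-(1 - e))) := by
  have hh' : 0 < |h| := abs_pos.2 hh
  have hm : MeasurableSet {t : ℝ | |2 * (-(2 * π * t)) * h - σ| ≤ 1 / 2} := by
    apply measurableSet_le _ measurable_const
    fun_prop
  rw [Measure.restrict_apply hm, ← ENNReal.ofReal_mul (by positivity)]
  have k1 : volume ({t : ℝ | |2 * (-(2 * π * t)) * h - σ| ≤ 1 / 2} ∩ B) ≤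
      ENNReal.ofReal (2 * T) := by
    have h1 : {t : ℝ | |2 * (-(2 * π * t)) * h - σ| ≤ 1 / 2} ∩ B ⊆ Icc (-T) T :=
      fun t ht => abs_le.1 (hB t ht.2)
    refine (measure_mono h1).trans (le_of_eq ?_)
    rw [Real.volume_Icc]
    congr 1
    ring
  have k2 : volume ({t : ℝ | |2 * (-(2 * π * t)) * h - σ| ≤ 1 / 2} ∩ B) ≤
      ENNReal.ofReal (|h|⁻¹) := by
    have h1 : {t : ℝ | |2 * (-(2 * π * t)) * h - σ| ≤ 1 / 2} ⊆
        Metric.closedBall (-(σ / (4 * π * h))) (1 / (8 * π * |h|)) := by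
      intro t ht
      rw [Metric.mem_closedBall, Real.dist_eq]
      have h2 : |2 * (-(2 * π * t)) * h - σ| = 4 * π * |h| * |t - -(σ / (4 * π * h))| := by
        have : 2 * (-(2 * π * t)) * h - σ = -(4 * π * h) * (t - -(σ / (4 * π * h))) := by
          have hp := Real.pi_ne_zero
          field_simp
          ring
        rw [this, abs_mul, abs_neg, abs_mul, abs_of_pos (show 0 < 4 * π by positivity)]
      have h3 : |2 * (-(2 * π * t)) * h - σ| ≤ 1 / 2 := ht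
      rw [h2] at h3
      rw [le_div_iff₀ (by positivity)]
      linarith
    refine (measure_mono (inter_subset_left.trans h1)).trans ?_
    rw [Real.volume_closedBall]
    apply ENNReal.ofReal_le_ofReal
    have e1 : 2 * (1 / (8 * π * |h|)) = |h|⁻¹ * (1 / (4 * π)) := by
      field_simp
      norm_num
    rw [e1]
    have h7 : 0 < |h|⁻¹ := by positivity
    have h8 : 1 / (4 * π) ≤ 1 := by
      rw [div_le_one (by positivity)]
      linarith [Real.pi_gt_three]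
    nlinarith
  have hpos : 0 < T ^ e * |h| ^ (-(1 - e)) := by positivity
  by_cases hc : |h| * T ≤ 1
  · refine k1.trans ?_
    apply ENNReal.ofReal_le_ofReal
    have h1 : 1 ≤ (T * |h|) ^ (-(1 - e)) :=
      Real.one_le_rpow_of_pos_of_le_one_of_nonpos (by positivity) (by linarith [mul_comm T |h|])
        (by linarith)
    rw [Real.mul_rpow hT.le hh'.le] at h1
    have h2 : T ^ e = T * T ^ (-(1 - e)) := by
      rw [← Real.rpow_one_add' hT.le (by linarith)]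
      ring_nf
    rw [h2]
    have : 2 * (T * T ^ (-(1 - e))) * |h| ^ (-(1 - e)) =
        2 * T * (T ^ (-(1 - e)) * |h| ^ (-(1 - e))) := by ring
    rw [this]
    nlinarith
  · push Not at hc
    refine k2.trans ?_
    apply ENNReal.ofReal_le_ofReal
    have h1 : 1 ≤ (T * |h|) ^ e := Real.one_le_rpow (by linarith [mul_comm T |h|]) he0.le
    rw [Real.mul_rpow hT.le hh'.le] at h1
    have h2 : |h| ^ (-(1 - e)) = |h|⁻¹ * |h| ^ e := by
      rw [← Real.rpow_neg_one, ← Real.rpow_add hh']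
      congr 1
      ring
    rw [h2]
    have h3 : 0 < |h|⁻¹ := by positivity
    have : 2 * T ^ e * (|h|⁻¹ * |h| ^ e) = 2 * |h|⁻¹ * (T ^ e * |h| ^ e) := by ring
    rw [this]
    nlinarith

/-- the fourth power estimate on a block of times -/
theorem E1_four {e : ℝ} (he0 : 0 < e) (he1 : e < 1) : ∃ C : ℝ, 0 < C ∧ ∀ (T : ℝ), 0 < T →
    ∀ (B : Set ℝ), (∀ t ∈ B, |t| ≤ T) → ∀ (M : ℝ) (G : ℝ → ℂ), BS M G →
    ∫⁻ t in B, (∫⁻ y, ‖E1 G t y‖ₑ ^ 4) ≤ ENNReal.ofReal (C * T ^ e) * ∫⁻ a, ‖G a‖ₑ ^ 4 := by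
  have hc : -(2 * π) ≠ 0 := by
    rw [neg_ne_zero]
    positivity
  have hr := Pool.Agent.H147R3.PE.rpow_int (1 - e) (by linarith)
  set R0 := ∫⁻ h in Icc (-2 : ℝ) 2, ENNReal.ofReal (|h| ^ (-(1 - e))) with hR0
  have hfin : Pool.Agent.H147R3.PE.c4 * R0 ≠ ⊤ :=
    ENNReal.mul_ne_top Pool.Agent.H147R3.PE.c4_ne hr.ne
  obtain ⟨κ, hκ0, hκ⟩ : ∃ κ : ℝ, 0 ≤ κ ∧ Pool.Agent.H147R3.PE.c4 * R0 = ENNReal.ofReal κ :=
    ⟨_, ENNReal.toReal_nonneg, (ENNReal.ofReal_toReal hfin).symm⟩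
  refine ⟨2 * (κ + 1), by positivity, ?_⟩
  intro T hT B hB M G hG
  have h1 := Pool.Agent.H147R3.PE.L4' (volume.restrict B) (fun t : ℝ => -(2 * π * t))
    (by fun_prop) hG (ENNReal.ofReal (2 * T ^ e)) (blk_nu hT he0 he1 hB)
  rw [← hR0, hκ] at h1
  have hcm : ∀ t, Measurable (ch (-(2 * π * t)) G) := by
    intro t
    unfold ch
    exact (by fun_prop : Measurable fun z : ℝ =>
      cexp (((-(-(2 * π * t) * z ^ 2) : ℝ) : ℂ) * I)).mul hG.meas
  have e1 : ∀ t, ∫⁻ y, ‖E1 G t y‖ₑ ^ 4 ≤ ∫⁻ ξ, ‖FT (ch (-(2 * π * t)) G) ξ‖ₑ ^ 4 := by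
    intro t
    have hF : Measurable fun ξ => ‖FT (ch (-(2 * π * t)) G) ξ‖ₑ ^ 4 :=
      (Pool.Agent.H147R3.PE.FT_meas1 _ (hcm t)).enorm.pow_const 4
    have e2 : ∀ y, ‖E1 G t y‖ₑ ^ 4 =
        (fun ξ => ‖FT (ch (-(2 * π * t)) G) ξ‖ₑ ^ 4) (-(2 * π) * y) := by
      intro y
      simp only
      rw [E1_FT, neg_mul]
    simp only [e2]
    rw [lint_c hc hF]
    refine mul_le_of_le_one_left' ?_
    rw [ENNReal.ofReal_le_one, abs_inv, abs_neg, abs_of_pos (by positivity)]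
    apply inv_le_one_of_one_le₀
    linarith [Real.pi_gt_three]
  refine (lintegral_mono fun t => e1 t).trans (h1.trans ?_)
  refine mul_le_mul' ?_ le_rfl
  rw [← ENNReal.ofReal_mul hκ0]
  apply ENNReal.ofReal_le_ofReal
  have : 0 < T ^ e := by positivity
  nlinarith

end Pool.Agent.R245.PC
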