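import Mathlib
import Pool.Agent.R245.PC.C1
set_option autoImplicit false

/-! The fourth power estimate for families of profiles depending on a rough parameter. -/

namespace Pool.Agent.R245.PC

open Pool.Agent.R245.PB MeasureTheory Set Complex Filter Real
open Pool.Agent.H147R3.PE (BS FT ch)
open scoped ENNReal Topology

lemma Tw_jm {X : Type*} [MeasurableSpace X] {G : X → ℝ → ℂ} {τ : X → ℝ} {z : X → ℝ × ℝ}
    (hG : Measurable fun p : X × ℝ => G p.1 p.2) (hτ : Measurable τ) (hz : Measurable z) :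
    Measurable fun p : X => Tw (G p) (τ p) (z p) := by
  unfold Tw
  have h1 : Measurable fun q : X × ℝ => G q.1 q.2 * Kf (ip (z q.1) q.2) (τ q.1) := by
    refine Measurable.mul hG ?_
    refine Kf_meas.comp (f := fun q : X × ℝ => (ip (z q.1) q.2, τ q.1)) (Measurable.prodMk ?_
      (hτ.comp measurable_fst))
    exact ip_cont.measurable.comp (f := fun q : X × ℝ => (z q.1, q.2))
      ((hz.comp measurable_fst).prodMk measurable_snd)
  exact (h1.stronglyMeasurable.integral_prod_right' (ν := mu)).measurable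

/-- superposition of the fixed time estimates -/
theorem supT {e : ℝ} (he0 : 0 < e) (he1 : e ≤ 1) : ∃ C : ℝ, 0 < C ∧
    ∀ (G : ℝ → ℝ → ℂ), (Measurable fun p : ℝ × ℝ => G p.1 p.2) → ∀ (b : ℝ → ℝ),
    (∀ ν θ, ‖G ν θ‖ ≤ b ν) → ∀ τ : ℝ,
    ∫⁻ x : ℝ × ℝ, (∫⁻ ν, ‖Tw (G ν) (τ + ν) x‖ₑ) ^ (4 : ℝ) ≤ ENNReal.ofReal C *
      (∫⁻ ν, ENNReal.ofReal ((1 + |τ + ν|) ^ (-(2 - e) / 4)) *
        (∫⁻ θ, ‖G ν θ‖ₑ ^ 4 ∂mu) ^ ((1:ℝ) / 4)) ^ (4 : ℝ) := by
  obtain ⟨C, hC, hT⟩ := Tw4 he0 he1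
  refine ⟨C, hC, ?_⟩
  intro G hG b hb τ
  have e1 : ∀ y : ℝ≥0∞, y ^ (4 : ℝ) = y ^ 4 := fun y => ENNReal.rpow_ofNat y 4
  have hjm : Measurable fun q : (ℝ × ℝ) × ℝ => ‖Tw (G q.2) (τ + q.2) q.1‖ₑ :=
    (Tw_jm (X := (ℝ × ℝ) × ℝ) (G := fun q => G q.2) (τ := fun q => τ + q.2) (z := fun q => q.1)
      (hG.comp (f := fun p : ((ℝ × ℝ) × ℝ) × ℝ => (p.1.2, p.2)) (by fun_prop)) (by fun_prop)
      (by fun_prop)).enorm
  have hGs : ∀ ν, Measurable (G ν) := fun ν => hG.comp (f := fun θ : ℝ => (ν, θ)) (by fun_prop)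
  have hbd : ∀ ν, (∫⁻ x : ℝ × ℝ, ‖Tw (G ν) (τ + ν) x‖ₑ ^ (4 : ℝ)) ^ ((1:ℝ) / 4) ≤
      ENNReal.ofReal C ^ ((1:ℝ) / 4) * (ENNReal.ofReal ((1 + |τ + ν|) ^ (-(2 - e) / 4)) *
        (∫⁻ θ, ‖G ν θ‖ₑ ^ 4 ∂mu) ^ ((1:ℝ) / 4)) := by
    intro ν
    have h1 := hT (τ + ν) (G ν) (hGs ν) (b ν) (hb ν)
    have hp : 0 < (1 + |τ + ν|) := by positivity
    simp only [e1]
    refine (ENNReal.rpow_le_rpow h1 (by norm_num)).trans (le_of_eq ?_)
    have e2 : (1 + |τ + ν|) ^ (-(2 - e)) = ((1 + |τ + ν|) ^ (-(2 - e) / 4)) ^ 4 := by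
      rw [← Real.rpow_natCast, ← Real.rpow_mul hp.le]
      congr 1
      push_cast
      ring
    rw [e2, ENNReal.ofReal_mul hC.le, ENNReal.mul_rpow_of_nonneg _ _ (by norm_num : (0:ℝ) ≤ 1 / 4),
      ENNReal.mul_rpow_of_nonneg _ _ (by norm_num : (0:ℝ) ≤ 1 / 4), mul_assoc]
    congr 2
    rw [ENNReal.ofReal_pow (by positivity), ← ENNReal.rpow_natCast, ← ENNReal.rpow_mul]
    norm_num
  calc ∫⁻ x : ℝ × ℝ, (∫⁻ ν, ‖Tw (G ν) (τ + ν) x‖ₑ) ^ (4 : ℝ)
      ≤ (∫⁻ ν, (∫⁻ x : ℝ × ℝ, ‖Tw (G ν) (τ + ν) x‖ₑ ^ (4 : ℝ)) ^ ((1:ℝ) / 4)) ^ (4 : ℝ) := by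
        refine Pool.Agent.H438R2.PD.A5.mink volume volume
          (fun x ν => ‖Tw (G ν) (τ + ν) x‖ₑ) ?_ 4 (by norm_num)
        exact hjm
    _ ≤ (∫⁻ ν, ENNReal.ofReal C ^ ((1:ℝ) / 4) * (ENNReal.ofReal ((1 + |τ + ν|) ^ (-(2 - e) / 4)) *
        (∫⁻ θ, ‖G ν θ‖ₑ ^ 4 ∂mu) ^ ((1:ℝ) / 4))) ^ (4 : ℝ) :=
        ENNReal.rpow_le_rpow (lintegral_mono fun ν => hbd ν) (by norm_num)
    _ = _ := by
        rw [lintegral_const_mul' _ _ (ENNReal.rpow_ne_top_of_nonneg (by norm_num)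
          ENNReal.ofReal_ne_top), ENNReal.mul_rpow_of_nonneg _ _ (by norm_num : (0:ℝ) ≤ 4),
          ← ENNReal.rpow_mul]
        norm_num

/-- Hoelder's inequality with a weight -/
lemma wHol {w V : ℝ → ℝ≥0∞} (hw : Measurable w) (hV : Measurable V) :
    (∫⁻ ν, w ν * V ν ^ ((1:ℝ) / 4)) ^ (4 : ℝ) ≤ (∫⁻ ν, w ν) ^ (3 : ℝ) * ∫⁻ ν, w ν * V ν := by
  have hV4 : Measurable fun ν => V ν ^ ((1:ℝ) / 4) := hV.pow_const _
  have h1 := Pool.Agent.H438R2.PD.A5.jensenp (volume.withDensity w) (fun ν => V ν ^ ((1:ℝ) / 4))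
    hV4.aemeasurable 4 (by norm_num)
  rw [lintegral_withDensity_eq_lintegral_mul _ hw hV4,
    lintegral_withDensity_eq_lintegral_mul _ hw (hV4.pow_const 4),
    withDensity_apply _ MeasurableSet.univ, setLIntegral_univ] at h1
  simp only [Pi.mul_apply] at h1
  refine h1.trans (le_of_eq ?_)
  have e2 : ∀ ν, (V ν ^ ((1:ℝ) / 4)) ^ (4 : ℝ) = V ν := by
    intro ν
    rw [← ENNReal.rpow_mul]
    norm_num
  simp only [e2]
  norm_num

/-- normalised admissible families -/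
structure AdP (h : ℝ → ℝ → ℝ → ℂ) (b : ℝ → ℝ) : Prop where
  meas : Measurable fun p : ℝ × ℝ × ℝ => h p.1 p.2.1 p.2.2
  le : ∀ a ν θ, ‖h a ν θ‖ ≤ 1
  bmeas : Measurable b
  b0 : ∀ ν, 0 ≤ b ν
  bint : Integrable b

/-- the family -/
noncomputable def HP (h : ℝ → ℝ → ℝ → ℂ) (b : ℝ → ℝ) (a ν θ : ℝ) : ℂ := (b ν : ℂ) * h a ν θ

variable {h : ℝ → ℝ → ℝ → ℂ} {b : ℝ → ℝ}

lemma AdP.adm (H : AdP h b) (a : ℝ) : Adm (HP h b a) b where
  meas := by
    unfold HP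
    refine (Complex.measurable_ofReal.comp (H.bmeas.comp measurable_fst)).mul ?_
    exact H.meas.comp (f := fun p : ℝ × ℝ => (a, p.1, p.2)) (by fun_prop)
  bmeas := H.bmeas
  bint := H.bint
  le := by
    intro ν θ
    unfold HP
    rw [norm_mul, Complex.norm_real, Real.norm_eq_abs, abs_of_nonneg (H.b0 ν)]
    exact mul_le_of_le_one_right (H.b0 ν) (H.le a ν θ)

/-- parametrised densities -/
structure Gp (M : ℝ) (g : ℝ → ℝ → ℂ) : Prop where
  meas : Measurable fun p : ℝ × ℝ => g p.1 p.2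
  bd : ∀ a θ, ‖g a θ‖ ≤ M
  supp : ∀ a θ, 1 < |a| → g a θ = 0

/-- the inner extension -/
noncomputable def In (h : ℝ → ℝ → ℝ → ℂ) (g : ℝ → ℝ → ℂ) (t y ν θ : ℝ) : ℂ :=
  E1 (fun a => g a θ * h a ν θ) t y

lemma E1_jm {X : Type*} [MeasurableSpace X] {G : X → ℝ → ℂ} {t y : X → ℝ}
    (hG : Measurable fun p : X × ℝ => G p.1 p.2) (ht : Measurable t) (hy : Measurable y) :
    Measurable fun p : X => E1 (G p) (t p) (y p) := by
  unfold E1
  have h1 : Measurable fun q : X × ℝ => G q.1 q.2 * ec (q.2 * y q.1 + q.2 ^ 2 * t q.1) := by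
    refine Measurable.mul hG (ec_meas.comp ?_)
    have m1 : Measurable fun q : X × ℝ => y q.1 := hy.comp measurable_fst
    have m2 : Measurable fun q : X × ℝ => t q.1 := ht.comp measurable_fst
    exact (measurable_snd.mul m1).add ((measurable_snd.pow_const 2).mul m2)
  exact (h1.stronglyMeasurable.integral_prod_right' (ν := (volume : Measure ℝ))).measurable

lemma In_jm {X : Type*} [MeasurableSpace X] (H : AdP h b) {g : ℝ → ℝ → ℂ}
    (hg : Measurable fun p : ℝ × ℝ => g p.1 p.2) {t y ν θ : X → ℝ} (ht : Measurable t)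
    (hy : Measurable y) (hν : Measurable ν) (hθ : Measurable θ) :
    Measurable fun p : X => In h g (t p) (y p) (ν p) (θ p) := by
  unfold In
  refine E1_jm (G := fun p a => g a (θ p) * h a (ν p) (θ p)) ?_ ht hy
  have m1 : Measurable fun q : X × ℝ => θ q.1 := hθ.comp measurable_fst
  have m2 : Measurable fun q : X × ℝ => ν q.1 := hν.comp measurable_fst
  exact (hg.comp (measurable_snd.prodMk m1)).mul
    (H.meas.comp (measurable_snd.prodMk (m2.prodMk m1)))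

lemma Gp.BS {M : ℝ} {g : ℝ → ℝ → ℂ} (hg : Gp M g) (H : AdP h b) (ν θ : ℝ) :
    BS M (fun a => g a θ * h a ν θ) where
  meas := (hg.meas.comp (f := fun a : ℝ => (a, θ)) (by fun_prop)).mul
    (H.meas.comp (f := fun a : ℝ => (a, ν, θ)) (by fun_prop))
  bd := by
    intro a
    rw [norm_mul]
    have h1 := hg.bd a θ
    have h2 := H.le a ν θ
    calc ‖g a θ‖ * ‖h a ν θ‖ ≤ M * 1 := mul_le_mul h1 h2 (norm_nonneg _)
          ((norm_nonneg _).trans h1)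
      _ = M := mul_one M
  supp := by
    intro a ha
    rw [hg.supp a θ ha, zero_mul]

lemma In_le {M : ℝ} {g : ℝ → ℝ → ℂ} (hg : Gp M g) (H : AdP h b) (t y ν θ : ℝ) :
    ‖In h g t y ν θ‖ ≤ 2 * M := by
  unfold In
  rw [E1_FT]
  exact ((hg.BS H ν θ).ch _).FT_bd _

/-- the operator -/
noncomputable def UU (H : ℝ → ℝ → ℝ → ℂ) (g : ℝ → ℝ → ℂ) (l t y : ℝ) (x : ℝ × ℝ) : ℂ :=
  E1 (fun a => TT (prof (H a) (g a)) (l * t) x) t y

lemma KH_jm (H : AdP h b) : Measurable fun p : ℝ × ℝ × ℝ × ℝ =>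
    KH (HP h b p.1) p.2.1 p.2.2.1 p.2.2.2 := by
  unfold KH HP
  have h1 : Measurable fun q : (ℝ × ℝ × ℝ × ℝ) × ℝ => (b q.2 : ℂ) * h q.1.1 q.2 q.1.2.2.2 *
      Kf q.1.2.2.1 (q.1.2.1 + q.2) := by
    refine Measurable.mul (Measurable.mul (Complex.measurable_ofReal.comp
      (H.bmeas.comp measurable_snd)) ?_) ?_
    · exact H.meas.comp (f := fun q : (ℝ × ℝ × ℝ × ℝ) × ℝ => (q.1.1, q.2, q.1.2.2.2)) (by fun_prop)
    · exact Kf_meas.comp (f := fun q : (ℝ × ℝ × ℝ × ℝ) × ℝ => (q.1.2.2.1, q.1.2.1 + q.2))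
        (by fun_prop)
  exact (h1.stronglyMeasurable.integral_prod_right' (ν := (volume : Measure ℝ))).measurable

lemma TTp_jm (H : AdP h b) {g : ℝ → ℝ → ℂ} (hg : Measurable fun p : ℝ × ℝ => g p.1 p.2) :
    Measurable fun p : ℝ × ℝ × (ℝ × ℝ) => TT (prof (HP h b p.1) (g p.1)) p.2.1 p.2.2 := by
  simp only [TT_prof (H.adm _)]
  have h1 : Measurable fun q : (ℝ × ℝ × (ℝ × ℝ)) × ℝ => g q.1.1 q.2 *
      KH (HP h b q.1.1) q.1.2.1 (ip q.1.2.2 q.2) q.2 := by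
    refine Measurable.mul (hg.comp (f := fun q : (ℝ × ℝ × (ℝ × ℝ)) × ℝ => (q.1.1, q.2))
      (by fun_prop)) ?_
    refine (KH_jm H).comp (f := fun q : (ℝ × ℝ × (ℝ × ℝ)) × ℝ =>
      (q.1.1, q.1.2.1, ip q.1.2.2 q.2, q.2)) ?_
    have m1 : Measurable fun q : (ℝ × ℝ × (ℝ × ℝ)) × ℝ => ip q.1.2.2 q.2 :=
      ip_cont.measurable.comp (f := fun q : (ℝ × ℝ × (ℝ × ℝ)) × ℝ => (q.1.2.2, q.2)) (by fun_prop)
    have m2 : Measurable fun q : (ℝ × ℝ × (ℝ × ℝ)) × ℝ => q.1.1 := by fun_prop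
    have m3 : Measurable fun q : (ℝ × ℝ × (ℝ × ℝ)) × ℝ => q.1.2.1 := by fun_prop
    exact m2.prodMk (m3.prodMk (m1.prodMk measurable_snd))
  exact (h1.stronglyMeasurable.integral_prod_right' (ν := mu)).measurable

lemma UU_meas (H : AdP h b) {g : ℝ → ℝ → ℂ} (hg : Measurable fun p : ℝ × ℝ => g p.1 p.2) (l : ℝ) :
    Measurable fun p : ℝ × ℝ × (ℝ × ℝ) => UU (HP h b) g l p.1 p.2.1 p.2.2 := by
  unfold UU
  refine E1_jm (X := ℝ × ℝ × (ℝ × ℝ)) (G := fun p a => TT (prof (HP h b a) (g a)) (l * p.1) p.2.2)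
    ?_ (by fun_prop) (by fun_prop)
  exact (TTp_jm H hg).comp (f := fun q : (ℝ × ℝ × (ℝ × ℝ)) × ℝ => (q.2, l * q.1.1, q.1.2.2))
    (by fun_prop)

lemma muI_int {M : ℝ} {g : ℝ → ℝ → ℂ} (hg : Gp M g) :
    Integrable (fun p : ℝ × ℝ => g p.1 p.2) (volume.prod mu) := by
  have h0 : Integrable (fun p : ℝ × ℝ => (Icc (-1:ℝ) 1).indicator (fun _ => M) p.1 *
      (fun _ : ℝ => (1:ℝ)) p.2) (volume.prod mu) := by
    refine Integrable.mul_prod (f := (Icc (-1:ℝ) 1).indicator (fun _ => M))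
      (g := fun _ : ℝ => (1:ℝ)) ?_ (integrable_const _)
    rw [integrable_indicator_iff measurableSet_Icc]
    exact integrableOn_const (by rw [Real.volume_Icc]; exact ENNReal.ofReal_ne_top)
  refine h0.mono hg.meas.aestronglyMeasurable (ae_of_all _ fun p => ?_)
  by_cases hp : p.1 ∈ Icc (-1:ℝ) 1
  · rw [indicator_of_mem hp, mul_one]
    exact (hg.bd _ _).trans (le_abs_self M)
  · rw [hg.supp p.1 p.2 (by rw [← not_le, abs_le]; exact hp), norm_zero]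
    exact norm_nonneg _

/-- interchange of the integrations -/
lemma UU_Tw {M : ℝ} {g : ℝ → ℝ → ℂ} (hg : Gp M g) (H : AdP h b) (l t y : ℝ) (x : ℝ × ℝ) :
    UU (HP h b) g l t y x =
      ∫ ν, Tw (fun θ => (b ν : ℂ) * In h g t y ν θ) (l * t + ν) x := by
  set Q : ℝ × ℝ → ℝ → ℂ := fun p ν => g p.1 p.2 * (b ν * h p.1 ν p.2 *
    Kf (ip x p.2) (l * t + ν)) * ec (p.1 * y + p.1 ^ 2 * t) with hQ
  have hI : Integrable (fun q : (ℝ × ℝ) × ℝ => Q q.1 q.2) ((volume.prod mu).prod volume) := by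
    have h0 := (muI_int hg).mul_prod (H.bint.ofReal (𝕜 := ℂ))
    refine h0.mono ?_ (ae_of_all _ fun q => ?_)
    · rw [hQ]
      refine Measurable.aestronglyMeasurable ?_
      refine Measurable.mul (Measurable.mul (hg.meas.comp (f := fun q : (ℝ × ℝ) × ℝ =>
        (q.1.1, q.1.2)) (by fun_prop)) (Measurable.mul (Measurable.mul
          (Complex.measurable_ofReal.comp (H.bmeas.comp measurable_snd)) ?_) ?_))
        (ec_meas.comp (by fun_prop))
      · exact H.meas.comp (f := fun q : (ℝ × ℝ) × ℝ => (q.1.1, q.2, q.1.2)) (by fun_prop)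
      · refine Kf_meas.comp (f := fun q : (ℝ × ℝ) × ℝ => (ip x q.1.2, l * t + q.2))
          (Measurable.prodMk ?_ (by fun_prop))
        exact ip_cont.measurable.comp (f := fun q : (ℝ × ℝ) × ℝ => (x, q.1.2)) (by fun_prop)
    · rw [hQ]
      simp only
      rw [norm_mul, norm_mul, norm_mul, norm_mul, norm_mul, ec_norm, mul_one]
      refine mul_le_mul_of_nonneg_left ?_ (norm_nonneg _)
      rw [mul_assoc]
      refine mul_le_of_le_one_right (norm_nonneg _) ?_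
      calc ‖h q.1.1 q.2 q.1.2‖ * ‖Kf (ip x q.1.2) (l * t + q.2)‖ ≤ 1 * 1 :=
            mul_le_mul (H.le _ _ _) (Kf_le _ _) (norm_nonneg _) (by norm_num)
        _ = 1 := mul_one 1
  have hl : UU (HP h b) g l t y x = ∫ p : ℝ × ℝ, (∫ ν, Q p ν) ∂(volume.prod mu) := by
    rw [integral_prod _ hI.integral_prod_left]
    unfold UU E1
    congr 1
    ext a
    beta_reduce
    rw [TT_prof (H.adm a), ← integral_mul_const]
    congr 1
    ext θ
    unfold KH HP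
    rw [← integral_const_mul, ← integral_mul_const]
  rw [hl, integral_integral_swap (f := fun p ν => Q p ν) hI]
  congr 1
  ext ν
  by_cases hν : Integrable (fun p : ℝ × ℝ => Q p ν) (volume.prod mu)
  · rw [integral_prod_symm _ hν]
    unfold Tw In E1
    congr 1
    ext θ
    beta_reduce
    rw [mul_comm ((b ν : ℂ)), mul_assoc, ← integral_mul_const]
    congr 1
    ext a
    rw [hQ]
    simp only
    ring
  · exfalso
    apply hν
    refine (muI_int hg).norm.mul_const (b ν) |>.mono ?_ (ae_of_all _ fun q => ?_)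
    · rw [hQ]
      refine Measurable.aestronglyMeasurable ?_
      refine Measurable.mul (Measurable.mul hg.meas (Measurable.mul (Measurable.mul
        measurable_const ?_) ?_)) (ec_meas.comp (by fun_prop))
      · exact H.meas.comp (f := fun q : ℝ × ℝ => (q.1, ν, q.2)) (by fun_prop)
      · refine Kf_meas.comp (f := fun q : ℝ × ℝ => (ip x q.2, l * t + ν))
          (Measurable.prodMk ?_ (by fun_prop))
        exact ip_cont.measurable.comp (f := fun q : ℝ × ℝ => (x, q.2)) (by fun_prop)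
    · rw [hQ]
      simp only
      rw [norm_mul, norm_mul, norm_mul, norm_mul, ec_norm, mul_one, norm_mul, norm_norm]
      refine mul_le_mul_of_nonneg_left ?_ (norm_nonneg _)
      rw [Complex.norm_real, mul_assoc]
      refine mul_le_of_le_one_right (norm_nonneg _) ?_
      calc ‖h q.1 ν q.2‖ * ‖Kf (ip x q.2) (l * t + ν)‖ ≤ 1 * 1 :=
            mul_le_mul (H.le _ _ _) (Kf_le _ _) (norm_nonneg _) (by norm_num)
        _ = 1 := mul_one 1

end Pool.Agent.R245.PC
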