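import Mathlib
import Pool.Agent.R245.PC.C2
set_option autoImplicit false

/-! Second and fourth power estimates for a Littlewood Paley piece with a rough parameter. -/

namespace Pool.Agent.R245.PC

open Pool.Agent.R245.PB MeasureTheory Set Complex Filter Real
open Pool.Agent.H147R3.PE (BS FT ch)
open scoped ENNReal Topology

/-- the weight against the Cauchy kernel -/
lemma cw_w {a : ℝ} (ha0 : 0 ≤ a) (ha1 : a < 1) : ∃ C : ℝ, 0 < C ∧ ∀ δ : ℝ, 0 < δ → δ ≤ 1 →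
    ∫⁻ ν, ENNReal.ofReal (cw δ ν * (1 + |ν|) ^ a) ≤ ENNReal.ofReal (C * δ ^ (-a)) := by
  have hT := time_fin (b := 2 - a) (by linarith)
  obtain ⟨κ, hκ0, hκ⟩ : ∃ κ : ℝ, 0 ≤ κ ∧ ∫⁻ t : ℝ, ENNReal.ofReal ((1 + |t|) ^ (-(2 - a))) =
      ENNReal.ofReal κ := ⟨_, ENNReal.toReal_nonneg, (ENNReal.ofReal_toReal hT.ne).symm⟩
  refine ⟨2 * (κ + 1), by positivity, ?_⟩
  intro δ hδ hδ1
  set F : ℝ → ℝ≥0∞ := fun u => ENNReal.ofReal ((1 + |u|) ^ (-(2 - a))) with hF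
  have hFm : Measurable F := (Measurable.pow_const (by fun_prop) _).ennreal_ofReal
  have hp : ∀ ν, ENNReal.ofReal (cw δ ν * (1 + |ν|) ^ a) ≤
      ENNReal.ofReal (2 * δ ^ (-a) * δ) * F (δ * ν) := by
    intro ν
    rw [hF]
    simp only
    rw [← ENNReal.ofReal_mul (by positivity)]
    apply ENNReal.ofReal_le_ofReal
    set z := δ * |ν| with hz
    have hz0 : 0 ≤ z := by positivity
    have ez : |δ * ν| = z := by rw [abs_mul, abs_of_pos hδ]
    rw [ez]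
    have h1 : (1 + |ν|) ^ a ≤ δ ^ (-a) * (1 + z) ^ a := by
      have e1 : δ ^ (-a) * (1 + z) ^ a = ((1 + z) / δ) ^ a := by
        rw [Real.div_rpow (by positivity) hδ.le, Real.rpow_neg hδ.le, div_eq_mul_inv, mul_comm]
      rw [e1]
      refine Real.rpow_le_rpow (by positivity) ?_ ha0
      rw [le_div_iff₀ hδ, hz]
      nlinarith [abs_nonneg ν]
    have h2 : cw δ ν ≤ 2 * δ * (1 + z) ^ (-(2:ℝ)) := by
      unfold cw
      have e2 : δ ^ 2 * ν ^ 2 = z ^ 2 := by rw [hz, mul_pow, sq_abs]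
      rw [e2, Real.rpow_neg (by positivity), show (2:ℝ) = ((2:ℕ):ℝ) by norm_num, Real.rpow_natCast,
        ← div_eq_mul_inv, div_le_div_iff₀ (by positivity) (by positivity)]
      push_cast
      nlinarith [sq_nonneg (1 - z), mul_nonneg hδ.le (sq_nonneg (1 - z))]
    calc cw δ ν * (1 + |ν|) ^ a ≤ (2 * δ * (1 + z) ^ (-(2:ℝ))) * (δ ^ (-a) * (1 + z) ^ a) :=
          mul_le_mul h2 h1 (by positivity) (by positivity)
      _ = 2 * δ ^ (-a) * δ * ((1 + z) ^ (-(2:ℝ)) * (1 + z) ^ a) := by ring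
      _ = _ := by
          rw [← Real.rpow_add (by positivity)]
          congr 2
          ring
  have hc : Measurable fun ν => F (δ * ν) := hFm.comp (by fun_prop)
  refine (lintegral_mono hp).trans ?_
  rw [lintegral_const_mul _ hc, lint_c hδ.ne' hFm, hκ, ← ENNReal.ofReal_mul (abs_nonneg _),
    ← ENNReal.ofReal_mul (by positivity)]
  apply ENNReal.ofReal_le_ofReal
  rw [abs_inv, abs_of_pos hδ]
  have e : 2 * δ ^ (-a) * δ * (δ⁻¹ * κ) = 2 * δ ^ (-a) * κ := by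
    field_simp
  rw [e]
  have : 0 < δ ^ (-a) := by positivity
  nlinarith

/-- Peetre's inequality -/
lemma peetre {a : ℝ} (ha0 : 0 ≤ a) (s ν : ℝ) :
    (1 + |s + ν|) ^ (-a) ≤ (1 + |s|) ^ (-a) * (1 + |ν|) ^ a := by
  have e1 : (1 + |s|) ^ (-a) * (1 + |ν|) ^ a = ((1 + |s|) / (1 + |ν|)) ^ (-a) := by
    rw [Real.div_rpow (by positivity) (by positivity), Real.rpow_neg (y := a) (x := 1 + |ν|)
      (by positivity), div_inv_eq_mul]
  rw [e1]
  apply Real.rpow_le_rpow_of_nonpos (by positivity) _ (by linarith)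
  rw [div_le_iff₀ (by positivity)]
  have h1 : |s| ≤ |s + ν| + |ν| := by
    calc |s| = |(s + ν) - ν| := by ring_nf
      _ ≤ _ := abs_sub _ _
  nlinarith [abs_nonneg (s + ν), abs_nonneg ν, mul_nonneg (abs_nonneg (s + ν)) (abs_nonneg ν)]

/-- families of normalised profiles -/
structure PrP (Ψ : ℝ → ℝ → ℝ → ℂ) : Prop where
  meas : Measurable fun p : ℝ × ℝ × ℝ => Ψ p.1 p.2.1 p.2.2
  pr : ∀ a, Pr (Ψ a)

/-- the majorant -/
noncomputable def bk (k : ℕ) (ν : ℝ) : ℝ := 3 * cw (dl k) ν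

lemma bk_pos (k : ℕ) (ν : ℝ) : 0 < bk k ν := by
  unfold bk cw
  have := dl_pos k
  have := cw_den (dl k) ν
  positivity

/-- the normalised pieces -/
noncomputable def hk (Ψ : ℝ → ℝ → ℝ → ℂ) (k : ℕ) (a ν θ : ℝ) : ℂ := HL (Ψ a) k ν θ / (bk k ν : ℂ)

lemma HP_hk (Ψ : ℝ → ℝ → ℝ → ℂ) (k : ℕ) (a : ℝ) : HP (hk Ψ k) (bk k) a = HL (Ψ a) k := by
  ext ν θ
  unfold HP hk
  have : (bk k ν : ℂ) ≠ 0 := by exact_mod_cast (bk_pos k ν).ne'
  field_simp

variable {Ψ : ℝ → ℝ → ℝ → ℂ}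

lemma FhP_meas (h : PrP Ψ) : Measurable fun p : ℝ × ℝ × ℝ => Fh (Ψ p.1 p.2.2) p.2.1 := by
  unfold Fh
  have h1 : Measurable fun q : (ℝ × ℝ × ℝ) × ℝ => Ψ q.1.1 q.1.2.2 q.2 *
      ec (-(q.1.2.1 * q.2)) := by
    refine Measurable.mul ?_ (ec_meas.comp (by fun_prop))
    exact h.meas.comp (f := fun q : (ℝ × ℝ × ℝ) × ℝ => (q.1.1, q.1.2.2, q.2)) (by fun_prop)
  exact (h1.stronglyMeasurable.integral_prod_right' (ν := (volume : Measure ℝ))).measurable

lemma hk_adm (h : PrP Ψ) (k : ℕ) : AdP (hk Ψ k) (bk k) where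
  meas := by
    unfold hk HL
    refine Measurable.div ((Complex.measurable_ofReal.comp ((gk_meas k).comp
      (f := fun p : ℝ × ℝ × ℝ => p.2.1) (by fun_prop))).mul (FhP_meas h)) ?_
    refine Complex.measurable_ofReal.comp ?_
    unfold bk
    exact ((cw_meas _).comp (f := fun p : ℝ × ℝ × ℝ => p.2.1) (by fun_prop)).const_mul _
  le := by
    intro a ν θ
    unfold hk
    have h1 := (HL_adm (h.pr a) k).le ν θ
    have h2 := bk_pos k ν
    rw [norm_div, Complex.norm_real, Real.norm_eq_abs, abs_of_pos h2, div_le_one h2]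
    exact h1
  bmeas := (cw_meas _).const_mul _
  b0 := fun ν => (bk_pos k ν).le
  bint := (cw_int (dl_pos k)).const_mul _

lemma lint4 {P : Measure (ℝ × ℝ)} [SFinite P] {β : ℝ → ℝ≥0∞} (hβ : Measurable β)
    {F : ℝ × ℝ → ℝ → ℝ → ℝ≥0∞} (hF : Measurable fun p : (ℝ × ℝ) × ℝ × ℝ => F p.1 p.2.1 p.2.2) :
    ∫⁻ z, (∫⁻ ν, β ν * ∫⁻ θ, F z ν θ ∂mu) ∂P = ∫⁻ ν, β ν * ∫⁻ θ, (∫⁻ z, F z ν θ ∂P) ∂mu := by
  have m1 : Measurable fun q : ((ℝ × ℝ) × ℝ) × ℝ => F q.1.1 q.1.2 q.2 :=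
    hF.comp (f := fun q : ((ℝ × ℝ) × ℝ) × ℝ => (q.1.1, q.1.2, q.2)) (by fun_prop)
  have m2 : Measurable fun q : (ℝ × ℝ) × ℝ => ∫⁻ θ, F q.1 q.2 θ ∂mu := m1.lintegral_prod_right'
  have m3 : Measurable fun q : (ℝ × ℝ) × ℝ => β q.2 * ∫⁻ θ, F q.1 q.2 θ ∂mu :=
    (hβ.comp measurable_snd).mul m2
  rw [lintegral_lintegral_swap m3.aemeasurable]
  congr 1
  ext ν
  have m4 : Measurable fun z : ℝ × ℝ => ∫⁻ θ, F z ν θ ∂mu :=
    m2.comp (f := fun z : ℝ × ℝ => (z, ν)) (by fun_prop)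
  have m5 : Measurable fun q : (ℝ × ℝ) × ℝ => F q.1 ν q.2 :=
    hF.comp (f := fun q : (ℝ × ℝ) × ℝ => (q.1, ν, q.2)) (by fun_prop)
  rw [lintegral_const_mul _ m4, lintegral_lintegral_swap m5.aemeasurable]

/-- the fourth power estimate -/
theorem U4 {e : ℝ} (he0 : 0 < e) (he1 : e < 1) : ∃ C : ℝ, 0 < C ∧
    ∀ (Ψ : ℝ → ℝ → ℝ → ℂ), PrP Ψ → ∀ (k : ℕ) (M : ℝ) (g : ℝ → ℝ → ℂ), Gp M g →
    ∀ (l L T : ℝ), 0 ≤ l → 0 ≤ L → 0 < T → ∀ B : Set ℝ, MeasurableSet B →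
    (∀ t ∈ B, L ≤ |t| ∧ |t| ≤ T) →
    ∫⁻ t in B, (∫⁻ y, ∫⁻ x : ℝ × ℝ, ‖UU (fun a => HL (Ψ a) k) g l t y x‖ₑ ^ 4) ≤
      ENNReal.ofReal (C * dl k ^ (-((2 - e) / 4)) * T ^ e * (1 + l * L) ^ (-(2 - e))) *
        ∫⁻ θ, (∫⁻ a, ‖g a θ‖ₑ ^ 4) ∂mu := by
  set a : ℝ := (2 - e) / 4 with ha
  have ha0 : 0 ≤ a := by rw [ha]; linarith
  have ha1 : a < 1 := by rw [ha]; linarith
  have h1a : 0 < 1 - a := by linarith
  obtain ⟨C, hC, hS⟩ := supT he0 he1.le
  obtain ⟨C1, hC1, h1⟩ := E1_four he0 he1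
  obtain ⟨C5, hC5, h5⟩ := cw_w ha0 ha1
  set D : ℝ := 2 * Real.pi + 8 / (1 - a) with hD
  have hD0 : 0 < D := by positivity
  refine ⟨C * (3 * D) ^ 3 * (3 * C5) * C1, by positivity, ?_⟩
  intro Ψ hΨ k M g hg l L T hl hL hT B hBm hB
  have hA := hk_adm hΨ k
  have hH : (fun a => HL (Ψ a) k) = HP (hk Ψ k) (bk k) := by
    ext1 a
    rw [HP_hk]
  rw [hH]
  have hM0 : 0 ≤ M := (norm_nonneg _).trans (hg.bd 0 0)
  have h1L : 0 < 1 + l * L := by positivity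
  set β : ℝ → ℝ≥0∞ := fun ν => ENNReal.ofReal (bk k ν * (1 + |ν|) ^ a) with hβ
  have hβm : Measurable β := by
    apply Measurable.ennreal_ofReal
    refine hA.bmeas.mul ?_
    exact ((by fun_prop : Measurable fun ν : ℝ => 1 + |ν|)).pow_const _
  -- pointwise in time and in the first variable
  have hpt : ∀ t ∈ B, ∀ y, ∫⁻ x : ℝ × ℝ, ‖UU (HP (hk Ψ k) (bk k)) g l t y x‖ₑ ^ 4 ≤
      ENNReal.ofReal (C * (3 * D) ^ 3 * (1 + l * L) ^ (-(2 - e))) *
        ∫⁻ ν, β ν * ∫⁻ θ, ‖In (hk Ψ k) g t y ν θ‖ₑ ^ 4 ∂mu := by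
    intro t ht y
    have e1 : ∀ z : ℝ≥0∞, z ^ (4 : ℝ) = z ^ 4 := fun z => ENNReal.rpow_ofNat z 4
    set w : ℝ → ℝ≥0∞ := fun ν => ENNReal.ofReal (bk k ν * (1 + |l * t + ν|) ^ (-a)) with hw
    have hwm : Measurable w := by
      apply Measurable.ennreal_ofReal
      refine hA.bmeas.mul ?_
      exact ((by fun_prop : Measurable fun ν : ℝ => 1 + |l * t + ν|)).pow_const _
    set J : ℝ → ℝ≥0∞ := fun ν => ∫⁻ θ, ‖In (hk Ψ k) g t y ν θ‖ₑ ^ 4 ∂mu with hJ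
    have hJm : Measurable J := by
      have m1 : Measurable fun q : ℝ × ℝ => ‖In (hk Ψ k) g t y q.1 q.2‖ₑ ^ 4 :=
        (In_jm (X := ℝ × ℝ) hA hg.meas (t := fun _ => t) (y := fun _ => y) (ν := fun q => q.1)
          (θ := fun q => q.2) measurable_const measurable_const measurable_fst
          measurable_snd).enorm.pow_const 4
      exact m1.lintegral_prod_right'
    have q1 : ∫⁻ x : ℝ × ℝ, ‖UU (HP (hk Ψ k) (bk k)) g l t y x‖ₑ ^ 4 ≤
        ∫⁻ x : ℝ × ℝ, (∫⁻ ν, ‖Tw (fun θ => (bk k ν : ℂ) * In (hk Ψ k) g t y ν θ)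
          (l * t + ν) x‖ₑ) ^ (4 : ℝ) := by
      apply lintegral_mono
      intro x
      simp only
      rw [e1, UU_Tw hg hA]
      exact pow_le_pow_left' (enorm_integral_le_lintegral_enorm _) 4
    have q2 := hS (fun ν θ => (bk k ν : ℂ) * In (hk Ψ k) g t y ν θ) (by
        refine (Complex.measurable_ofReal.comp (hA.bmeas.comp measurable_fst)).mul ?_
        exact In_jm (X := ℝ × ℝ) hA hg.meas (t := fun _ => t) (y := fun _ => y) (ν := fun q => q.1)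
          (θ := fun q => q.2) measurable_const measurable_const measurable_fst
          measurable_snd) (fun ν => bk k ν * (2 * M)) (by
        intro ν θ
        rw [norm_mul, Complex.norm_real, Real.norm_eq_abs, abs_of_pos (bk_pos k ν)]
        exact mul_le_mul_of_nonneg_left (In_le hg hA t y ν θ) (bk_pos k ν).le) (l * t)
    have q3 : ∀ ν, ENNReal.ofReal ((1 + |l * t + ν|) ^ (-(2 - e) / 4)) *
        (∫⁻ θ, ‖(bk k ν : ℂ) * In (hk Ψ k) g t y ν θ‖ₑ ^ 4 ∂mu) ^ ((1:ℝ) / 4) =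
        w ν * J ν ^ ((1:ℝ) / 4) := by
      intro ν
      have e2 : ∀ θ, ‖(bk k ν : ℂ) * In (hk Ψ k) g t y ν θ‖ₑ ^ 4 =
          ENNReal.ofReal (bk k ν) ^ 4 * ‖In (hk Ψ k) g t y ν θ‖ₑ ^ 4 := by
        intro θ
        rw [enorm_mul, mul_pow, ← ofReal_norm ((bk k ν : ℝ) : ℂ), Complex.norm_real,
          Real.norm_eq_abs, abs_of_pos (bk_pos k ν)]
      simp only [e2]
      rw [lintegral_const_mul' _ _ (ENNReal.pow_ne_top ENNReal.ofReal_ne_top),
        ENNReal.mul_rpow_of_nonneg _ _ (by norm_num : (0:ℝ) ≤ 1 / 4), ← mul_assoc]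
      congr 1
      rw [hw]
      simp only
      rw [ENNReal.ofReal_mul (bk_pos k ν).le, mul_comm (ENNReal.ofReal (bk k ν))]
      congr 1
      · rw [ha, neg_div]
      · rw [← ENNReal.rpow_natCast, ← ENNReal.rpow_mul]
        norm_num
    simp only [q3] at q2
    have q4 := wHol hwm hJm
    have q5 : ∫⁻ ν, w ν ≤ ENNReal.ofReal (3 * D * (1 + l * L) ^ (-a)) := by
      have h2 := time_lem ha0 ha1 (dl_pos k) (dl_le k) (l * t)
      have e3 : ∀ ν, w ν = ENNReal.ofReal 3 *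
          ENNReal.ofReal (cw (dl k) ν * (1 + |l * t + ν|) ^ (-a)) := by
        intro ν
        rw [hw]
        simp only
        rw [← ENNReal.ofReal_mul (by norm_num)]
        unfold bk
        rw [mul_assoc]
      simp only [e3]
      rw [lintegral_const_mul' _ _ ENNReal.ofReal_ne_top]
      refine (mul_le_mul' le_rfl h2).trans ?_
      rw [← ENNReal.ofReal_mul (by norm_num), ← hD]
      apply ENNReal.ofReal_le_ofReal
      rw [mul_assoc]
      refine mul_le_mul_of_nonneg_left ?_ (by norm_num)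
      refine mul_le_mul_of_nonneg_left ?_ hD0.le
      apply Real.rpow_le_rpow_of_nonpos h1L _ (by linarith)
      rw [abs_mul, abs_of_nonneg hl]
      have := mul_le_mul_of_nonneg_left (hB t ht).1 hl
      linarith
    have q6 : ∫⁻ ν, w ν * J ν ≤ ENNReal.ofReal ((1 + l * L) ^ (-a)) * ∫⁻ ν, β ν * J ν := by
      rw [← lintegral_const_mul' _ _ ENNReal.ofReal_ne_top]
      apply lintegral_mono
      intro ν
      simp only
      rw [← mul_assoc]
      refine mul_le_mul' ?_ le_rfl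
      rw [hw, hβ]
      simp only
      rw [← ENNReal.ofReal_mul (by positivity)]
      apply ENNReal.ofReal_le_ofReal
      have h3 := peetre ha0 (l * t) ν
      have h4 : (1 + |l * t|) ^ (-a) ≤ (1 + l * L) ^ (-a) := by
        apply Real.rpow_le_rpow_of_nonpos h1L _ (by linarith)
        rw [abs_mul, abs_of_nonneg hl]
        have := mul_le_mul_of_nonneg_left (hB t ht).1 hl
        linarith
      have h6 := (bk_pos k ν).le
      calc bk k ν * (1 + |l * t + ν|) ^ (-a) ≤ bk k ν * ((1 + l * L) ^ (-a) * (1 + |ν|) ^ a) := by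
            refine mul_le_mul_of_nonneg_left (h3.trans ?_) h6
            exact mul_le_mul_of_nonneg_right h4 (by positivity)
        _ = _ := by ring
    calc ∫⁻ x : ℝ × ℝ, ‖UU (HP (hk Ψ k) (bk k)) g l t y x‖ₑ ^ 4
        ≤ ENNReal.ofReal C * (∫⁻ ν, w ν * J ν ^ ((1:ℝ) / 4)) ^ (4 : ℝ) := q1.trans q2
      _ ≤ ENNReal.ofReal C * ((∫⁻ ν, w ν) ^ (3 : ℝ) * ∫⁻ ν, w ν * J ν) :=
          mul_le_mul' le_rfl q4
      _ ≤ ENNReal.ofReal C * (ENNReal.ofReal (3 * D * (1 + l * L) ^ (-a)) ^ (3 : ℝ) *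
          (ENNReal.ofReal ((1 + l * L) ^ (-a)) * ∫⁻ ν, β ν * J ν)) := by
          refine mul_le_mul' le_rfl (mul_le_mul' ?_ q6)
          exact ENNReal.rpow_le_rpow q5 (by norm_num)
      _ = _ := by
          rw [ENNReal.ofReal_rpow_of_nonneg (by positivity) (by norm_num), ← mul_assoc,
            ← mul_assoc, ← ENNReal.ofReal_mul hC.le, ← ENNReal.ofReal_mul (by positivity)]
          congr 2
          rw [show (3:ℝ) = ((3:ℕ):ℝ) by norm_num, Real.rpow_natCast]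
          have e4 : (1 + l * L) ^ (-(2 - e)) = ((1 + l * L) ^ (-a)) ^ 3 * (1 + l * L) ^ (-a) := by
            rw [← Real.rpow_natCast, ← Real.rpow_mul h1L.le, ← Real.rpow_add h1L]
            congr 1
            rw [ha]
            push_cast
            ring
          rw [e4]
          push_cast
          ring
  -- integration
  set F : ℝ × ℝ → ℝ → ℝ → ℝ≥0∞ := fun z ν θ => ‖In (hk Ψ k) g z.1 z.2 ν θ‖ₑ ^ 4 with hF
  have hFm : Measurable fun p : (ℝ × ℝ) × ℝ × ℝ => F p.1 p.2.1 p.2.2 :=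
    (In_jm (X := (ℝ × ℝ) × ℝ × ℝ) hA hg.meas (t := fun p => p.1.1) (y := fun p => p.1.2)
      (ν := fun p => p.2.1) (θ := fun p => p.2.2) (by fun_prop) (by fun_prop) (by fun_prop)
      (by fun_prop)).enorm.pow_const 4
  set K : ℝ≥0∞ := ENNReal.ofReal (C * (3 * D) ^ 3 * (1 + l * L) ^ (-(2 - e))) with hK
  have m2 : Measurable fun z : ℝ × ℝ => ∫⁻ ν, β ν * ∫⁻ θ, F z ν θ ∂mu := by
    have m3 : Measurable fun q : (ℝ × ℝ) × ℝ => ∫⁻ θ, F q.1 q.2 θ ∂mu := by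
      have m4 : Measurable fun q : ((ℝ × ℝ) × ℝ) × ℝ => F q.1.1 q.1.2 q.2 :=
        hFm.comp (f := fun q : ((ℝ × ℝ) × ℝ) × ℝ => (q.1.1, q.1.2, q.2)) (by fun_prop)
      exact m4.lintegral_prod_right'
    have m5 : Measurable fun q : (ℝ × ℝ) × ℝ => β q.2 * ∫⁻ θ, F q.1 q.2 θ ∂mu :=
      (hβm.comp measurable_snd).mul m3
    exact m5.lintegral_prod_right'
  calc ∫⁻ t in B, (∫⁻ y, ∫⁻ x : ℝ × ℝ, ‖UU (HP (hk Ψ k) (bk k)) g l t y x‖ₑ ^ 4)
      ≤ ∫⁻ t in B, (∫⁻ y, K * ∫⁻ ν, β ν * ∫⁻ θ, F (t, y) ν θ ∂mu) := by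
        apply setLIntegral_mono' hBm
        intro t ht
        exact lintegral_mono fun y => hpt t ht y
    _ = ∫⁻ z, (K * ∫⁻ ν, β ν * ∫⁻ θ, F z ν θ ∂mu) ∂((volume.restrict B).prod volume) := by
        rw [lintegral_prod _ (m2.const_mul K).aemeasurable]
    _ = K * ∫⁻ ν, β ν * ∫⁻ θ, (∫⁻ z, F z ν θ ∂((volume.restrict B).prod volume)) ∂mu := by
        rw [lintegral_const_mul _ m2, lint4 hβm hFm]
    _ ≤ K * ∫⁻ ν, β ν * ∫⁻ θ, (ENNReal.ofReal (C1 * T ^ e) * ∫⁻ a, ‖g a θ‖ₑ ^ 4) ∂mu := by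
        refine mul_le_mul' le_rfl (lintegral_mono fun ν => mul_le_mul' le_rfl
          (lintegral_mono fun θ => ?_))
        have mz : Measurable fun z : ℝ × ℝ => F z ν θ :=
          hFm.comp (f := fun z : ℝ × ℝ => (z, ν, θ)) (by fun_prop)
        rw [lintegral_prod _ mz.aemeasurable]
        refine (h1 T hT B (fun t ht => (hB t ht).2) M _ (hg.BS hA ν θ)).trans ?_
        refine mul_le_mul' le_rfl (lintegral_mono fun a => ?_)
        refine pow_le_pow_left' ?_ 4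
        rw [enorm_mul]
        refine mul_le_of_le_one_right' ?_
        rw [← ofReal_norm, ENNReal.ofReal_le_one]
        exact hA.le a ν θ
    _ = K * (∫⁻ ν, β ν) * (ENNReal.ofReal (C1 * T ^ e) * ∫⁻ θ, (∫⁻ a, ‖g a θ‖ₑ ^ 4) ∂mu) := by
        rw [lintegral_mul_const _ hβm, lintegral_const_mul' _ _ ENNReal.ofReal_ne_top, mul_assoc]
    _ ≤ K * ENNReal.ofReal (3 * C5 * dl k ^ (-a)) *
        (ENNReal.ofReal (C1 * T ^ e) * ∫⁻ θ, (∫⁻ a, ‖g a θ‖ₑ ^ 4) ∂mu) := by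
        refine mul_le_mul' (mul_le_mul' le_rfl ?_) le_rfl
        have h2 := h5 (dl k) (dl_pos k) (dl_le k)
        have e3 : ∀ ν, β ν = ENNReal.ofReal 3 * ENNReal.ofReal (cw (dl k) ν * (1 + |ν|) ^ a) := by
          intro ν
          rw [hβ]
          simp only
          rw [← ENNReal.ofReal_mul (by norm_num)]
          unfold bk
          rw [mul_assoc]
        simp only [e3]
        rw [lintegral_const_mul' _ _ ENNReal.ofReal_ne_top]
        refine (mul_le_mul' le_rfl h2).trans (le_of_eq ?_)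
        rw [← ENNReal.ofReal_mul (by norm_num), mul_assoc]
    _ = _ := by
        have hdk := dl_pos k
        rw [hK, ← mul_assoc, ← ENNReal.ofReal_mul (by positivity),
          ← ENNReal.ofReal_mul (by positivity)]
        congr 2
        ring

end Pool.Agent.R245.PC
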