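import Mathlib
import Pool.Agent.R245.PC.C3
set_option autoImplicit false

/-! Interpolation for a Littlewood Paley piece with a rough parameter. -/

namespace Pool.Agent.R245.PC

open Pool.Agent.R245.PB MeasureTheory Set Complex Filter Real
open scoped ENNReal Topology

lemma TTp_le {H : ℝ → ℝ → ℂ} {b : ℝ → ℝ} (h : Adm H b) (g : ℝ → ℂ) (t : ℝ) (x : ℝ × ℝ) :
    ‖TT (prof H g) t x‖ₑ ≤ ENNReal.ofReal (∫ ν, b ν) * ∫⁻ θ, ‖g θ‖ₑ ∂mu := by
  rw [TT_prof h]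
  refine (enorm_integral_le_lintegral_enorm _).trans ?_
  rw [← lintegral_const_mul' _ _ ENNReal.ofReal_ne_top]
  apply lintegral_mono
  intro θ
  simp only
  rw [enorm_mul, mul_comm]
  refine mul_le_mul' ?_ le_rfl
  rw [← ofReal_norm]
  exact ENNReal.ofReal_le_ofReal (KH_le h _ _ _)

/-- integrable densities -/
structure Gi (g : ℝ → ℝ → ℂ) : Prop where
  meas : Measurable fun p : ℝ × ℝ => g p.1 p.2
  int : Integrable (fun p : ℝ × ℝ => g p.1 p.2) (volume.prod mu)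

variable {h : ℝ → ℝ → ℝ → ℂ} {b : ℝ → ℝ} {g g1 g2 : ℝ → ℝ → ℂ}

lemma Gi.one (hg : Gi g) : ∫⁻ a, (∫⁻ θ, ‖g a θ‖ₑ ∂mu) < ⊤ := by
  have h1 : ∫⁻ p : ℝ × ℝ, ‖g p.1 p.2‖ₑ ∂(volume.prod mu) < ⊤ := hg.int.hasFiniteIntegral
  rwa [lintegral_prod _ hg.meas.enorm.aemeasurable] at h1

lemma Gi.sec (hg : Gi g) (a : ℝ) : Measurable (g a) :=
  hg.meas.comp (f := fun θ : ℝ => (a, θ)) (by fun_prop)

lemma Gi.ae (hg : Gi g) : ∀ᵐ a : ℝ, Integrable (g a) mu := by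
  have h1 : Measurable fun a : ℝ => ∫⁻ θ, ‖g a θ‖ₑ ∂mu := hg.meas.enorm.lintegral_prod_right'
  filter_upwards [ae_lt_top h1 hg.one.ne] with a ha
  exact ⟨(hg.sec a).aestronglyMeasurable, ha⟩

lemma Y_int (H : AdP h b) (hg : Gi g) (τ : ℝ) (x : ℝ × ℝ) :
    Integrable fun a => TT (prof (HP h b a) (g a)) τ x := by
  have hm : Measurable fun a => TT (prof (HP h b a) (g a)) τ x :=
    (TTp_jm H hg.meas).comp (f := fun a : ℝ => (a, τ, x)) (by fun_prop)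
  refine ⟨hm.aestronglyMeasurable, ?_⟩
  refine lt_of_le_of_lt (lintegral_mono fun a => TTp_le (H.adm a) (g a) τ x) ?_
  rw [lintegral_const_mul' _ _ ENNReal.ofReal_ne_top]
  exact ENNReal.mul_lt_top ENNReal.ofReal_lt_top hg.one

lemma E1_add {G1 G2 : ℝ → ℂ} (h1 : Integrable G1) (h2 : Integrable G2) (t y : ℝ) :
    E1 (fun a => G1 a + G2 a) t y = E1 G1 t y + E1 G2 t y := by
  have hi : ∀ {G : ℝ → ℂ}, Integrable G → Integrable fun a => G a * ec (a * y + a ^ 2 * t) := by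
    intro G hG
    exact hG.mul_bdd (c := 1) (ec_meas.comp (by fun_prop)).aestronglyMeasurable
      (ae_of_all _ fun s => (ec_norm _).le)
  unfold E1
  rw [← integral_add (hi h1) (hi h2)]
  congr 1
  ext a
  ring

lemma E1_congr {G1 G2 : ℝ → ℂ} (h1 : G1 =ᵐ[volume] G2) (t y : ℝ) : E1 G1 t y = E1 G2 t y := by
  unfold E1
  apply integral_congr_ae
  filter_upwards [h1] with a ha
  rw [ha]

lemma UU_add (H : AdP h b) (hg1 : Gi g1) (hg2 : Gi g2) (l t y : ℝ) (x : ℝ × ℝ) :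
    UU (HP h b) (fun a θ => g1 a θ + g2 a θ) l t y x =
      UU (HP h b) g1 l t y x + UU (HP h b) g2 l t y x := by
  unfold UU
  rw [← E1_add (Y_int H hg1 _ x) (Y_int H hg2 _ x)]
  apply E1_congr
  filter_upwards [hg1.ae, hg2.ae] with a h1 h2
  exact TT_prof_add (H.adm a) h1 h2 _ x

variable {Ψ : ℝ → ℝ → ℝ → ℂ}

/-- the second power estimate at a fixed time -/
lemma U2 (hΨ : PrP Ψ) (k : ℕ) (hg : Gi g) (l t : ℝ) :
    ∫⁻ y, ∫⁻ x : ℝ × ℝ, ‖UU (fun a => HL (Ψ a) k) g l t y x‖ₑ ^ 2 ≤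
      ENNReal.ofReal (18 * π * dl k) * ∫⁻ a, (∫⁻ θ, ‖g a θ‖ₑ ^ 2 ∂mu) := by
  have hA := hk_adm hΨ k
  have hdk := dl_pos k
  have hH : (fun a => HL (Ψ a) k) = HP (hk Ψ k) (bk k) := by
    ext1 a
    rw [HP_hk]
  by_cases htop : ∫⁻ a, (∫⁻ θ, ‖g a θ‖ₑ ^ 2 ∂mu) = ⊤
  · rw [htop, ENNReal.mul_top]
    · exact le_top
    · simp only [ne_eq, ENNReal.ofReal_eq_zero, not_le]
      positivity
  rw [hH]
  set Y : ℝ → (ℝ × ℝ) → ℂ := fun a x => TT (prof (HP (hk Ψ k) (bk k) a) (g a)) (l * t) x with hY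
  have hYm : Measurable fun q : ℝ × (ℝ × ℝ) => Y q.1 q.2 :=
    (TTp_jm hA hg.meas).comp (f := fun q : ℝ × (ℝ × ℝ) => (q.1, l * t, q.2)) (by fun_prop)
  have hYs : ∀ x, Measurable fun a => Y a x := fun x =>
    hYm.comp (f := fun a : ℝ => (a, x)) (by fun_prop)
  have hY2 : ∀ x, MemLp (fun a => Y a x) 2 := by
    intro x
    refine ⟨(hYs x).aestronglyMeasurable, ?_⟩
    rw [eLpNorm_lt_top_iff_lintegral_rpow_enorm_lt_top (by norm_num) (by norm_num)]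
    have e1 : ∀ z : ℝ≥0∞, z ^ ((2 : ℝ≥0∞).toReal) = z ^ (2:ℝ) := fun z => by norm_num
    simp only [e1]
    have h1 : ∀ a, ‖Y a x‖ₑ ^ (2:ℝ) ≤ (ENNReal.ofReal (∫ ν, bk k ν)) ^ (2:ℝ) *
        ((mu univ) ^ ((2:ℝ) - 1) * ∫⁻ θ, ‖g a θ‖ₑ ^ (2:ℝ) ∂mu) := by
      intro a
      have h2 := TTp_le (hA.adm a) (g a) (l * t) x
      have h3 := Pool.Agent.H438R2.PD.A5.jensenp mu (fun θ => ‖g a θ‖ₑ)
        (hg.sec a).enorm.aemeasurable 2 (by norm_num)
      calc ‖Y a x‖ₑ ^ (2:ℝ) ≤ (ENNReal.ofReal (∫ ν, bk k ν) * ∫⁻ θ, ‖g a θ‖ₑ ∂mu) ^ (2:ℝ) :=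
            ENNReal.rpow_le_rpow h2 (by norm_num)
        _ = (ENNReal.ofReal (∫ ν, bk k ν)) ^ (2:ℝ) * (∫⁻ θ, ‖g a θ‖ₑ ∂mu) ^ (2:ℝ) :=
            ENNReal.mul_rpow_of_nonneg _ _ (by norm_num)
        _ ≤ _ := mul_le_mul' le_rfl h3
    refine lt_of_le_of_lt (lintegral_mono h1) ?_
    rw [lintegral_const_mul' _ _ (ENNReal.rpow_ne_top_of_nonneg (by norm_num)
      ENNReal.ofReal_ne_top), lintegral_const_mul' _ _ (ENNReal.rpow_ne_top_of_nonneg (by norm_num)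
      (measure_ne_top _ _))]
    refine ENNReal.mul_lt_top (ENNReal.rpow_lt_top_of_nonneg (by norm_num) ENNReal.ofReal_ne_top)
      (ENNReal.mul_lt_top (ENNReal.rpow_lt_top_of_nonneg (by norm_num) (measure_ne_top _ _)) ?_)
    have e2 : ∀ z : ℝ≥0∞, z ^ (2:ℝ) = z ^ 2 := fun z => ENNReal.rpow_ofNat z 2
    simp only [e2]
    exact lt_top_iff_ne_top.2 htop
  have hUm : Measurable fun q : ℝ × (ℝ × ℝ) => ‖E1 (fun a => Y a q.2) t q.1‖ₑ ^ 2 :=
    (E1_jm (X := ℝ × (ℝ × ℝ)) (G := fun q a => Y a q.2) (t := fun _ => t) (y := fun q => q.1)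
      (hYm.comp (f := fun q : (ℝ × (ℝ × ℝ)) × ℝ => (q.2, q.1.2)) (by fun_prop)) (by fun_prop)
      (by fun_prop)).enorm.pow_const 2
  calc ∫⁻ y, ∫⁻ x : ℝ × ℝ, ‖UU (HP (hk Ψ k) (bk k)) g l t y x‖ₑ ^ 2
      = ∫⁻ y, ∫⁻ x : ℝ × ℝ, ‖E1 (fun a => Y a x) t y‖ₑ ^ 2 := rfl
    _ = ∫⁻ x : ℝ × ℝ, ∫⁻ y, ‖E1 (fun a => Y a x) t y‖ₑ ^ 2 :=
        lintegral_lintegral_swap hUm.aemeasurable
    _ = ∫⁻ x : ℝ × ℝ, ∫⁻ a, ‖Y a x‖ₑ ^ 2 := by
        congr 1
        ext x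
        exact E1_two (Y_int hA hg _ x) (hY2 x) (hYs x) t
    _ = ∫⁻ a, ∫⁻ x : ℝ × ℝ, ‖Y a x‖ₑ ^ 2 := by
        refine (lintegral_lintegral_swap ?_).symm
        exact (hYm.enorm.pow_const 2).aemeasurable
    _ ≤ ∫⁻ a, ENNReal.ofReal (18 * π * dl k) * (∫⁻ θ, ‖g a θ‖ₑ ^ 2 ∂mu) := by
        apply lintegral_mono_ae
        filter_upwards [hg.ae] with a ha
        have := lim2 (hΨ.pr a) k (l * t) (hg.sec a) ha
        rw [← HP_hk Ψ k a] at this
        exact this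
    _ = _ := lintegral_const_mul' _ _ ENNReal.ofReal_ne_top

/-- interpolation for one piece on a block of times -/
theorem Up {e : ℝ} (he0 : 0 < e) (he1 : e < 1) {p : ℝ} (hp2 : 2 < p) (hp4 : p < 4) :
    ∃ C : ℝ, 0 < C ∧ ∀ (Ψ : ℝ → ℝ → ℝ → ℂ), PrP Ψ → ∀ (k : ℕ) (g : ℝ → ℝ → ℂ), Gi g →
    (∀ a θ, 1 < |a| → g a θ = 0) → ∀ (l L T : ℝ), 0 ≤ l → 0 ≤ L → 0 < T → ∀ B : Set ℝ,
    MeasurableSet B → (∀ t ∈ B, L ≤ |t| ∧ |t| ≤ T) →
    ∫⁻ t in B, (∫⁻ y, ∫⁻ x : ℝ × ℝ, ‖UU (fun a => HL (Ψ a) k) g l t y x‖ₑ ^ p) ≤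
      ENNReal.ofReal (C * dl k ^ ((4 - p) / 2 - (2 - e) / 4 * ((p - 2) / 2)) *
        (T ^ ((4 - p) / 2 + e * ((p - 2) / 2)) * (1 + l * L) ^ (-((2 - e) * ((p - 2) / 2))))) *
        ∫⁻ a, (∫⁻ θ, ‖g a θ‖ₑ ^ p ∂mu) := by
  obtain ⟨C4, hC4, h4⟩ := U4 he0 he1
  obtain ⟨Cm, hCm, hmc⟩ := Pool.Agent.H438R2.RZ.marc24 p hp2 hp4
  refine ⟨Cm * (36 * π) ^ ((4 - p) / 2) * C4 ^ ((p - 2) / 2), by positivity, ?_⟩
  intro Ψ hΨ k g hg hgs l L T hl hL hT B hBm hB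
  have hA := hk_adm hΨ k
  have hdk := dl_pos k
  have h1L : 0 < 1 + l * L := by positivity
  have hH : (fun a => HL (Ψ a) k) = HP (hk Ψ k) (bk k) := by
    ext1 a
    rw [HP_hk]
  set P : Measure (ℝ × ℝ × (ℝ × ℝ)) := (volume.restrict B).prod (volume.prod volume) with hP
  have hUm : ∀ {g' : ℝ → ℝ → ℂ}, Gi g' → Measurable fun z : ℝ × ℝ × (ℝ × ℝ) =>
      UU (fun a => HL (Ψ a) k) g' l z.1 z.2.1 z.2.2 := by
    intro g' hg'
    rw [hH]
    exact UU_meas hA hg'.meas l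
  have hP3 : ∀ {F : ℝ × ℝ × (ℝ × ℝ) → ℝ≥0∞}, Measurable F → ∫⁻ z, F z ∂P =
      ∫⁻ t in B, (∫⁻ y, ∫⁻ x : ℝ × ℝ, F (t, y, x)) := by
    intro F hF
    rw [hP, lintegral_prod _ hF.aemeasurable]
    congr 1
    ext t
    have : Measurable fun q : ℝ × (ℝ × ℝ) => F (t, q) := hF.comp (by fun_prop)
    rw [lintegral_prod _ this.aemeasurable]
  have hQ : ∀ {F : ℝ × ℝ → ℝ≥0∞}, Measurable F → ∫⁻ z, F z ∂(volume.prod mu) =
      ∫⁻ a, ∫⁻ θ, F (a, θ) ∂mu := fun hF => lintegral_prod _ hF.aemeasurable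
  have hgn : Measurable fun q : ℝ × ℝ => ‖g q.1 q.2‖ := hg.meas.norm
  have hmain := hmc (X := ℝ × ℝ) (Y := ℝ × ℝ × (ℝ × ℝ)) (volume.prod mu) P
    (fun z => ‖UU (fun a => HL (Ψ a) k) g l z.1 z.2.1 z.2.2‖) (fun q => ‖g q.1 q.2‖)
    (hUm hg).norm hgn (fun x => norm_nonneg _)
    (fun θ => norm_nonneg _) (36 * π * dl k * T)
    (C4 * dl k ^ (-((2 - e) / 4)) * T ^ e * (1 + l * L) ^ (-(2 - e))) (by positivity)
    (by positivity) (by
      intro τ hτ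
      set S : Set (ℝ × ℝ) := {q | τ < ‖g q.1 q.2‖} with hS
      have hSm : MeasurableSet S := measurableSet_lt measurable_const hgn
      set G : ℝ × ℝ → ℂ := fun q => g q.1 q.2 with hG
      set g1 : ℝ → ℝ → ℂ := fun a θ => S.indicator G (a, θ) with hg1
      set g2 : ℝ → ℝ → ℂ := fun a θ => Sᶜ.indicator G (a, θ) with hg2
      have hg1i : Gi g1 := ⟨hg.meas.indicator hSm, hg.int.indicator hSm⟩
      have hg2i : Gi g2 := ⟨hg.meas.indicator hSm.compl, hg.int.indicator hSm.compl⟩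
      have hsum : g = fun a θ => g1 a θ + g2 a θ := by
        ext a θ
        exact (congrFun (indicator_self_add_compl S G) (a, θ)).symm
      have hg2p : Gp τ g2 := by
        refine ⟨hg2i.meas, fun a θ => ?_, fun a θ ha => ?_⟩
        · by_cases hθ : (a, θ) ∈ S
          · rw [hg2]
            simp only
            rw [indicator_of_notMem (by simpa using hθ), norm_zero]
            exact hτ.le
          · rw [hg2]
            simp only
            rw [indicator_of_mem (by simpa using hθ)]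
            exact not_lt.1 hθ
        · rw [hg2]
          simp only
          by_cases hθ : (a, θ) ∈ Sᶜ
          · rw [indicator_of_mem hθ]
            exact hgs a θ ha
          · rw [indicator_of_notMem hθ]
      refine ⟨fun z => ‖UU (fun a => HL (Ψ a) k) g1 l z.1 z.2.1 z.2.2‖ₑ,
        fun z => ‖UU (fun a => HL (Ψ a) k) g2 l z.1 z.2.1 z.2.2‖ₑ,
        (hUm hg1i).enorm, (hUm hg2i).enorm, ae_of_all _ fun z => ?_, ?_, ?_⟩
      · rw [ofReal_norm]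
        have h1 : UU (fun a => HL (Ψ a) k) g l z.1 z.2.1 z.2.2 =
            UU (fun a => HL (Ψ a) k) g1 l z.1 z.2.1 z.2.2 +
            UU (fun a => HL (Ψ a) k) g2 l z.1 z.2.1 z.2.2 := by
          rw [hH]
          conv_lhs => rw [hsum]
          exact UU_add hA hg1i hg2i _ _ _ _
        rw [h1]
        exact enorm_add_le _ _
      · have hT2 : volume B ≤ ENNReal.ofReal (2 * T) := by
          have q1 : B ⊆ Icc (-T) T := fun t ht => abs_le.1 (hB t ht).2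
          refine (measure_mono q1).trans (le_of_eq ?_)
          rw [Real.volume_Icc]
          congr 1
          ring
        rw [hP3 ((hUm hg1i).enorm.pow_const 2)]
        have q2 : ∫⁻ a, (∫⁻ θ, ‖g1 a θ‖ₑ ^ 2 ∂mu) =
            ∫⁻ q in S, ENNReal.ofReal ‖g q.1 q.2‖ ^ 2 ∂(volume.prod mu) := by
          rw [← lintegral_indicator hSm, ← hQ (F := fun q => ‖g1 q.1 q.2‖ₑ ^ 2)
            (hg1i.meas.enorm.pow_const 2)]
          congr 1
          ext q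
          by_cases hq : q ∈ S
          · rw [hg1]
            simp only
            rw [indicator_of_mem hq, indicator_of_mem hq, ofReal_norm]
          · rw [hg1]
            simp only
            rw [indicator_of_notMem hq, indicator_of_notMem hq]
            simp
        rw [← q2]
        calc ∫⁻ t in B, (∫⁻ y, ∫⁻ x : ℝ × ℝ, ‖UU (fun a => HL (Ψ a) k) g1 l t y x‖ₑ ^ 2)
            ≤ ∫⁻ t in B, ENNReal.ofReal (18 * π * dl k) * ∫⁻ a, (∫⁻ θ, ‖g1 a θ‖ₑ ^ 2 ∂mu) :=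
              lintegral_mono fun t => U2 hΨ k hg1i l t
          _ = ENNReal.ofReal (18 * π * dl k) * (∫⁻ a, (∫⁻ θ, ‖g1 a θ‖ₑ ^ 2 ∂mu)) * volume B := by
              rw [setLIntegral_const]
          _ ≤ ENNReal.ofReal (18 * π * dl k) * (∫⁻ a, (∫⁻ θ, ‖g1 a θ‖ₑ ^ 2 ∂mu)) *
              ENNReal.ofReal (2 * T) := mul_le_mul' le_rfl hT2
          _ = _ := by
              rw [mul_right_comm, ← ENNReal.ofReal_mul (by positivity)]
              congr 2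
              ring
      · rw [hP3 ((hUm hg2i).enorm.pow_const 4)]
        refine (h4 Ψ hΨ k τ g2 hg2p l L T hl hL hT B hBm hB).trans (le_of_eq ?_)
        congr 1
        have e3 : {q : ℝ × ℝ | ‖g q.1 q.2‖ ≤ τ} = Sᶜ := by
          ext q
          simp [hS]
        rw [e3, ← lintegral_indicator hSm.compl]
        have m4 : Measurable fun q : ℝ × ℝ => ‖g2 q.2 q.1‖ₑ ^ 4 :=
          (hg2i.meas.comp measurable_swap).enorm.pow_const 4
        rw [lintegral_lintegral_swap m4.aemeasurable,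
          ← hQ (F := fun q => ‖g2 q.1 q.2‖ₑ ^ 4) (hg2i.meas.enorm.pow_const 4)]
        congr 1
        ext q
        by_cases hq : q ∈ Sᶜ
        · rw [hg2]
          simp only
          rw [indicator_of_mem hq, indicator_of_mem hq, ofReal_norm]
        · rw [hg2]
          simp only
          rw [indicator_of_notMem hq, indicator_of_notMem hq]
          simp)
  simp only [ofReal_norm] at hmain
  rw [hP3 ((hUm hg).enorm.pow_const p), hQ (hg.meas.enorm.pow_const p)] at hmain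
  refine hmain.trans (le_of_eq ?_)
  congr 2
  have a1 : (36 * π * dl k * T) ^ ((4 - p) / 2) =
      (36 * π) ^ ((4 - p) / 2) * dl k ^ ((4 - p) / 2) * T ^ ((4 - p) / 2) := by
    rw [Real.mul_rpow (by positivity) hT.le, Real.mul_rpow (by positivity) hdk.le]
  have a2 : (C4 * dl k ^ (-((2 - e) / 4)) * T ^ e * (1 + l * L) ^ (-(2 - e))) ^ ((p - 2) / 2) =
      C4 ^ ((p - 2) / 2) * dl k ^ (-((2 - e) / 4 * ((p - 2) / 2))) * T ^ (e * ((p - 2) / 2)) *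
        (1 + l * L) ^ (-((2 - e) * ((p - 2) / 2))) := by
    rw [Real.mul_rpow (by positivity) (by positivity), Real.mul_rpow (by positivity)
      (by positivity), Real.mul_rpow hC4.le (by positivity), ← Real.rpow_mul hdk.le,
      ← Real.rpow_mul hT.le, ← Real.rpow_mul h1L.le]
    congr 2
    · congr 2
      ring
    · ring
  have a3 : dl k ^ ((4 - p) / 2 - (2 - e) / 4 * ((p - 2) / 2)) =
      dl k ^ ((4 - p) / 2) * dl k ^ (-((2 - e) / 4 * ((p - 2) / 2))) := by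
    rw [← Real.rpow_add hdk]
    congr 1
  have a4 : T ^ ((4 - p) / 2 + e * ((p - 2) / 2)) = T ^ ((4 - p) / 2) * T ^ (e * ((p - 2) / 2)) :=
    Real.rpow_add hT _ _
  rw [a1, a2, a3, a4]
  ring

end Pool.Agent.R245.PC
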