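import Mathlib
import Pool.Agent.R245.PC.C4
set_option autoImplicit false

/-! Summation over the Littlewood Paley pieces and over the blocks of times. -/

namespace Pool.Agent.R245.PC

open Pool.Agent.R245.PB MeasureTheory Set Complex Filter Real
open scoped ENNReal Topology

lemma pfl_le {Ψ : ℝ → ℝ → ℂ} (h : Pr Ψ) (g : ℝ → ℂ) :
    ∫⁻ θ, (∫⁻ s in Ioi (0:ℝ), ‖pfl Ψ g θ s‖ₑ) ∂mu ≤ ∫⁻ θ, ‖g θ‖ₑ ∂mu := by
  refine lintegral_mono fun θ => ?_
  have h1 : ∫⁻ s in Ioi (0:ℝ), ‖Ψ θ s‖ₑ ≤ 1 := by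
    calc ∫⁻ s in Ioi (0:ℝ), ‖Ψ θ s‖ₑ ≤ ∫⁻ s, ‖Ψ θ s‖ₑ := setLIntegral_le_lintegral _ _
      _ = ∫⁻ s in Icc (0:ℝ) 1, ‖Ψ θ s‖ₑ := by
          rw [← lintegral_indicator measurableSet_Icc]
          congr 1
          ext s
          by_cases hs : s ∈ Icc (0:ℝ) 1
          · rw [indicator_of_mem hs]
          · rw [indicator_of_notMem hs, h.supp θ s hs, enorm_zero]
      _ ≤ ∫⁻ s in Icc (0:ℝ) 1, 1 := by
          apply lintegral_mono
          intro s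
          simp only
          rw [← ofReal_norm, ENNReal.ofReal_le_one]
          exact h.le θ s
      _ = 1 := by simp
  calc ∫⁻ s in Ioi (0:ℝ), ‖pfl Ψ g θ s‖ₑ ≤ ∫⁻ s in Ioi (0:ℝ), ‖g θ‖ₑ * ‖Ψ θ s‖ₑ := by
        apply setLIntegral_mono' measurableSet_Ioi
        intro s hs
        unfold pfl
        rw [enorm_mul, enorm_mul]
        refine mul_le_mul' le_rfl ?_
        calc ‖cexp (-π * s)‖ₑ * ‖Ψ θ s‖ₑ ≤ 1 * ‖Ψ θ s‖ₑ := mul_le_mul' (exp_le' hs) le_rfl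
          _ = _ := one_mul _
    _ = ‖g θ‖ₑ * ∫⁻ s in Ioi (0:ℝ), ‖Ψ θ s‖ₑ := lintegral_const_mul' _ _ enorm_ne_top
    _ ≤ ‖g θ‖ₑ * 1 := mul_le_mul' le_rfl h1
    _ = _ := mul_one _

lemma LPerr {Ψ : ℝ → ℝ → ℂ} (h : Pr Ψ) {g : ℝ → ℂ} (hg : Measurable g) (hgI : Integrable g mu)
    (n : ℕ) (t : ℝ) (x : ℝ × ℝ) :
    ‖TT (pfl Ψ g) t x - ∑ k ∈ Finset.range (n + 1), TT (prof (HL Ψ k) g) t x‖ₑ ≤
      (∫⁻ θ, ‖g θ‖ₑ ∂mu) * ENNReal.ofReal (dl n) := by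
  have hg1 : ∫⁻ θ, ‖g θ‖ₑ ∂mu < ⊤ := hgI.hasFiniteIntegral
  have hmp := pfl_meas h hg
  have hms := prof_meas (HS_adm h n) hg
  have hAp := pfl_A h hg1
  have hAs := prof_A (HS_adm h n) hg1
  rw [HL_sum h hgI, TT_sub hmp hms hAp hAs t x]
  refine (TT_sup t x (hmp.sub hms)).trans ?_
  rw [← lintegral_mul_const' _ _ ENNReal.ofReal_ne_top]
  apply lintegral_mono
  intro θ
  simp only
  calc ∫⁻ s in Ioi (0:ℝ), ‖pfl Ψ g θ s - prof (HS Ψ n) g θ s‖ₑ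
      ≤ ∫⁻ s in Ioi (0:ℝ), ‖g θ‖ₑ * ‖Ψ θ s - IF (HS Ψ n) θ s‖ₑ := by
        apply setLIntegral_mono' measurableSet_Ioi
        intro s hs
        unfold pfl prof
        rw [← mul_sub, ← mul_sub, enorm_mul, enorm_mul]
        refine mul_le_mul' le_rfl ?_
        calc ‖cexp (-π * s)‖ₑ * ‖Ψ θ s - IF (HS Ψ n) θ s‖ₑ ≤
            1 * ‖Ψ θ s - IF (HS Ψ n) θ s‖ₑ := mul_le_mul' (exp_le' hs) le_rfl
          _ = _ := one_mul _
    _ ≤ ∫⁻ s, ‖g θ‖ₑ * ‖Ψ θ s - IF (HS Ψ n) θ s‖ₑ := setLIntegral_le_lintegral _ _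
    _ = ‖g θ‖ₑ * ∫⁻ s, ‖Ψ θ s - IF (HS Ψ n) θ s‖ₑ := lintegral_const_mul' _ _ enorm_ne_top
    _ ≤ ‖g θ‖ₑ * ENNReal.ofReal (dl n) := mul_le_mul' le_rfl (HS_err h n θ)

variable {Ψ : ℝ → ℝ → ℝ → ℂ} {g : ℝ → ℝ → ℂ}

/-- parametrised version of the odd part -/
noncomputable def UP (Ψ : ℝ → ℝ → ℝ → ℂ) (g : ℝ → ℝ → ℂ) (l t y : ℝ) (x : ℝ × ℝ) : ℂ :=
  E1 (fun a => TT (pfl (Ψ a) (g a)) (l * t) x) t y

lemma TT_jm {X : Type*} [MeasurableSpace X] {Φ : X → ℝ → ℝ → ℂ} {t : X → ℝ} {x : X → ℝ × ℝ}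
    (hΦ : Measurable fun q : X × ℝ × ℝ => Φ q.1 q.2.1 q.2.2) (ht : Measurable t)
    (hx : Measurable x) : Measurable fun p : X => TT (Φ p) (t p) (x p) := by
  unfold TT
  have h1 : Measurable fun q : (X × ℝ) × ℝ => (q.2 : ℂ) * Φ q.1.1 q.1.2 (q.2 ^ 2) *
      ec (q.2 * ip (x q.1.1) q.1.2 + q.2 ^ 2 * t q.1.1) := by
    have mx : Measurable fun q : (X × ℝ) × ℝ => x q.1.1 :=
      hx.comp (measurable_fst.comp measurable_fst)
    have mt : Measurable fun q : (X × ℝ) × ℝ => t q.1.1 :=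
      ht.comp (measurable_fst.comp measurable_fst)
    have m2 : Measurable fun q : (X × ℝ) × ℝ => q.1.2 := measurable_snd.comp measurable_fst
    have mi : Measurable fun q : (X × ℝ) × ℝ => ip (x q.1.1) q.1.2 :=
      ip_cont.measurable.comp (mx.prodMk m2)
    refine Measurable.mul (Measurable.mul ?_ ?_) (ec_meas.comp ?_)
    · exact Complex.measurable_ofReal.comp measurable_snd
    · exact hΦ.comp ((measurable_fst.comp measurable_fst).prodMk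
        (m2.prodMk (measurable_snd.pow_const 2)))
    · exact (measurable_snd.mul mi).add ((measurable_snd.pow_const 2).mul mt)
  have h2 : Measurable fun p : X × ℝ => ∫ r : ℝ, (r : ℂ) * Φ p.1 p.2 (r ^ 2) *
      ec (r * ip (x p.1) p.2 + r ^ 2 * t p.1) :=
    (h1.stronglyMeasurable.integral_prod_right' (ν := (volume : Measure ℝ))).measurable
  exact (h2.stronglyMeasurable.integral_prod_right' (ν := mu)).measurable

lemma pflP_meas (h : PrP Ψ) (hg : Measurable fun p : ℝ × ℝ => g p.1 p.2) :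
    Measurable fun q : ℝ × ℝ × ℝ => pfl (Ψ q.1) (g q.1) q.2.1 q.2.2 := by
  unfold pfl
  refine (hg.comp (f := fun q : ℝ × ℝ × ℝ => (q.1, q.2.1)) (by fun_prop)).mul
    (Measurable.mul ?_ h.meas)
  apply Continuous.measurable
  fun_prop

lemma YP_meas (h : PrP Ψ) (hg : Measurable fun p : ℝ × ℝ => g p.1 p.2) :
    Measurable fun p : ℝ × ℝ × (ℝ × ℝ) => TT (pfl (Ψ p.1) (g p.1)) p.2.1 p.2.2 :=
  TT_jm (X := ℝ × ℝ × (ℝ × ℝ)) (Φ := fun p => pfl (Ψ p.1) (g p.1))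
    ((pflP_meas h hg).comp (f := fun q : (ℝ × ℝ × (ℝ × ℝ)) × ℝ × ℝ => (q.1.1, q.2.1, q.2.2))
      (by fun_prop)) (by fun_prop) (by fun_prop)

lemma YP_int (h : PrP Ψ) (hg : Gi g) (τ : ℝ) (x : ℝ × ℝ) :
    Integrable fun a => TT (pfl (Ψ a) (g a)) τ x := by
  have hm : Measurable fun a => TT (pfl (Ψ a) (g a)) τ x :=
    (YP_meas h hg.meas).comp (f := fun a : ℝ => (a, τ, x)) (by fun_prop)
  refine ⟨hm.aestronglyMeasurable, ?_⟩
  refine lt_of_le_of_lt (lintegral_mono fun a => ?_) hg.one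
  exact (TT_sup τ x (pfl_meas (h.pr a) (hg.sec a))).trans (pfl_le (h.pr a) (g a))

lemma E1_sub {G1 G2 : ℝ → ℂ} (h1 : Integrable G1) (h2 : Integrable G2) (t y : ℝ) :
    E1 (fun a => G1 a - G2 a) t y = E1 G1 t y - E1 G2 t y := by
  have hi : ∀ {G : ℝ → ℂ}, Integrable G → Integrable fun a => G a * ec (a * y + a ^ 2 * t) := by
    intro G hG
    exact hG.mul_bdd (c := 1) (ec_meas.comp (by fun_prop)).aestronglyMeasurable
      (ae_of_all _ fun s => (ec_norm _).le)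
  unfold E1
  rw [← integral_sub (hi h1) (hi h2)]
  congr 1
  ext a
  ring

lemma E1_sum {n : ℕ} {G : ℕ → ℝ → ℂ} (h1 : ∀ k, Integrable (G k)) (t y : ℝ) :
    E1 (fun a => ∑ k ∈ Finset.range n, G k a) t y = ∑ k ∈ Finset.range n, E1 (G k) t y := by
  have hi : ∀ {G : ℝ → ℂ}, Integrable G → Integrable fun a => G a * ec (a * y + a ^ 2 * t) := by
    intro G hG
    exact hG.mul_bdd (c := 1) (ec_meas.comp (by fun_prop)).aestronglyMeasurable
      (ae_of_all _ fun s => (ec_norm _).le)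
  unfold E1
  rw [← integral_finsetSum _ fun k _ => hi (h1 k)]
  congr 1
  ext a
  rw [Finset.sum_mul]

lemma E1_le {G : ℝ → ℂ} (t y : ℝ) : ‖E1 G t y‖ₑ ≤ ∫⁻ a, ‖G a‖ₑ := by
  unfold E1
  refine (enorm_integral_le_lintegral_enorm _).trans (le_of_eq ?_)
  congr 1
  ext a
  rw [enorm_mul, ← ofReal_norm (ec _), ec_norm, ENNReal.ofReal_one, mul_one]

/-- the Littlewood Paley series with a parameter -/
theorem LPP (h : PrP Ψ) (hg : Gi g) (l t y : ℝ) (x : ℝ × ℝ) :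
    ‖UP Ψ g l t y x‖ₑ ≤ ∑' k, ‖UU (fun a => HL (Ψ a) k) g l t y x‖ₑ := by
  set Z := ∫⁻ a, (∫⁻ θ, ‖g a θ‖ₑ ∂mu) with hZ
  have hZt : Z < ⊤ := hg.one
  have hYk : ∀ k, Integrable fun a => TT (prof (HL (Ψ a) k) (g a)) (l * t) x := by
    intro k
    have := Y_int (hk_adm h k) hg (l * t) x
    simpa only [HP_hk] using this
  have key : ∀ n : ℕ, ‖UP Ψ g l t y x‖ₑ ≤ (∑' k, ‖UU (fun a => HL (Ψ a) k) g l t y x‖ₑ) +
      Z * ENNReal.ofReal (dl n) := by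
    intro n
    have hsI : Integrable fun a => ∑ k ∈ Finset.range (n + 1),
        TT (prof (HL (Ψ a) k) (g a)) (l * t) x := integrable_finsetSum _ fun k _ => hYk k
    have h1 : ‖E1 (fun a => TT (pfl (Ψ a) (g a)) (l * t) x - ∑ k ∈ Finset.range (n + 1),
        TT (prof (HL (Ψ a) k) (g a)) (l * t) x) t y‖ₑ ≤ Z * ENNReal.ofReal (dl n) := by
      refine (E1_le t y).trans ?_
      rw [hZ, ← lintegral_mul_const' _ _ ENNReal.ofReal_ne_top]
      apply lintegral_mono_ae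
      filter_upwards [hg.ae] with a ha
      exact LPerr (h.pr a) (hg.sec a) ha n _ x
    rw [E1_sub (YP_int h hg _ x) hsI, E1_sum hYk] at h1
    have h2 : ‖∑ k ∈ Finset.range (n + 1), E1 (fun a => TT (prof (HL (Ψ a) k) (g a)) (l * t) x) t
        y‖ₑ ≤ ∑' k, ‖UU (fun a => HL (Ψ a) k) g l t y x‖ₑ :=
      (enorm_sum_le _ _).trans (ENNReal.sum_le_tsum _)
    calc ‖UP Ψ g l t y x‖ₑ = ‖(∑ k ∈ Finset.range (n + 1),
          E1 (fun a => TT (prof (HL (Ψ a) k) (g a)) (l * t) x) t y) +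
          (E1 (fun a => TT (pfl (Ψ a) (g a)) (l * t) x) t y - ∑ k ∈ Finset.range (n + 1),
            E1 (fun a => TT (prof (HL (Ψ a) k) (g a)) (l * t) x) t y)‖ₑ := by
          congr 1
          unfold UP
          ring
      _ ≤ _ := (enorm_add_le _ _).trans (add_le_add h2 h1)
  have hlim : Tendsto (fun n : ℕ => (∑' k, ‖UU (fun a => HL (Ψ a) k) g l t y x‖ₑ) +
      Z * ENNReal.ofReal (dl n)) atTop
      (𝓝 ((∑' k, ‖UU (fun a => HL (Ψ a) k) g l t y x‖ₑ) + Z * ENNReal.ofReal 0)) := by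
    apply Tendsto.const_add
    apply ENNReal.Tendsto.const_mul
    · apply ENNReal.tendsto_ofReal
      exact tendsto_pow_atTop_nhds_zero_of_lt_one (by norm_num) (by norm_num)
    · exact Or.inr hZt.ne
  have := ge_of_tendsto' hlim key
  simpa using this

lemma UP_meas (h : PrP Ψ) (hg : Measurable fun p : ℝ × ℝ => g p.1 p.2) (l : ℝ) :
    Measurable fun p : ℝ × ℝ × (ℝ × ℝ) => UP Ψ g l p.1 p.2.1 p.2.2 := by
  unfold UP
  refine E1_jm (X := ℝ × ℝ × (ℝ × ℝ)) (G := fun p a => TT (pfl (Ψ a) (g a)) (l * p.1) p.2.2)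
    ?_ (by fun_prop) (by fun_prop)
  exact (YP_meas h hg).comp (f := fun q : (ℝ × ℝ × (ℝ × ℝ)) × ℝ => (q.2, l * q.1.1, q.1.2.2))
    (by fun_prop)

/-- the estimate on a block of times -/
theorem Ub {e : ℝ} (he0 : 0 < e) (he1 : e < 1) {p : ℝ} (hp2 : 2 < p) (hp4 : p < 4)
    (hγ : 0 < (4 - p) / 2 - (2 - e) / 4 * ((p - 2) / 2)) :
    ∃ C : ℝ, 0 < C ∧ ∀ (Ψ : ℝ → ℝ → ℝ → ℂ), PrP Ψ → ∀ (g : ℝ → ℝ → ℂ), Gi g →
    (∀ a θ, 1 < |a| → g a θ = 0) → ∀ (l L T : ℝ), 0 ≤ l → 0 ≤ L → 0 < T → ∀ B : Set ℝ,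
    MeasurableSet B → (∀ t ∈ B, L ≤ |t| ∧ |t| ≤ T) →
    ∫⁻ t in B, (∫⁻ y, ∫⁻ x : ℝ × ℝ, ‖UP Ψ g l t y x‖ₑ ^ p) ≤
      ENNReal.ofReal (C * (T ^ ((4 - p) / 2 + e * ((p - 2) / 2)) *
        (1 + l * L) ^ (-((2 - e) * ((p - 2) / 2))))) *
        ∫⁻ a, (∫⁻ θ, ‖g a θ‖ₑ ^ p ∂mu) := by
  obtain ⟨C, hC, hP⟩ := Up he0 he1 hp2 hp4
  have hp0 : 0 < p := by linarith
  set γ0 : ℝ := (4 - p) / 2 - (2 - e) / 4 * ((p - 2) / 2) with hγ0
  set γ : ℝ := γ0 / p with hγd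
  have hγ0' : 0 < γ := div_pos hγ hp0
  set ρ : ℝ := (1 / 2 : ℝ) ^ γ with hρ
  have hρ0 : 0 < ρ := by positivity
  have hρ1 : ρ < 1 := Real.rpow_lt_one (by norm_num) (by norm_num) hγ0'
  have h1ρ : 0 < 1 - ρ := by linarith
  refine ⟨C * ((1 - ρ)⁻¹) ^ p, by positivity, ?_⟩
  intro Ψ hΨ g hg hgs l L T hl hL hT B hBm hB
  have h1L : 0 < 1 + l * L := by positivity
  set Z := ∫⁻ a, (∫⁻ θ, ‖g a θ‖ₑ ^ p ∂mu) with hZ
  set w : ℝ := T ^ ((4 - p) / 2 + e * ((p - 2) / 2)) * (1 + l * L) ^ (-((2 - e) * ((p - 2) / 2)))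
    with hw
  have hw0 : 0 < w := by positivity
  set P : Measure (ℝ × ℝ × (ℝ × ℝ)) := (volume.restrict B).prod (volume.prod volume) with hPd
  have hP3 : ∀ {F : ℝ × ℝ × (ℝ × ℝ) → ℝ≥0∞}, Measurable F → ∫⁻ z, F z ∂P =
      ∫⁻ t in B, (∫⁻ y, ∫⁻ x : ℝ × ℝ, F (t, y, x)) := by
    intro F hF
    rw [hPd, lintegral_prod _ hF.aemeasurable]
    congr 1
    ext t
    have : Measurable fun q : ℝ × (ℝ × ℝ) => F (t, q) := hF.comp (by fun_prop)
    rw [lintegral_prod _ this.aemeasurable]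
  have hUm : ∀ k, Measurable fun z : ℝ × ℝ × (ℝ × ℝ) =>
      ‖UU (fun a => HL (Ψ a) k) g l z.1 z.2.1 z.2.2‖ₑ := by
    intro k
    have := UU_meas (hk_adm hΨ k) hg.meas l
    have hH : (fun a => HL (Ψ a) k) = HP (hk Ψ k) (bk k) := by
      ext1 a
      rw [HP_hk]
    rw [hH]
    exact this.enorm
  have hk : ∀ k, (∫⁻ z, ‖UU (fun a => HL (Ψ a) k) g l z.1 z.2.1 z.2.2‖ₑ ^ p ∂P) ^ (1 / p) ≤
      (ENNReal.ofReal (C * w) * Z) ^ (1 / p) * ENNReal.ofReal (ρ ^ k) := by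
    intro k
    have h1 := hP Ψ hΨ k g hg hgs l L T hl hL hT B hBm hB
    rw [← hZ, ← hw] at h1
    rw [hP3 ((hUm k).pow_const p)]
    refine (ENNReal.rpow_le_rpow h1 (by positivity)).trans (le_of_eq ?_)
    have hdk := dl_pos k
    have e1 : C * dl k ^ γ0 * w = (C * w) * (ρ ^ k) ^ p := by
      have e2 : (ρ ^ k) ^ p = dl k ^ γ0 := by
        rw [hρ, ← Real.rpow_natCast, ← Real.rpow_mul (by positivity), ← Real.rpow_mul (by positivity)]
        unfold dl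
        rw [← Real.rpow_natCast, ← Real.rpow_mul (by norm_num)]
        congr 1
        rw [hγd]
        field_simp
      rw [e2]
      ring
    rw [e1, ENNReal.ofReal_mul (by positivity), mul_right_comm,
      ENNReal.mul_rpow_of_nonneg _ _ (by positivity)]
    congr 1
    rw [← ENNReal.ofReal_rpow_of_nonneg (by positivity) hp0.le, ← ENNReal.rpow_mul,
      mul_one_div_cancel hp0.ne', ENNReal.rpow_one]
  have hsum : ∑' k : ℕ, ENNReal.ofReal (ρ ^ k) = ENNReal.ofReal ((1 - ρ)⁻¹) := by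
    rw [← ENNReal.ofReal_tsum_of_nonneg (fun k => by positivity)
      (summable_geometric_of_lt_one hρ0.le hρ1), tsum_geometric_of_lt_one hρ0.le hρ1]
  rw [← hP3 (F := fun z => ‖UP Ψ g l z.1 z.2.1 z.2.2‖ₑ ^ p)
    ((UP_meas hΨ hg.meas l).enorm.pow_const p)]
  calc ∫⁻ z, ‖UP Ψ g l z.1 z.2.1 z.2.2‖ₑ ^ p ∂P
      ≤ ∫⁻ z, (∑' k, ‖UU (fun a => HL (Ψ a) k) g l z.1 z.2.1 z.2.2‖ₑ) ^ p ∂P := by
        apply lintegral_mono
        intro z
        exact ENNReal.rpow_le_rpow (LPP hΨ hg _ _ _ _) hp0.le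
    _ ≤ (∑' k, (∫⁻ z, ‖UU (fun a => HL (Ψ a) k) g l z.1 z.2.1 z.2.2‖ₑ ^ p ∂P) ^ (1 / p)) ^ p :=
        Pool.Agent.TH335.RF.mink P p (by linarith) _ hUm
    _ ≤ (∑' k : ℕ, (ENNReal.ofReal (C * w) * Z) ^ (1 / p) * ENNReal.ofReal (ρ ^ k)) ^ p :=
        ENNReal.rpow_le_rpow (ENNReal.tsum_le_tsum hk) hp0.le
    _ = _ := by
        rw [ENNReal.tsum_mul_left, hsum, ENNReal.mul_rpow_of_nonneg _ _ hp0.le, ← ENNReal.rpow_mul,
          one_div_mul_cancel hp0.ne', ENNReal.rpow_one,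
          ENNReal.ofReal_rpow_of_nonneg (by positivity) hp0.le, mul_right_comm,
          ← ENNReal.ofReal_mul (by positivity)]
        congr 2
        ring

/-- lower ends of the blocks -/
noncomputable def Lb : ℕ → ℝ
  | 0 => 0
  | (n + 1) => 2 ^ n

/-- the blocks -/
def Bb (n : ℕ) : Set ℝ := {t | Lb n ≤ |t| ∧ |t| ≤ 2 ^ n}

lemma Bb_meas (n : ℕ) : MeasurableSet (Bb n) :=
  (measurableSet_le measurable_const measurable_norm).inter
    (measurableSet_le measurable_norm measurable_const)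

lemma Bb_cover : ⋃ n, Bb n = univ := by
  rw [eq_univ_iff_forall]
  intro t
  rw [mem_iUnion]
  by_cases h : |t| ≤ 1
  · exact ⟨0, abs_nonneg t, by simpa using h⟩
  · push Not at h
    obtain ⟨n, h1, h2⟩ := exists_nat_pow_near h.le (by norm_num : (1:ℝ) < 2)
    exact ⟨n + 1, h1, h2.le⟩

lemma Lb_nonneg (n : ℕ) : 0 ≤ Lb n := by
  cases n with
  | zero => exact le_rfl
  | succ n => exact (by positivity : (0:ℝ) ≤ 2 ^ n)

lemma Lb_two (n : ℕ) : (2:ℝ) ^ n ≤ 2 * (1 + Lb n) := by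
  cases n with
  | zero =>
    simp only [Lb]
    norm_num
  | succ n =>
    simp only [Lb]
    rw [pow_succ]
    linarith

/-- all times, with a weight -/
theorem Uall {p m : ℝ} (hp2 : 2 < p) (hp : p < 10 / 3) (hm : 0 ≤ m)
    (hs : (4 - p) / 2 < (p - 2) + m) : ∃ e : ℝ, 0 < e ∧ e < 1 ∧ ∃ C : ℝ, 0 < C ∧
    ∀ (Ψ : ℝ → ℝ → ℝ → ℂ), PrP Ψ → ∀ (g : ℝ → ℝ → ℂ), Gi g → (∀ a θ, 1 < |a| → g a θ = 0) →
    ∀ (l κ : ℝ), 0 < κ → κ ≤ 1 → κ ≤ l →
    ∫⁻ t, ENNReal.ofReal ((1 + |t|) ^ (-m)) * (∫⁻ y, ∫⁻ x : ℝ × ℝ, ‖UP Ψ g l t y x‖ₑ ^ p) ≤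
      ENNReal.ofReal (C * κ ^ (-((2 - e) * ((p - 2) / 2)))) *
        ∫⁻ a, (∫⁻ θ, ‖g a θ‖ₑ ^ p ∂mu) := by
  have hp4 : p < 4 := by linarith
  have hp2' : 0 < p - 2 := by linarith
  set Δ : ℝ := (p - 2) + m - (4 - p) / 2 with hΔ
  have hΔ0 : 0 < Δ := by rw [hΔ]; linarith
  set e : ℝ := min (1 / 2) (Δ / (2 * (p - 2))) with he
  have he0 : 0 < e := lt_min (by norm_num) (by positivity)
  have he1 : e < 1 := lt_of_le_of_lt (min_le_left _ _) (by norm_num)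
  have heΔ : e * (p - 2) ≤ Δ / 2 := by
    have h1 : e ≤ Δ / (2 * (p - 2)) := min_le_right _ _
    calc e * (p - 2) ≤ Δ / (2 * (p - 2)) * (p - 2) := mul_le_mul_of_nonneg_right h1 hp2'.le
      _ = Δ / 2 := by field_simp
  have hγ : 0 < (4 - p) / 2 - (2 - e) / 4 * ((p - 2) / 2) := by nlinarith
  obtain ⟨C, hC, hU⟩ := Ub he0 he1 hp2 hp4 hγ
  set s : ℝ := (2 - e) * ((p - 2) / 2) with hsd
  have hs0 : 0 < s := by
    rw [hsd]
    have : 0 < 2 - e := by linarith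
    positivity
  set c : ℝ := (4 - p) / 2 + e * ((p - 2) / 2) with hc
  have hc0 : 0 < c := by
    rw [hc]
    have : 0 < 4 - p := by linarith
    positivity
  set σ : ℝ := s + m - c with hσ
  have hσ0 : 0 < σ := by
    have : σ = Δ - e * (p - 2) := by
      rw [hσ, hsd, hc, hΔ]
      ring
    rw [this]
    linarith
  set q : ℝ := (2:ℝ) ^ (-σ) with hq
  have hq0 : 0 < q := by positivity
  have hq1 : q < 1 := Real.rpow_lt_one_of_one_lt_of_neg (by norm_num) (by linarith)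
  have h1q : 0 < 1 - q := by linarith
  refine ⟨e, he0, he1, C * 2 ^ c * 2 ^ σ * (1 - q)⁻¹, by positivity, ?_⟩
  intro Ψ hΨ g hg hgs l κ hκ hκ1 hκl
  set Z := ∫⁻ a, (∫⁻ θ, ‖g a θ‖ₑ ^ p ∂mu) with hZ
  have hl0 : 0 ≤ l := hκ.le.trans hκl
  have hblk : ∀ n : ℕ, ∫⁻ t in Bb n, ENNReal.ofReal ((1 + |t|) ^ (-m)) *
      (∫⁻ y, ∫⁻ x : ℝ × ℝ, ‖UP Ψ g l t y x‖ₑ ^ p) ≤
      ENNReal.ofReal (C * 2 ^ c * 2 ^ σ * κ ^ (-s)) * Z * ENNReal.ofReal (q ^ n) := by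
    intro n
    have hL := Lb_nonneg n
    have h1L : 0 < 1 + Lb n := by linarith
    have h1 := hU Ψ hΨ g hg hgs l (Lb n) (2 ^ n) hl0 hL (by positivity) (Bb n) (Bb_meas n)
      (fun t ht => ht)
    rw [← hZ] at h1
    calc ∫⁻ t in Bb n, ENNReal.ofReal ((1 + |t|) ^ (-m)) *
          (∫⁻ y, ∫⁻ x : ℝ × ℝ, ‖UP Ψ g l t y x‖ₑ ^ p)
        ≤ ∫⁻ t in Bb n, ENNReal.ofReal ((1 + Lb n) ^ (-m)) *
          (∫⁻ y, ∫⁻ x : ℝ × ℝ, ‖UP Ψ g l t y x‖ₑ ^ p) := by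
          apply setLIntegral_mono' (Bb_meas n)
          intro t ht
          refine mul_le_mul' (ENNReal.ofReal_le_ofReal ?_) le_rfl
          apply Real.rpow_le_rpow_of_nonpos h1L _ (by linarith)
          linarith [ht.1]
      _ = ENNReal.ofReal ((1 + Lb n) ^ (-m)) *
          ∫⁻ t in Bb n, (∫⁻ y, ∫⁻ x : ℝ × ℝ, ‖UP Ψ g l t y x‖ₑ ^ p) :=
          lintegral_const_mul' _ _ ENNReal.ofReal_ne_top
      _ ≤ ENNReal.ofReal ((1 + Lb n) ^ (-m)) *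
          (ENNReal.ofReal (C * ((2 ^ n) ^ c * (1 + l * Lb n) ^ (-s))) * Z) :=
          mul_le_mul' le_rfl h1
      _ ≤ _ := by
          rw [← mul_assoc, ← ENNReal.ofReal_mul (by positivity), mul_right_comm,
            ← ENNReal.ofReal_mul (by positivity)]
          refine mul_le_mul' (ENNReal.ofReal_le_ofReal ?_) le_rfl
          have a1 : ((2:ℝ) ^ n) ^ c ≤ 2 ^ c * (1 + Lb n) ^ c := by
            rw [← Real.mul_rpow (by norm_num) h1L.le]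
            exact Real.rpow_le_rpow (by positivity) (Lb_two n) hc0.le
          have a2 : (1 + l * Lb n) ^ (-s) ≤ κ ^ (-s) * (1 + Lb n) ^ (-s) := by
            rw [← Real.mul_rpow hκ.le h1L.le]
            apply Real.rpow_le_rpow_of_nonpos (by positivity) _ (by linarith)
            have := mul_le_mul_of_nonneg_right hκl hL
            linarith
          have a3 : (1 + Lb n) ^ (-m) * ((1 + Lb n) ^ c * (1 + Lb n) ^ (-s)) =
              (1 + Lb n) ^ (-σ) := by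
            rw [← Real.rpow_add h1L, ← Real.rpow_add h1L]
            congr 1
            rw [hσ]
            ring
          have a4 : (1 + Lb n) ^ (-σ) ≤ 2 ^ σ * q ^ n := by
            have hqn : q ^ n = (2:ℝ) ^ (-σ * n) := by
              rw [hq, ← Real.rpow_natCast, ← Real.rpow_mul (by norm_num)]
            rw [hqn, ← Real.rpow_add (by norm_num)]
            cases n with
            | zero =>
              simp only [Lb]
              rw [add_zero, Real.one_rpow]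
              apply Real.one_le_rpow (by norm_num)
              push_cast
              linarith
            | succ n =>
              simp only [Lb]
              have : (2:ℝ) ^ (σ + -σ * ((n + 1 : ℕ) : ℝ)) = ((2:ℝ) ^ n) ^ (-σ) := by
                rw [← Real.rpow_natCast, ← Real.rpow_mul (by norm_num)]
                congr 1
                push_cast
                ring
              rw [this]
              apply Real.rpow_le_rpow_of_nonpos (by positivity) _ (by linarith)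
              linarith
          calc (1 + Lb n) ^ (-m) * (C * ((2 ^ n) ^ c * (1 + l * Lb n) ^ (-s)))
              ≤ (1 + Lb n) ^ (-m) * (C * ((2 ^ c * (1 + Lb n) ^ c) *
                (κ ^ (-s) * (1 + Lb n) ^ (-s)))) := by
                refine mul_le_mul_of_nonneg_left ?_ (by positivity)
                refine mul_le_mul_of_nonneg_left ?_ hC.le
                exact mul_le_mul a1 a2 (by positivity) (by positivity)
            _ = C * 2 ^ c * κ ^ (-s) *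
                ((1 + Lb n) ^ (-m) * ((1 + Lb n) ^ c * (1 + Lb n) ^ (-s))) := by ring
            _ ≤ C * 2 ^ c * κ ^ (-s) * (2 ^ σ * q ^ n) := by
                rw [a3]
                exact mul_le_mul_of_nonneg_left a4 (by positivity)
            _ = _ := by ring
  have hsum : ∑' k : ℕ, ENNReal.ofReal (q ^ k) = ENNReal.ofReal ((1 - q)⁻¹) := by
    rw [← ENNReal.ofReal_tsum_of_nonneg (fun k => by positivity)
      (summable_geometric_of_lt_one hq0.le hq1), tsum_geometric_of_lt_one hq0.le hq1]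
  calc ∫⁻ t, ENNReal.ofReal ((1 + |t|) ^ (-m)) * (∫⁻ y, ∫⁻ x : ℝ × ℝ, ‖UP Ψ g l t y x‖ₑ ^ p)
      = ∫⁻ t in ⋃ n, Bb n, ENNReal.ofReal ((1 + |t|) ^ (-m)) *
        (∫⁻ y, ∫⁻ x : ℝ × ℝ, ‖UP Ψ g l t y x‖ₑ ^ p) := by
        rw [Bb_cover, setLIntegral_univ]
    _ ≤ ∑' n, ∫⁻ t in Bb n, ENNReal.ofReal ((1 + |t|) ^ (-m)) *
        (∫⁻ y, ∫⁻ x : ℝ × ℝ, ‖UP Ψ g l t y x‖ₑ ^ p) := lintegral_iUnion_le _ _
    _ ≤ ∑' n : ℕ, ENNReal.ofReal (C * 2 ^ c * 2 ^ σ * κ ^ (-s)) * Z * ENNReal.ofReal (q ^ n) :=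
        ENNReal.tsum_le_tsum hblk
    _ = _ := by
        rw [ENNReal.tsum_mul_left, hsum, mul_right_comm, ← ENNReal.ofReal_mul (by positivity)]
        congr 2
        ring

end Pool.Agent.R245.PC
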