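import Mathlib
import Pool.Agent.R245.PC.C5
set_option autoImplicit false

/-! The estimate on an annulus with a rough parameter. -/

namespace Pool.Agent.R245.PC

open Pool.Agent.R245.PB MeasureTheory Set Complex Filter Real
open scoped ENNReal Topology

/-- the decomposition of a function on the annulus into odd parts -/
lemma dec5 {F : ℝ → ℝ → ℂ} {V : ℝ → ℝ} (h : Ray F V) (hV : Integrable V mu) (t : ℝ) (x : ℝ × ℝ) :
    (2 : ℂ) * Ext (pf (fA F)) t x = TT (Pw kk1 (fun _ => 1) F) t x +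
      (∫ y : ℝ × ℝ, ps (1, 0) y * TT (Pw kk2 Real.cos F) t (x - y)) +
      ∫ y : ℝ × ℝ, ps (0, 1) y * TT (Pw kk2 Real.sin F) t (x - y) := by
  obtain ⟨K1, hK1, hk1⟩ := kk1_BM
  obtain ⟨K2, hK2, hk2⟩ := kk2_BM
  have hone : ∀ θ : ℝ, |(fun _ => (1:ℝ)) θ| ≤ 1 := fun θ => by simp
  have hA1 := Pw_A h hV hK1 hk1 kk1_supp (c := fun _ => 1) measurable_const hone
  have hm1 := Pw_meas h hk1.meas (c := fun _ => 1) measurable_const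
  have hAc := Pw_A h hV hK2 hk2 kk2_supp Real.measurable_cos Real.abs_cos_le_one
  have hmc := Pw_meas h hk2.meas Real.measurable_cos
  have hAs := Pw_A h hV hK2 hk2 kk2_supp Real.measurable_sin Real.abs_sin_le_one
  have hms := Pw_meas h hk2.meas Real.measurable_sin
  have hgi : ∀ {c : ℝ × ℝ} {Φ : ℝ → ℝ → ℂ}, (Measurable fun p : ℝ × ℝ => Φ p.1 p.2) →
      Integrable (pf Φ) → |c.1| ≤ 1 → |c.2| ≤ 1 → Integrable fun ξ : ℝ × ℝ =>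
        (c.1 * ξ.1 + c.2 * ξ.2) * cexp (-π * (ξ.1 ^ 2 + ξ.2 ^ 2)) * pf Φ ξ := by
    intro c Φ hΦm hΦ hc1 hc2
    refine Integrable.bdd_mul (c := 2) hΦ ?_ (ae_of_all _ fun ξ => ?_)
    · apply Continuous.aestronglyMeasurable
      fun_prop
    · rw [norm_mul, Complex.norm_exp]
      have e1 : (-(π : ℂ) * ((ξ.1 : ℂ) ^ 2 + (ξ.2 : ℂ) ^ 2)).re = -(π * (ξ.1 ^ 2 + ξ.2 ^ 2)) := by
        simp [pow_two]
      rw [e1]
      have e2 : ‖(c.1 : ℂ) * ξ.1 + c.2 * ξ.2‖ ≤ |ξ.1| + |ξ.2| := by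
        refine (norm_add_le _ _).trans (add_le_add ?_ ?_)
        · rw [norm_mul, Complex.norm_real, Complex.norm_real, Real.norm_eq_abs, Real.norm_eq_abs]
          nlinarith [abs_nonneg ξ.1]
        · rw [norm_mul, Complex.norm_real, Complex.norm_real, Real.norm_eq_abs, Real.norm_eq_abs]
          nlinarith [abs_nonneg ξ.2]
      have e3 : Real.exp (-(π * (ξ.1 ^ 2 + ξ.2 ^ 2))) ≤ 1 / (1 + (ξ.1 ^ 2 + ξ.2 ^ 2)) := by
        rw [Real.exp_neg, one_div]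
        apply inv_anti₀ (by positivity)
        have q := Real.add_one_le_exp (π * (ξ.1 ^ 2 + ξ.2 ^ 2))
        nlinarith [Real.pi_gt_three, sq_nonneg ξ.1, sq_nonneg ξ.2]
      calc _ ≤ (|ξ.1| + |ξ.2|) * (1 / (1 + (ξ.1 ^ 2 + ξ.2 ^ 2))) :=
            mul_le_mul e2 e3 (Real.exp_pos _).le (by positivity)
        _ ≤ 2 := by
            rw [mul_one_div, div_le_iff₀ (by positivity)]
            nlinarith [sq_nonneg (|ξ.1| - 1), sq_nonneg (|ξ.2| - 1), sq_abs ξ.1, sq_abs ξ.2]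
  have d1 := TT_eq hm1 hA1 t x
  rw [← fA_eq] at d1
  have d2 : ∫ y : ℝ × ℝ, ps (1, 0) y * TT (Pw kk2 Real.cos F) t (x - y) =
      Ext (fun ξ => ((((1:ℝ), (0:ℝ)) : ℝ × ℝ).1 * ξ.1 + (((1:ℝ), (0:ℝ)) : ℝ × ℝ).2 * ξ.2) *
        cexp (-π * (ξ.1 ^ 2 + ξ.2 ^ 2)) * pf (Pw kk2 Real.cos F) ξ) t x +
      Ext (fun ξ => ((((1:ℝ), (0:ℝ)) : ℝ × ℝ).1 * ξ.1 + (((1:ℝ), (0:ℝ)) : ℝ × ℝ).2 * ξ.2) *
        cexp (-π * (ξ.1 ^ 2 + ξ.2 ^ 2)) * pf (Pw kk2 Real.cos F) ξ) t (-x) := by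
    rw [← even_part (1, 0) (pf_meas hmc) (pf_int hmc hAc) t x]
    congr 1
    ext y
    rw [TT_eq hmc hAc]
  have d3 : ∫ y : ℝ × ℝ, ps (0, 1) y * TT (Pw kk2 Real.sin F) t (x - y) =
      Ext (fun ξ => ((((0:ℝ), (1:ℝ)) : ℝ × ℝ).1 * ξ.1 + (((0:ℝ), (1:ℝ)) : ℝ × ℝ).2 * ξ.2) *
        cexp (-π * (ξ.1 ^ 2 + ξ.2 ^ 2)) * pf (Pw kk2 Real.sin F) ξ) t x +
      Ext (fun ξ => ((((0:ℝ), (1:ℝ)) : ℝ × ℝ).1 * ξ.1 + (((0:ℝ), (1:ℝ)) : ℝ × ℝ).2 * ξ.2) *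
        cexp (-π * (ξ.1 ^ 2 + ξ.2 ^ 2)) * pf (Pw kk2 Real.sin F) ξ) t (-x) := by
    rw [← even_part (0, 1) (pf_meas hms) (pf_int hms hAs) t x]
    congr 1
    ext y
    rw [TT_eq hms hAs]
  have d4 : ∀ y, Ext (pf (fA F)) t y =
      Ext (fun ξ => ((((1:ℝ), (0:ℝ)) : ℝ × ℝ).1 * ξ.1 + (((1:ℝ), (0:ℝ)) : ℝ × ℝ).2 * ξ.2) *
        cexp (-π * (ξ.1 ^ 2 + ξ.2 ^ 2)) * pf (Pw kk2 Real.cos F) ξ) t y +
      Ext (fun ξ => ((((0:ℝ), (1:ℝ)) : ℝ × ℝ).1 * ξ.1 + (((0:ℝ), (1:ℝ)) : ℝ × ℝ).2 * ξ.2) *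
        cexp (-π * (ξ.1 ^ 2 + ξ.2 ^ 2)) * pf (Pw kk2 Real.sin F) ξ) t y := by
    intro y
    unfold Pool.Agent.R245.PB.Ext
    rw [← integral_add]
    · congr 1
      ext ξ
      rw [fA_split F ξ]
      ring
    · exact (hgi (c := ((1:ℝ), (0:ℝ))) hmc (pf_int hmc hAc) (by norm_num) (by norm_num)).mul_bdd
        (c := 1) (ec_meas.comp (by fun_prop)).aestronglyMeasurable
        (ae_of_all _ fun s => (ec_norm _).le)
    · exact (hgi (c := ((0:ℝ), (1:ℝ))) hms (pf_int hms hAs) (by norm_num) (by norm_num)).mul_bdd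
        (c := 1) (ec_meas.comp (by fun_prop)).aestronglyMeasurable
        (ae_of_all _ fun s => (ec_norm _).le)
  rw [d2, d3, ← fA_eq, d1]
  have q1 := d4 x
  have q2 := d4 (-x)
  linear_combination q1 + q2

variable {Ψ : ℝ → ℝ → ℝ → ℂ} {g : ℝ → ℝ → ℂ}

lemma YP_le (h : PrP Ψ) (hg : Gi g) (a τ : ℝ) (x : ℝ × ℝ) :
    ‖TT (pfl (Ψ a) (g a)) τ x‖ₑ ≤ ∫⁻ θ, ‖g a θ‖ₑ ∂mu :=
  (TT_sup τ x (pfl_meas (h.pr a) (hg.sec a))).trans (pfl_le (h.pr a) (g a))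

/-- the domination for the convolution -/
lemma cnv_dom (h : PrP Ψ) (hg : Gi g) (c : ℝ × ℝ) (l t y : ℝ) (x : ℝ × ℝ) :
    Integrable (fun q : ℝ × (ℝ × ℝ) => ps c q.2 * TT (pfl (Ψ q.1) (g q.1)) (l * t) (x - q.2) *
      ec (q.1 * y + q.1 ^ 2 * t)) (volume.prod volume) := by
  have hm1 : Measurable fun q : ℝ × (ℝ × ℝ) => TT (pfl (Ψ q.1) (g q.1)) (l * t) (x - q.2) :=
    (YP_meas h hg.meas).comp (f := fun q : ℝ × (ℝ × ℝ) => (q.1, l * t, x - q.2)) (by fun_prop)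
  have hm : Measurable fun q : ℝ × (ℝ × ℝ) => ps c q.2 *
      TT (pfl (Ψ q.1) (g q.1)) (l * t) (x - q.2) * ec (q.1 * y + q.1 ^ 2 * t) :=
    (((ps_meas c).comp measurable_snd).mul hm1).mul (ec_meas.comp (by fun_prop))
  refine ⟨hm.aestronglyMeasurable, ?_⟩
  have hga : Measurable fun a : ℝ => ∫⁻ θ, ‖g a θ‖ₑ ∂mu := hg.meas.enorm.lintegral_prod_right'
  have h1 : ∫⁻ q : ℝ × (ℝ × ℝ), (∫⁻ θ, ‖g q.1 θ‖ₑ ∂mu) * ‖ps c q.2‖ₑ ∂(volume.prod volume) < ⊤ := by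
    rw [lintegral_prod_mul hga.aemeasurable (ps_meas c).enorm.aemeasurable]
    exact ENNReal.mul_lt_top hg.one (ps_int c).hasFiniteIntegral
  refine lt_of_le_of_lt (lintegral_mono fun q => ?_) h1
  simp only
  rw [enorm_mul, enorm_mul, ← ofReal_norm (ec _), ec_norm, ENNReal.ofReal_one, mul_one, mul_comm]
  exact mul_le_mul' (YP_le h hg _ _ _) le_rfl

/-- the convolution commutes with the extension in the rough variable -/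
lemma cnvP (h : PrP Ψ) (hg : Gi g) (c : ℝ × ℝ) (l t y : ℝ) (x : ℝ × ℝ) :
    E1 (fun a => ∫ z : ℝ × ℝ, ps c z * TT (pfl (Ψ a) (g a)) (l * t) (x - z)) t y =
      ∫ z : ℝ × ℝ, ps c z * UP Ψ g l t y (x - z) := by
  unfold UP E1
  have h1 := integral_integral_swap (f := fun (a : ℝ) (z : ℝ × ℝ) => ps c z *
    TT (pfl (Ψ a) (g a)) (l * t) (x - z) * ec (a * y + a ^ 2 * t)) (cnv_dom h hg c l t y x)
  calc _ = ∫ a, ∫ z : ℝ × ℝ, ps c z * TT (pfl (Ψ a) (g a)) (l * t) (x - z) *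
        ec (a * y + a ^ 2 * t) := by
        congr 1
        ext a
        rw [← integral_mul_const]
    _ = _ := h1
    _ = _ := by
        congr 1
        ext z
        rw [← integral_const_mul]
        congr 1
        ext a
        ring

lemma cnv_int (h : PrP Ψ) (hg : Gi g) (c : ℝ × ℝ) (l t : ℝ) (x : ℝ × ℝ) :
    Integrable fun a => ∫ z : ℝ × ℝ, ps c z * TT (pfl (Ψ a) (g a)) (l * t) (x - z) := by
  have h1 := (cnv_dom h hg c l t 0 x).integral_prod_left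
  have hm : Measurable fun a : ℝ => ∫ z : ℝ × ℝ, ps c z * TT (pfl (Ψ a) (g a)) (l * t) (x - z) := by
    have hm1 : Measurable fun q : ℝ × (ℝ × ℝ) => TT (pfl (Ψ q.1) (g q.1)) (l * t) (x - q.2) :=
      (YP_meas h hg.meas).comp (f := fun q : ℝ × (ℝ × ℝ) => (q.1, l * t, x - q.2)) (by fun_prop)
    have hm2 : Measurable fun q : ℝ × (ℝ × ℝ) => ps c q.2 *
        TT (pfl (Ψ q.1) (g q.1)) (l * t) (x - q.2) := ((ps_meas c).comp measurable_snd).mul hm1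
    exact (hm2.stronglyMeasurable.integral_prod_right'
      (ν := (volume : Measure (ℝ × ℝ)))).measurable
  refine h1.mono hm.aestronglyMeasurable (ae_of_all _ fun a => ?_)
  have e1 : ∫ z : ℝ × ℝ, ps c z * TT (pfl (Ψ a) (g a)) (l * t) (x - z) * ec (a * 0 + a ^ 2 * t) =
      (∫ z : ℝ × ℝ, ps c z * TT (pfl (Ψ a) (g a)) (l * t) (x - z)) * ec (a * 0 + a ^ 2 * t) :=
    integral_mul_const _ _
  simp only
  rw [e1, norm_mul, ec_norm, mul_one]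

/-- parametrised ray functions -/
structure RayP (F : ℝ → ℝ → ℝ → ℂ) (V : ℝ → ℝ → ℝ) : Prop where
  meas : Measurable fun p : ℝ × ℝ × ℝ => F p.1 p.2.1 p.2.2
  vmeas : Measurable fun p : ℝ × ℝ => V p.1 p.2
  ray : ∀ a, Ray (F a) (V a)
  supp : ∀ a θ, 1 < |a| → V a θ = 0
  vint : Integrable (fun p : ℝ × ℝ => V p.1 p.2) (volume.prod mu)

variable {F : ℝ → ℝ → ℝ → ℂ} {V : ℝ → ℝ → ℝ}

lemma PnP (h : RayP F V) {K : ℝ} (hK : 0 < K) {k : ℝ → ℂ} (hk : BM k K K)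
    (hks : ∀ s, s ∉ Ioc (1 / 4 : ℝ) 1 → k s = 0) {c : ℝ → ℝ} (hc : Measurable c)
    (hc1 : ∀ θ, |c θ| ≤ 1) : PrP (fun a => Pn K k c (F a) (V a)) where
  meas := by
    unfold Pn
    have m1 : Measurable fun p : ℝ × ℝ × ℝ => V p.1 p.2.1 :=
      h.vmeas.comp (f := fun p : ℝ × ℝ × ℝ => (p.1, p.2.1)) (by fun_prop)
    refine Measurable.mul ?_ (Measurable.mul ?_ ?_)
    · refine Complex.measurable_ofReal.comp ?_
      exact (hc.comp (f := fun p : ℝ × ℝ × ℝ => p.2.1) (by fun_prop)).div (m1.const_mul _)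
    · exact hk.meas.comp (f := fun p : ℝ × ℝ × ℝ => p.2.2) (by fun_prop)
    · unfold ext2
      exact h.meas.comp (f := fun p : ℝ × ℝ × ℝ => (p.1, p.2.1, √(max p.2.2 (1 / 4))))
        (by fun_prop)
  pr := fun a => Pn_Pr (h.ray a) hK hk hks hc hc1

/-- the amplitude -/
noncomputable def gV (K : ℝ) (V : ℝ → ℝ → ℝ) (a θ : ℝ) : ℂ := ((2 * K * V a θ : ℝ) : ℂ)

lemma gV_Gi (h : RayP F V) (K : ℝ) : Gi (gV K V) where
  meas := Complex.measurable_ofReal.comp (h.vmeas.const_mul _)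
  int := (h.vint.const_mul (2 * K)).ofReal

lemma gV_supp (h : RayP F V) (K : ℝ) (a θ : ℝ) (ha : 1 < |a|) : gV K V a θ = 0 := by
  unfold gV
  rw [h.supp a θ ha]
  simp

lemma gV_p (h : RayP F V) {K : ℝ} (hK : 0 < K) {p : ℝ} (hp0 : 0 < p) :
    ∫⁻ a, (∫⁻ θ, ‖gV K V a θ‖ₑ ^ p ∂mu) =
      ENNReal.ofReal ((2 * K) ^ p) * ∫⁻ a, (∫⁻ θ, ENNReal.ofReal (V a θ) ^ p ∂mu) := by
  rw [← lintegral_const_mul' _ _ ENNReal.ofReal_ne_top]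
  congr 1
  ext a
  rw [← lintegral_const_mul' _ _ ENNReal.ofReal_ne_top]
  congr 1
  ext θ
  have := (h.ray a).v0 θ
  unfold gV
  rw [← ofReal_norm, Complex.norm_real, Real.norm_eq_abs, abs_of_nonneg (by positivity),
    ENNReal.ofReal_mul (by positivity), ENNReal.mul_rpow_of_nonneg _ _ hp0.le,
    ENNReal.ofReal_rpow_of_pos (by positivity)]

lemma Pw_gV (h : RayP F V) {K : ℝ} (hK : 0 < K) (k : ℝ → ℂ) (c : ℝ → ℝ) (a : ℝ) :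
    Pw k c (F a) = pfl (Pn K k c (F a) (V a)) (gV K V a) := Pw_pfl (h.ray a) hK k c

/-- the full extension of a family of functions on the annulus -/
noncomputable def EA (F : ℝ → ℝ → ℝ → ℂ) (l t y : ℝ) (x : ℝ × ℝ) : ℂ :=
  E1 (fun a => Ext (pf (fA (F a))) (l * t) x) t y

/-- the estimate on the annulus with a rough parameter -/
theorem annRP {p m : ℝ} (hp2 : 2 < p) (hp : p < 10 / 3) (hm : 0 ≤ m)
    (hs : (4 - p) / 2 < (p - 2) + m) : ∃ e : ℝ, 0 < e ∧ e < 1 ∧ ∃ C : ℝ, 0 < C ∧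
    ∀ (F : ℝ → ℝ → ℝ → ℂ) (V : ℝ → ℝ → ℝ), RayP F V → ∀ (l κ : ℝ), 0 < κ → κ ≤ 1 → κ ≤ l →
    ∫⁻ t, ENNReal.ofReal ((1 + |t|) ^ (-m)) * (∫⁻ y, ∫⁻ x : ℝ × ℝ, ‖EA F l t y x‖ₑ ^ p) ≤
      ENNReal.ofReal (C * κ ^ (-((2 - e) * ((p - 2) / 2)))) *
        ∫⁻ a, (∫⁻ θ, ENNReal.ofReal (V a θ) ^ p ∂mu) := by
  obtain ⟨e, he0, he1, C, hC, hU⟩ := Uall hp2 hp hm hs
  obtain ⟨K1, hK1, hk1⟩ := kk1_BM
  obtain ⟨K2, hK2, hk2⟩ := kk2_BM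
  have hp0 : 0 < p := by linarith
  refine ⟨e, he0, he1, 3 ^ p * (C * (2 * K1) ^ p + 2 ^ p * (C * (2 * K2) ^ p) +
    2 ^ p * (C * (2 * K2) ^ p)), by positivity, ?_⟩
  intro F V h l κ hκ hκ1 hκl
  have hone : ∀ θ : ℝ, |(fun _ => (1:ℝ)) θ| ≤ 1 := fun θ => by simp
  set Ψ1 : ℝ → ℝ → ℝ → ℂ := fun a => Pn K1 kk1 (fun _ => 1) (F a) (V a) with hΨ1
  set Ψc : ℝ → ℝ → ℝ → ℂ := fun a => Pn K2 kk2 Real.cos (F a) (V a) with hΨc
  set Ψs : ℝ → ℝ → ℝ → ℂ := fun a => Pn K2 kk2 Real.sin (F a) (V a) with hΨs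
  have P1 : PrP Ψ1 := PnP h hK1 hk1 kk1_supp measurable_const hone
  have Pc : PrP Ψc := PnP h hK2 hk2 kk2_supp Real.measurable_cos Real.abs_cos_le_one
  have Ps : PrP Ψs := PnP h hK2 hk2 kk2_supp Real.measurable_sin Real.abs_sin_le_one
  have G1 := gV_Gi h K1
  have G2 := gV_Gi h K2
  have hva : ∀ᵐ a : ℝ, Integrable (V a) mu := by
    filter_upwards [G1.ae] with a ha
    have h1 : Integrable (fun θ => ‖gV K1 V a θ‖) mu := ha.norm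
    have h2 : (fun θ => ‖gV K1 V a θ‖) = fun θ => 2 * K1 * V a θ := by
      ext θ
      unfold gV
      have := (h.ray a).v0 θ
      rw [Complex.norm_real, Real.norm_eq_abs, abs_of_nonneg (by positivity)]
    rw [h2] at h1
    have h3 := h1.const_mul (2 * K1)⁻¹
    refine h3.congr (ae_of_all _ fun θ => ?_)
    simp only
    field_simp
  have hdec : ∀ t y x, ‖EA F l t y x‖ₑ ≤ ‖UP Ψ1 (gV K1 V) l t y x‖ₑ +
      ‖∫ z : ℝ × ℝ, ps (1, 0) z * UP Ψc (gV K2 V) l t y (x - z)‖ₑ +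
      ‖∫ z : ℝ × ℝ, ps (0, 1) z * UP Ψs (gV K2 V) l t y (x - z)‖ₑ := by
    intro t y x
    have i1 := YP_int P1 G1 (l * t) x
    have i2 := cnv_int Pc G2 (1, 0) l t x
    have i3 := cnv_int Ps G2 (0, 1) l t x
    have i12 : Integrable fun a => TT (pfl (Ψ1 a) (gV K1 V a)) (l * t) x +
        ∫ (z : ℝ × ℝ), ps (1, 0) z * TT (pfl (Ψc a) (gV K2 V a)) (l * t) (x - z) := i1.add i2
    have d1 : (2 : ℂ) * EA F l t y x = UP Ψ1 (gV K1 V) l t y x +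
        (∫ z : ℝ × ℝ, ps (1, 0) z * UP Ψc (gV K2 V) l t y (x - z)) +
        ∫ z : ℝ × ℝ, ps (0, 1) z * UP Ψs (gV K2 V) l t y (x - z) := by
      rw [← cnvP Pc G2, ← cnvP Ps G2]
      unfold UP
      rw [← E1_add i1 i2, ← E1_add i12 i3]
      unfold EA
      have e1 : (2 : ℂ) * E1 (fun a => Ext (pf (fA (F a))) (l * t) x) t y =
          E1 (fun a => (2 : ℂ) * Ext (pf (fA (F a))) (l * t) x) t y := by
        unfold E1
        rw [← integral_const_mul]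
        congr 1
        ext a
        ring
      rw [e1]
      apply E1_congr
      filter_upwards [hva] with a ha
      have d5 := dec5 (h.ray a) ha (l * t) x
      rw [Pw_gV h hK1, Pw_gV h hK2, Pw_gV h hK2] at d5
      exact d5
    have d6 : ‖EA F l t y x‖ₑ ≤ ‖(2 : ℂ) * EA F l t y x‖ₑ := by
      rw [enorm_mul]
      refine le_mul_of_one_le_left' ?_
      rw [← ofReal_norm]
      norm_num
    rw [d1] at d6
    exact d6.trans ((enorm_add_le _ _).trans (add_le_add (enorm_add_le _ _) le_rfl))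
  set w : ℝ → ℝ≥0∞ := fun t => ENNReal.ofReal ((1 + |t|) ^ (-m)) with hw
  have hwm : Measurable w := (Measurable.pow_const (by fun_prop) _).ennreal_ofReal
  set P : Measure (ℝ × ℝ × (ℝ × ℝ)) := (volume.withDensity w).prod (volume.prod volume) with hPd
  have hP3 : ∀ {F : ℝ × ℝ × (ℝ × ℝ) → ℝ≥0∞}, Measurable F → ∫⁻ z, F z ∂P =
      ∫⁻ t, w t * (∫⁻ y, ∫⁻ x : ℝ × ℝ, F (t, y, x)) := by
    intro F hF
    rw [hPd, lintegral_prod _ hF.aemeasurable, lintegral_withDensity_eq_lintegral_mul _ hwm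
      hF.lintegral_prod_right']
    congr 1
    ext t
    simp only [Pi.mul_apply]
    have : Measurable fun q : ℝ × (ℝ × ℝ) => F (t, q) := hF.comp (by fun_prop)
    rw [lintegral_prod _ this.aemeasurable]
  have m1 : Measurable fun z : ℝ × ℝ × (ℝ × ℝ) => ‖UP Ψ1 (gV K1 V) l z.1 z.2.1 z.2.2‖ₑ ^ p :=
    (UP_meas P1 G1.meas l).enorm.pow_const p
  have mc : ∀ {Ψ : ℝ → ℝ → ℝ → ℂ} (c : ℝ × ℝ), PrP Ψ → Measurable fun z : ℝ × ℝ × (ℝ × ℝ) =>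
      ‖∫ z' : ℝ × ℝ, ps c z' * UP Ψ (gV K2 V) l z.1 z.2.1 (z.2.2 - z')‖ₑ ^ p := by
    intro Ψ c hΨ
    have q1 : Measurable fun q : (ℝ × ℝ × (ℝ × ℝ)) × (ℝ × ℝ) => ps c q.2 *
        UP Ψ (gV K2 V) l q.1.1 q.1.2.1 (q.1.2.2 - q.2) :=
      ((ps_meas c).comp measurable_snd).mul ((UP_meas hΨ G2.meas l).comp
        (f := fun q : (ℝ × ℝ × (ℝ × ℝ)) × (ℝ × ℝ) => (q.1.1, q.1.2.1, q.1.2.2 - q.2))
        (by fun_prop))
    exact (q1.stronglyMeasurable.integral_prod_right'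
      (ν := (volume : Measure (ℝ × ℝ)))).measurable.enorm.pow_const p
  have hEA : ∀ t, (∫⁻ y, ∫⁻ x : ℝ × ℝ, ‖EA F l t y x‖ₑ ^ p) ≤ ∫⁻ y, ∫⁻ x : ℝ × ℝ,
      3 ^ p * (‖UP Ψ1 (gV K1 V) l t y x‖ₑ ^ p +
      ‖∫ z : ℝ × ℝ, ps (1, 0) z * UP Ψc (gV K2 V) l t y (x - z)‖ₑ ^ p +
      ‖∫ z : ℝ × ℝ, ps (0, 1) z * UP Ψs (gV K2 V) l t y (x - z)‖ₑ ^ p) := by
    intro t
    refine lintegral_mono fun y => lintegral_mono fun x => ?_
    exact (ENNReal.rpow_le_rpow (hdec t y x) hp0.le).trans (three_pow _ _ _ hp0.le)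
  have mA : Measurable fun z : ℝ × ℝ × (ℝ × ℝ) => ‖UP Ψ1 (gV K1 V) l z.1 z.2.1 z.2.2‖ₑ ^ p +
      ‖∫ z' : ℝ × ℝ, ps (1, 0) z' * UP Ψc (gV K2 V) l z.1 z.2.1 (z.2.2 - z')‖ₑ ^ p :=
    m1.add (mc (1, 0) Pc)
  have mAll : Measurable fun z : ℝ × ℝ × (ℝ × ℝ) => 3 ^ p *
      (‖UP Ψ1 (gV K1 V) l z.1 z.2.1 z.2.2‖ₑ ^ p +
      ‖∫ z' : ℝ × ℝ, ps (1, 0) z' * UP Ψc (gV K2 V) l z.1 z.2.1 (z.2.2 - z')‖ₑ ^ p +
      ‖∫ z' : ℝ × ℝ, ps (0, 1) z' * UP Ψs (gV K2 V) l z.1 z.2.1 (z.2.2 - z')‖ₑ ^ p) :=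
    (mA.add (mc (0, 1) Ps)).const_mul _
  set Z := ∫⁻ a, (∫⁻ θ, ENNReal.ofReal (V a θ) ^ p ∂mu) with hZ
  set D : ℝ := κ ^ (-((2 - e) * ((p - 2) / 2))) with hD
  have hD0 : 0 < D := by positivity
  have b1 : ∫⁻ z, ‖UP Ψ1 (gV K1 V) l z.1 z.2.1 z.2.2‖ₑ ^ p ∂P ≤
      ENNReal.ofReal (C * (2 * K1) ^ p * D) * Z := by
    rw [hP3 m1]
    refine (hU Ψ1 P1 _ G1 (gV_supp h K1) l κ hκ hκ1 hκl).trans (le_of_eq ?_)
    rw [gV_p h hK1 hp0, ← mul_assoc, ← ENNReal.ofReal_mul (by positivity)]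
    congr 2
    ring
  have b2 : ∀ {Ψ : ℝ → ℝ → ℝ → ℂ} {c : ℝ × ℝ}, PrP Ψ → |c.1| ≤ 1 → |c.2| ≤ 1 →
      ∫⁻ z, ‖∫ z' : ℝ × ℝ, ps c z' * UP Ψ (gV K2 V) l z.1 z.2.1 (z.2.2 - z')‖ₑ ^ p ∂P ≤
      ENNReal.ofReal (2 ^ p * (C * (2 * K2) ^ p) * D) * Z := by
    intro Ψ c hΨ hc1 hc2
    rw [hP3 (mc c hΨ)]
    calc ∫⁻ t, w t * (∫⁻ y, ∫⁻ x : ℝ × ℝ,
          ‖∫ z' : ℝ × ℝ, ps c z' * UP Ψ (gV K2 V) l t y (x - z')‖ₑ ^ p)
        ≤ ∫⁻ t, w t * (∫⁻ y, 2 ^ p * ∫⁻ x : ℝ × ℝ, ‖UP Ψ (gV K2 V) l t y x‖ₑ ^ p) := by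
          refine lintegral_mono fun t => mul_le_mul' le_rfl (lintegral_mono fun y => ?_)
          exact young hc1 hc2 ((UP_meas hΨ G2.meas l).comp
            (f := fun x : ℝ × ℝ => (t, y, x)) (by fun_prop)) (by linarith)
      _ = 2 ^ p * ∫⁻ t, w t * (∫⁻ y, ∫⁻ x : ℝ × ℝ, ‖UP Ψ (gV K2 V) l t y x‖ₑ ^ p) := by
          have h2t : (2 : ℝ≥0∞) ^ p ≠ ⊤ := ENNReal.rpow_ne_top_of_nonneg hp0.le (by norm_num)
          rw [← lintegral_const_mul' _ _ h2t]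
          congr 1
          ext t
          rw [lintegral_const_mul' _ _ h2t]
          ring
      _ ≤ 2 ^ p * (ENNReal.ofReal (C * D) * ∫⁻ a, (∫⁻ θ, ‖gV K2 V a θ‖ₑ ^ p ∂mu)) :=
          mul_le_mul' le_rfl (hU Ψ hΨ _ G2 (gV_supp h K2) l κ hκ hκ1 hκl)
      _ = _ := by
          have e2 : (2 : ℝ≥0∞) ^ p = ENNReal.ofReal (2 ^ p) := by
            rw [← ENNReal.ofReal_rpow_of_pos (by norm_num)]
            norm_num
          rw [gV_p h hK2 hp0, e2, ← mul_assoc, ← mul_assoc, ← ENNReal.ofReal_mul (by positivity),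
            ← ENNReal.ofReal_mul (by positivity)]
          congr 2
          ring
  calc ∫⁻ t, w t * (∫⁻ y, ∫⁻ x : ℝ × ℝ, ‖EA F l t y x‖ₑ ^ p)
      ≤ ∫⁻ t, w t * (∫⁻ y, ∫⁻ x : ℝ × ℝ, 3 ^ p * (‖UP Ψ1 (gV K1 V) l t y x‖ₑ ^ p +
        ‖∫ z : ℝ × ℝ, ps (1, 0) z * UP Ψc (gV K2 V) l t y (x - z)‖ₑ ^ p +
        ‖∫ z : ℝ × ℝ, ps (0, 1) z * UP Ψs (gV K2 V) l t y (x - z)‖ₑ ^ p)) :=
        lintegral_mono fun t => mul_le_mul' le_rfl (hEA t)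
    _ = 3 ^ p * ((∫⁻ z, ‖UP Ψ1 (gV K1 V) l z.1 z.2.1 z.2.2‖ₑ ^ p ∂P) +
        (∫⁻ z, ‖∫ z' : ℝ × ℝ, ps (1, 0) z' * UP Ψc (gV K2 V) l z.1 z.2.1 (z.2.2 - z')‖ₑ ^ p ∂P) +
        ∫⁻ z, ‖∫ z' : ℝ × ℝ, ps (0, 1) z' * UP Ψs (gV K2 V) l z.1 z.2.1 (z.2.2 - z')‖ₑ ^ p ∂P) := by
        rw [← hP3 mAll, lintegral_const_mul' _ _ (ENNReal.rpow_ne_top_of_nonneg hp0.le
          (by norm_num)), lintegral_add_left mA, lintegral_add_left m1]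
    _ ≤ 3 ^ p * (ENNReal.ofReal (C * (2 * K1) ^ p * D) * Z +
        ENNReal.ofReal (2 ^ p * (C * (2 * K2) ^ p) * D) * Z +
        ENNReal.ofReal (2 ^ p * (C * (2 * K2) ^ p) * D) * Z) := by
        refine mul_le_mul' le_rfl (add_le_add (add_le_add b1 (b2 Pc ?_ ?_)) (b2 Ps ?_ ?_)) <;>
          norm_num
    _ = _ := by
        have e3 : (3 : ℝ≥0∞) ^ p = ENNReal.ofReal (3 ^ p) := by
          rw [← ENNReal.ofReal_rpow_of_pos (by norm_num)]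
          norm_num
        rw [e3, ← add_mul, ← add_mul, ← mul_assoc, ← ENNReal.ofReal_add (by positivity)
          (by positivity), ← ENNReal.ofReal_add (by positivity) (by positivity),
          ← ENNReal.ofReal_mul (by positivity)]
        congr 2
        ring

end Pool.Agent.R245.PC
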