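import Mathlib
import Pool.Agent.R245.PC.C6
set_option autoImplicit false

/-! Extended valued majorants and annuli of any size, with a rough parameter. -/

namespace Pool.Agent.R245.PC

open Pool.Agent.R245.PB MeasureTheory Set Complex Filter Real
open scoped ENNReal Topology

/-- the annulus, with an extended valued majorant -/
theorem annEP {p m : ℝ} (hp2 : 2 < p) (hp : p < 10 / 3) (hm : 0 ≤ m)
    (hs : (4 - p) / 2 < (p - 2) + m) : ∃ e : ℝ, 0 < e ∧ e < 1 ∧ ∃ C : ℝ, 0 < C ∧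
    ∀ (F : ℝ → ℝ → ℝ → ℂ) (V : ℝ → ℝ → ℝ≥0∞),
    (Measurable fun q : ℝ × ℝ × ℝ => F q.1 q.2.1 q.2.2) → (Measurable fun q : ℝ × ℝ => V q.1 q.2) →
    (∃ R, ∀ a θ r, R < r → F a θ r = 0) → (∀ a, 1 < |a| → ∀ θ r, F a θ r = 0) →
    (∀ a θ, eVariationOn (F a θ) (Ici (1 / 2)) ≤ V a θ) → ∀ (l κ : ℝ), 0 < κ → κ ≤ 1 → κ ≤ l →
    ∫⁻ t, ENNReal.ofReal ((1 + |t|) ^ (-m)) * (∫⁻ y, ∫⁻ x : ℝ × ℝ, ‖EA F l t y x‖ₑ ^ p) ≤
      ENNReal.ofReal (C * κ ^ (-((2 - e) * ((p - 2) / 2)))) * ∫⁻ a, (∫⁻ θ, V a θ ^ p ∂mu) := by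
  obtain ⟨e, he0, he1, C, hC, hA⟩ := annRP hp2 hp hm hs
  have hp0 : 0 < p := by linarith
  refine ⟨e, he0, he1, C, hC, ?_⟩
  intro F V hF hVm hz ha0 hv l κ hκ hκ1 hκl
  by_cases htop : ∫⁻ a, (∫⁻ θ, V a θ ^ p ∂mu) = ⊤
  · rw [htop, ENNReal.mul_top]
    · exact le_top
    · simp only [ne_eq, ENNReal.ofReal_eq_zero, not_le]
      positivity
  set I1 : Set (ℝ × ℝ) := Icc (-1:ℝ) 1 ×ˢ univ with hI1
  have hI1m : MeasurableSet I1 := measurableSet_Icc.prod MeasurableSet.univ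
  have hfin : (volume.prod mu) I1 < ⊤ := by
    rw [hI1, Measure.prod_prod, Real.volume_Icc]
    exact ENNReal.mul_lt_top ENNReal.ofReal_lt_top (measure_lt_top _ _)
  have hVp : ∫⁻ q : ℝ × ℝ, V q.1 q.2 ^ p ∂(volume.prod mu) < ⊤ := by
    rw [lintegral_prod _ (hVm.pow_const p).aemeasurable]
    exact lt_top_iff_ne_top.2 htop
  have hV1 : ∫⁻ q in I1, V q.1 q.2 ∂(volume.prod mu) < ⊤ := by
    have h1 := Pool.Agent.H438R2.PD.A5.jensenp ((volume.prod mu).restrict I1)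
      (fun q : ℝ × ℝ => V q.1 q.2) hVm.aemeasurable p (by linarith)
    by_contra hc
    have h2 : ∫⁻ q in I1, V q.1 q.2 ∂(volume.prod mu) = ⊤ := by simpa using hc
    rw [h2, ENNReal.top_rpow_of_pos hp0, Measure.restrict_apply_univ] at h1
    have h3 : ((volume.prod mu) I1) ^ (p - 1) *
        ∫⁻ q in I1, V q.1 q.2 ^ p ∂(volume.prod mu) < ⊤ := by
      apply ENNReal.mul_lt_top
      · exact ENNReal.rpow_lt_top_of_nonneg (by linarith) hfin.ne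
      · exact lt_of_le_of_lt (setLIntegral_le_lintegral _ _) hVp
    exact absurd (lt_of_le_of_lt h1 h3) (by simp)
  set B : Set (ℝ × ℝ) := {q | V q.1 q.2 < ⊤} ∩ I1 with hB
  have hBm : MeasurableSet B := (measurableSet_lt hVm measurable_const).inter hI1m
  set F' : ℝ → ℝ → ℝ → ℂ := fun a θ r => B.indicator (fun q => F q.1 q.2 r) (a, θ) with hF'
  set V' : ℝ → ℝ → ℝ≥0∞ := fun a θ => B.indicator (fun q => V q.1 q.2) (a, θ) with hV'
  have hF'1 : ∀ a θ, (a, θ) ∈ B → F' a θ = F a θ := by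
    intro a θ h
    ext r
    simp only [hF']
    rw [indicator_of_mem h]
  have hF'0 : ∀ a θ, (a, θ) ∉ B → F' a θ = fun _ => 0 := by
    intro a θ h
    ext r
    simp only [hF']
    rw [indicator_of_notMem h]
  have hV'1 : ∀ a θ, (a, θ) ∈ B → V' a θ = V a θ := fun a θ h => indicator_of_mem h _
  have hV'0 : ∀ a θ, (a, θ) ∉ B → V' a θ = 0 := fun a θ h => indicator_of_notMem h _
  have hV'm : Measurable fun q : ℝ × ℝ => V' q.1 q.2 := hVm.indicator hBm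
  have hF'm : Measurable fun q : ℝ × ℝ × ℝ => F' q.1 q.2.1 q.2.2 := by
    have mf : Measurable fun q : ℝ × ℝ × ℝ => (q.1, q.2.1) := by fun_prop
    have e1 : (fun q : ℝ × ℝ × ℝ => F' q.1 q.2.1 q.2.2) =
        ((fun q : ℝ × ℝ × ℝ => (q.1, q.2.1)) ⁻¹' B).indicator
          (fun q : ℝ × ℝ × ℝ => F q.1 q.2.1 q.2.2) := by
      ext q
      by_cases hq : (q.1, q.2.1) ∈ B
      · rw [hF'1 _ _ hq, indicator_of_mem (show q ∈ (fun q : ℝ × ℝ × ℝ => (q.1, q.2.1)) ⁻¹' B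
          from hq)]
      · rw [hF'0 _ _ hq, indicator_of_notMem (show q ∉ (fun q : ℝ × ℝ × ℝ => (q.1, q.2.1)) ⁻¹' B
          from hq)]
    rw [e1]
    exact hF.indicator (mf hBm)
  have hvz : eVariationOn (fun _ : ℝ => (0:ℂ)) (Ici (1 / 2)) = 0 := by
    apply eVariationOn.constant_on
    intro a ha b hb
    obtain ⟨_, _, rfl⟩ := ha
    obtain ⟨_, _, rfl⟩ := hb
    rfl
  have hRay : RayP F' (fun a θ => (V' a θ).toReal) := by
    refine ⟨hF'm, hV'm.ennreal_toReal, ?_, ?_, ?_⟩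
    · intro a
      refine ⟨hF'm.comp (f := fun q : ℝ × ℝ => (a, q.1, q.2)) (by fun_prop),
        hV'm.ennreal_toReal.comp (f := fun θ : ℝ => (a, θ)) (by fun_prop),
        fun θ => ENNReal.toReal_nonneg, ?_, ?_⟩
      · obtain ⟨R, hR⟩ := hz
        refine ⟨R, fun θ r hr => ?_⟩
        by_cases hθ : (a, θ) ∈ B
        · rw [hF'1 _ _ hθ]
          exact hR a θ r hr
        · rw [hF'0 _ _ hθ]
      · intro θ
        by_cases hθ : (a, θ) ∈ B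
        · rw [hF'1 _ _ hθ, hV'1 _ _ hθ, ENNReal.ofReal_toReal (ne_of_lt hθ.1)]
          exact hv a θ
        · rw [hF'0 _ _ hθ, hvz]
          exact zero_le
    · intro a θ ha
      have : (a, θ) ∉ B := fun h => by
        have h1 : a ∈ Icc (-1:ℝ) 1 := h.2.1
        exact absurd (abs_le.2 h1) (not_le.2 ha)
      rw [hV'0 _ _ this]
      rfl
    · refine integrable_toReal_of_lintegral_ne_top hV'm.aemeasurable ?_
      refine (lt_of_le_of_lt ?_ hV1).ne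
      rw [← lintegral_indicator hI1m]
      apply lintegral_mono
      intro q
      simp only
      by_cases hq : (q.1, q.2) ∈ B
      · rw [hV'1 _ _ hq, indicator_of_mem (show q ∈ I1 from hq.2)]
      · rw [hV'0 _ _ hq]
        exact zero_le
  have hfinal := hA F' _ hRay l κ hκ hκ1 hκl
  have hle : ∫⁻ a, (∫⁻ θ, ENNReal.ofReal (V' a θ).toReal ^ p ∂mu) ≤
      ∫⁻ a, (∫⁻ θ, V a θ ^ p ∂mu) := by
    refine lintegral_mono fun a => lintegral_mono fun θ => ENNReal.rpow_le_rpow ?_ hp0.le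
    by_cases hq : (a, θ) ∈ B
    · rw [hV'1 _ _ hq]
      exact ENNReal.ofReal_toReal_le
    · rw [hV'0 _ _ hq]
      simp
  -- the functions agree almost everywhere
  have hae : ∀ᵐ a : ℝ, |a| ≤ 1 → (∫⁻ θ, V a θ ∂mu) < ⊤ := by
    have h1 : ∫⁻ a in Icc (-1:ℝ) 1, (∫⁻ θ, V a θ ∂mu) < ⊤ := by
      have h2 : (volume.prod mu).restrict I1 = (volume.restrict (Icc (-1:ℝ) 1)).prod mu := by
        rw [hI1, ← Measure.prod_restrict, Measure.restrict_univ]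
      rw [h2, lintegral_prod _ hVm.aemeasurable] at hV1
      exact hV1
    have h3 : Measurable fun a : ℝ => ∫⁻ θ, V a θ ∂mu := hVm.lintegral_prod_right'
    have h4 := ae_lt_top h3 h1.ne
    rw [ae_restrict_iff' measurableSet_Icc] at h4
    filter_upwards [h4] with a ha h5
    exact ha (abs_le.1 h5)
  have hEA : ∀ t y x, EA F l t y x = EA F' l t y x := by
    intro t y x
    unfold EA
    apply E1_congr
    filter_upwards [hae] with a ha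
    by_cases h1 : |a| ≤ 1
    · have hVa := ha h1
      have hVam : Measurable (V a) := hVm.comp (f := fun θ : ℝ => (a, θ)) (by fun_prop)
      have hθ : ∀ᵐ θ ∂mu, V a θ < ⊤ := ae_lt_top hVam hVa.ne
      have hFa : Measurable fun q : ℝ × ℝ => F a q.1 q.2 :=
        hF.comp (f := fun q : ℝ × ℝ => (a, q.1, q.2)) (by fun_prop)
      have hFa' : Measurable fun q : ℝ × ℝ => F' a q.1 q.2 :=
        hF'm.comp (f := fun q : ℝ × ℝ => (a, q.1, q.2)) (by fun_prop)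
      have hA1 := fA_A (F := F a) (V := V a) ⟨hz.choose, hz.choose_spec a⟩ (hv a) hVa
      have hmem : ∀ θ, V a θ < ⊤ → (a, θ) ∈ B := fun θ h => ⟨h, abs_le.1 h1, mem_univ _⟩
      have hA2 : ∫⁻ θ, (∫⁻ s in Ioi (0:ℝ), ‖fA (F' a) θ s‖ₑ) ∂mu < ⊤ := by
        refine lt_of_le_of_lt (le_of_eq ?_) hA1
        apply lintegral_congr_ae
        filter_upwards [hθ] with θ hθ
        unfold fA
        rw [hF'1 a θ (hmem θ hθ)]
      rw [Ext_polar (fA_meas hFa) hA1, Ext_polar (fA_meas hFa') hA2]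
      apply integral_congr_ae
      filter_upwards [hθ] with θ hθ
      unfold pg fA
      simp only
      rw [hF'1 a θ (hmem θ hθ)]
    · have h2 : F a = F' a := by
        ext θ r
        rw [ha0 a (not_le.1 h1) θ r]
        have : (a, θ) ∉ B := fun h => h1 (abs_le.2 h.2.1)
        rw [hF'0 _ _ this]
      rw [h2]
  simp only [hEA]
  exact hfinal.trans (mul_le_mul' le_rfl hle)

/-- the extension operator with a rough variable -/
noncomputable def EF (f : ℝ → ℝ × ℝ → ℂ) (t y : ℝ) (x : ℝ × ℝ) : ℂ :=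
  E1 (fun a => Ext (f a) t x) t y

lemma ExtP_jm {f : ℝ → ℝ × ℝ → ℂ} (hf : Measurable fun q : ℝ × (ℝ × ℝ) => f q.1 q.2) :
    Measurable fun q : ℝ × ℝ × (ℝ × ℝ) => Ext (f q.1) q.2.1 q.2.2 := by
  unfold Pool.Agent.R245.PB.Ext
  have h1 : Measurable fun q : (ℝ × ℝ × (ℝ × ℝ)) × (ℝ × ℝ) => f q.1.1 q.2 *
      ec (q.2.1 * q.1.2.2.1 + q.2.2 * q.1.2.2.2 + (q.2.1 ^ 2 + q.2.2 ^ 2) * q.1.2.1) := by
    refine (hf.comp (f := fun q : (ℝ × ℝ × (ℝ × ℝ)) × (ℝ × ℝ) => (q.1.1, q.2)) (by fun_prop)).mul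
      (ec_meas.comp ?_)
    apply Continuous.measurable
    fun_prop
  exact (h1.stronglyMeasurable.integral_prod_right' (ν := (volume : Measure (ℝ × ℝ)))).measurable

lemma EF_meas {f : ℝ → ℝ × ℝ → ℂ} (hf : Measurable fun q : ℝ × (ℝ × ℝ) => f q.1 q.2) :
    Measurable fun q : ℝ × ℝ × (ℝ × ℝ) => EF f q.1 q.2.1 q.2.2 := by
  unfold EF
  refine E1_jm (X := ℝ × ℝ × (ℝ × ℝ)) (G := fun p a => Ext (f a) p.1 p.2.2)
    ?_ (by fun_prop) (by fun_prop)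
  exact (ExtP_jm hf).comp (f := fun q : (ℝ × ℝ × (ℝ × ℝ)) × ℝ => (q.2, q.1.1, q.1.2.2))
    (by fun_prop)

lemma EF_scale (f : ℝ → ℝ × ℝ → ℂ) {ρ : ℝ} (hρ : 0 < ρ) (t y : ℝ) (x : ℝ × ℝ) :
    EF (fun a => (Ap ρ).indicator (f a)) t y x =
      (ρ ^ 2 : ℝ) * EA (fun a => Fr (f a) ρ) (ρ ^ 2) t y (ρ • x) := by
  unfold EF EA
  have e1 : (fun a => Ext ((Ap ρ).indicator (f a)) t x) = fun a =>
      (ρ ^ 2 : ℝ) * Ext (pf (fA (Fr (f a) ρ))) (ρ ^ 2 * t) (ρ • x) := by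
    ext a
    exact Ext_scale (f a) hρ t x
  rw [e1]
  unfold E1
  rw [← integral_const_mul]
  congr 1
  ext a
  ring

lemma EA_meas {F : ℝ → ℝ → ℝ → ℂ} (hF : Measurable fun q : ℝ × ℝ × ℝ => F q.1 q.2.1 q.2.2)
    (l : ℝ) : Measurable fun q : ℝ × ℝ × (ℝ × ℝ) => EA F l q.1 q.2.1 q.2.2 := by
  have h1 : Measurable fun q : ℝ × (ℝ × ℝ) => pf (fA (F q.1)) q.2 := by
    unfold pf fA ext2
    refine Measurable.mul ?_ ?_
    · exact ia_BM.meas.comp (f := fun q : ℝ × (ℝ × ℝ) => q.2.1 ^ 2 + q.2.2 ^ 2) (by fun_prop)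
    · have m1 : Measurable fun q : ℝ × (ℝ × ℝ) => (polarCoord q.2).2 := by
        have : Measurable fun ξ : ℝ × ℝ => (polarCoord ξ).2 :=
          (Complex.measurable_arg.comp (Complex.measurableEquivRealProd.symm.measurable))
        exact this.comp measurable_snd
      have m2 : Measurable fun q : ℝ × (ℝ × ℝ) => √(max (q.2.1 ^ 2 + q.2.2 ^ 2) (1 / 4)) := by
        fun_prop
      exact hF.comp (measurable_fst.prodMk (m1.prodMk m2))
  unfold EA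
  refine E1_jm (X := ℝ × ℝ × (ℝ × ℝ)) (G := fun p a => Ext (pf (fA (F a))) (l * p.1) p.2.2)
    ?_ (by fun_prop) (by fun_prop)
  exact (ExtP_jm (f := fun a => pf (fA (F a))) h1).comp
    (f := fun q : (ℝ × ℝ × (ℝ × ℝ)) × ℝ => (q.2, l * q.1.1, q.1.2.2))
    (by fun_prop)

/-- an annulus of any size -/
theorem annSP {p m : ℝ} (hp2 : 2 < p) (hp : p < 10 / 3) (hm : 0 ≤ m)
    (hs : (4 - p) / 2 < (p - 2) + m) : ∃ e : ℝ, 0 < e ∧ ∀ R : ℝ, 0 < R → ∃ C : ℝ, 0 < C ∧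
    ∀ (f : ℝ → ℝ × ℝ → ℂ) (v : ℝ → ℝ × ℝ → ℝ≥0∞),
    (Measurable fun q : ℝ × (ℝ × ℝ) => f q.1 q.2) → (Measurable fun q : ℝ × (ℝ × ℝ) => v q.1 q.2) →
    (∀ a ξ, R ^ 2 < nsq ξ → f a ξ = 0) → (∀ a, 1 < |a| → ∀ ξ, f a ξ = 0) →
    (∀ a ξ, eVariationOn (fun s : ℝ => f a (s • ξ)) (Ici 1) ≤ v a ξ) → ∀ ρ : ℝ, 0 < ρ → ρ ≤ R →
    ∫⁻ t, ENNReal.ofReal ((1 + |t|) ^ (-m)) *
      (∫⁻ y, ∫⁻ x : ℝ × ℝ, ‖EF (fun a => (Ap ρ).indicator (f a)) t y x‖ₑ ^ p) ≤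
      ENNReal.ofReal (C * ρ ^ e) * ∫⁻ a, (∫⁻ ξ, v a ξ ^ p) := by
  obtain ⟨e, he0, he1, C, hC, hA⟩ := annEP hp2 hp hm hs
  have hp0 : 0 < p := by linarith
  have hp2' : 0 < p - 2 := by linarith
  set s : ℝ := (2 - e) * ((p - 2) / 2) with hsd
  refine ⟨e * (p - 2), by positivity, ?_⟩
  intro R hR0
  refine ⟨32 / 3 * C * (1 + R ^ 2) ^ s, by positivity, ?_⟩
  intro f v hf hvm hR hf0 hv ρ hρ hρR
  set κ : ℝ := ρ ^ 2 / (1 + R ^ 2) with hκ
  have hκ0 : 0 < κ := by positivity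
  have hκl : κ ≤ ρ ^ 2 := div_le_self (by positivity) (by nlinarith)
  have hκ1 : κ ≤ 1 := by
    rw [hκ, div_le_one (by positivity)]
    nlinarith
  set F : ℝ → ℝ → ℝ → ℂ := fun a => Fr (f a) ρ with hFd
  have hFm : Measurable fun q : ℝ × ℝ × ℝ => F q.1 q.2.1 q.2.2 := by
    rw [hFd]
    unfold Fr
    exact hf.comp (f := fun q : ℝ × ℝ × ℝ => (q.1, (ρ * q.2.2 * Real.cos q.2.1,
      ρ * q.2.2 * Real.sin q.2.1))) (by fun_prop)
  have hFz : ∃ R', ∀ a θ r, R' < r → F a θ r = 0 := by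
    refine ⟨|R| / ρ, fun a θ r hr => hR _ _ ?_⟩
    have h1 : |R| < ρ * r := by
      rw [div_lt_iff₀ hρ] at hr
      linarith
    have h2 : nsq (ρ * r * Real.cos θ, ρ * r * Real.sin θ) = (ρ * r) ^ 2 := by
      unfold nsq
      have := Real.sin_sq_add_cos_sq θ
      simp only
      linear_combination (ρ * r) ^ 2 * this
    rw [h2, ← sq_abs R]
    exact pow_lt_pow_left₀ h1 (abs_nonneg _) two_ne_zero
  have hF0 : ∀ a, 1 < |a| → ∀ θ r, F a θ r = 0 := fun a ha θ r => hf0 a ha _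
  set w : ℝ → ℝ≥0∞ := fun t => ENNReal.ofReal ((1 + |t|) ^ (-m)) with hw
  set X := ∫⁻ t, w t * (∫⁻ y, ∫⁻ x : ℝ × ℝ, ‖EA F (ρ ^ 2) t y x‖ₑ ^ p) with hX
  have hvp : Measurable fun q : ℝ × (ℝ × ℝ) => v q.1 (ρ • q.2) ^ p :=
    (hvm.comp (f := fun q : ℝ × (ℝ × ℝ) => (q.1, ρ • q.2)) (by fun_prop)).pow_const p
  have h1 : ∀ σ ∈ Ioo (1 / 4 : ℝ) (1 / 2), X ≤ ENNReal.ofReal (C * κ ^ (-s)) *
      ∫⁻ a, (∫⁻ θ, v a (ρ • (σ * Real.cos θ, σ * Real.sin θ)) ^ p ∂mu) := by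
    intro σ hσ
    have hσ1 : (1 / 4 : ℝ) < σ := hσ.1
    have hσ2 : σ < 1 / 2 := hσ.2
    refine hA F (fun a θ => v a (ρ • (σ * Real.cos θ, σ * Real.sin θ))) hFm
      (hvm.comp (f := fun q : ℝ × ℝ => (q.1, ρ • (σ * Real.cos q.2, σ * Real.sin q.2))) ?_)
      hFz hF0 (fun a θ => Fr_var (hv a) ρ (by linarith) (by linarith) θ) (ρ ^ 2) κ hκ0 hκ1 hκl
    apply Continuous.measurable
    fun_prop
  have h2 : ENNReal.ofReal (3 / 32) * X ≤ ENNReal.ofReal (C * κ ^ (-s)) *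
      ∫⁻ a, (∫⁻ ξ, v a (ρ • ξ) ^ p) := by
    have e1 : ENNReal.ofReal (3 / 32) = ∫⁻ σ in Ioo (1 / 4 : ℝ) (1 / 2), ENNReal.ofReal σ := by
      rw [← ofReal_integral_eq_lintegral_ofReal]
      · congr 1
        rw [← integral_Ioc_eq_integral_Ioo, ← intervalIntegral.integral_of_le (by norm_num),
          integral_id]
        norm_num
      · exact (continuous_id.integrableOn_Icc).mono_set Ioo_subset_Icc_self
      · refine (ae_restrict_iff' measurableSet_Ioo).2 (ae_of_all _ fun σ hσ => ?_)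
        have : (1 / 4 : ℝ) < σ := hσ.1
        change (0:ℝ) ≤ σ
        linarith
    have mj : Measurable fun q : ℝ × ℝ => ∫⁻ θ,
        v q.2 (ρ • (q.1 * Real.cos θ, q.1 * Real.sin θ)) ^ p ∂mu := by
      have m1 : Measurable fun q : (ℝ × ℝ) × ℝ =>
          v q.1.2 (ρ • (q.1.1 * Real.cos q.2, q.1.1 * Real.sin q.2)) ^ p := by
        refine (hvm.comp (f := fun q : (ℝ × ℝ) × ℝ =>
          (q.1.2, ρ • (q.1.1 * Real.cos q.2, q.1.1 * Real.sin q.2))) ?_).pow_const p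
        apply Continuous.measurable
        fun_prop
      exact m1.lintegral_prod_right'
    rw [e1, ← lintegral_mul_const _ (by fun_prop)]
    calc ∫⁻ σ in Ioo (1 / 4 : ℝ) (1 / 2), ENNReal.ofReal σ * X
        ≤ ∫⁻ σ in Ioo (1 / 4 : ℝ) (1 / 2), ENNReal.ofReal (C * κ ^ (-s)) * (∫⁻ a,
          ENNReal.ofReal σ * ∫⁻ θ, v a (ρ • (σ * Real.cos θ, σ * Real.sin θ)) ^ p ∂mu) := by
          apply setLIntegral_mono' measurableSet_Ioo
          intro σ hσ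
          rw [lintegral_const_mul' _ _ ENNReal.ofReal_ne_top, mul_left_comm]
          exact mul_le_mul' le_rfl (h1 σ hσ)
      _ = ENNReal.ofReal (C * κ ^ (-s)) * ∫⁻ σ in Ioo (1 / 4 : ℝ) (1 / 2), (∫⁻ a,
          ENNReal.ofReal σ * ∫⁻ θ, v a (ρ • (σ * Real.cos θ, σ * Real.sin θ)) ^ p ∂mu) :=
          lintegral_const_mul' _ _ ENNReal.ofReal_ne_top
      _ = ENNReal.ofReal (C * κ ^ (-s)) * ∫⁻ a, (∫⁻ σ in Ioo (1 / 4 : ℝ) (1 / 2),
          ENNReal.ofReal σ * ∫⁻ θ, v a (ρ • (σ * Real.cos θ, σ * Real.sin θ)) ^ p ∂mu) := by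
          congr 1
          refine lintegral_lintegral_swap ?_
          have m2 : Measurable fun q : ℝ × ℝ => ENNReal.ofReal q.1 * ∫⁻ θ,
              v q.2 (ρ • (q.1 * Real.cos θ, q.1 * Real.sin θ)) ^ p ∂mu :=
            (by fun_prop : Measurable fun q : ℝ × ℝ => ENNReal.ofReal q.1).mul mj
          exact m2.aemeasurable
      _ ≤ _ := by
          refine mul_le_mul' le_rfl (lintegral_mono fun a => ?_)
          exact polar_avg (hvp.comp (f := fun ξ : ℝ × ℝ => (a, ξ)) (by fun_prop))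
  have hvs : ∀ a, Measurable (v a) := fun a =>
    hvm.comp (f := fun ξ : ℝ × ℝ => (a, ξ)) (by fun_prop)
  have h3 : X ≤ ENNReal.ofReal (32 / 3 * C * κ ^ (-s) * (ρ ^ 2)⁻¹) *
      ∫⁻ a, (∫⁻ ξ, v a ξ ^ p) := by
    have e1 : ∀ a, ∫⁻ ξ, v a (ρ • ξ) ^ p = ENNReal.ofReal (ρ ^ 2)⁻¹ * ∫⁻ ξ, v a ξ ^ p :=
      fun a => lint_scale2 hρ ((hvs a).pow_const p)
    simp only [e1] at h2
    rw [lintegral_const_mul' _ _ ENNReal.ofReal_ne_top] at h2
    calc X = ENNReal.ofReal (32 / 3) * (ENNReal.ofReal (3 / 32) * X) := by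
          rw [← mul_assoc, ← ENNReal.ofReal_mul (by norm_num)]
          norm_num
      _ ≤ ENNReal.ofReal (32 / 3) * (ENNReal.ofReal (C * κ ^ (-s)) *
          (ENNReal.ofReal (ρ ^ 2)⁻¹ * ∫⁻ a, (∫⁻ ξ, v a ξ ^ p))) := mul_le_mul' le_rfl h2
      _ = _ := by
          rw [← mul_assoc, ← mul_assoc, ← ENNReal.ofReal_mul (by norm_num),
            ← ENNReal.ofReal_mul (by positivity)]
          congr 2
          ring
  have hcst : (ENNReal.ofReal (ρ ^ 2) ^ p * ENNReal.ofReal (ρ ^ 2)⁻¹) ≠ ⊤ :=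
    ENNReal.mul_ne_top (ENNReal.rpow_ne_top_of_nonneg hp0.le ENNReal.ofReal_ne_top)
      ENNReal.ofReal_ne_top
  have h4 : ∀ t y, ∫⁻ x : ℝ × ℝ, ‖EF (fun a => (Ap ρ).indicator (f a)) t y x‖ₑ ^ p =
      (ENNReal.ofReal (ρ ^ 2) ^ p * ENNReal.ofReal (ρ ^ 2)⁻¹) *
        ∫⁻ x : ℝ × ℝ, ‖EA F (ρ ^ 2) t y x‖ₑ ^ p := by
    intro t y
    have hEm : Measurable fun x => ‖EA F (ρ ^ 2) t y x‖ₑ ^ p :=
      ((EA_meas hFm (ρ ^ 2)).comp (f := fun x : ℝ × ℝ => (t, y, x)) (by fun_prop)).enorm.pow_const p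
    calc ∫⁻ x : ℝ × ℝ, ‖EF (fun a => (Ap ρ).indicator (f a)) t y x‖ₑ ^ p
        = ∫⁻ x : ℝ × ℝ, ENNReal.ofReal (ρ ^ 2) ^ p *
          (fun x => ‖EA F (ρ ^ 2) t y x‖ₑ ^ p) (ρ • x) := by
          congr 1
          ext x
          rw [EF_scale f hρ, enorm_mul, ENNReal.mul_rpow_of_nonneg _ _ hp0.le,
            ← ofReal_norm (((ρ ^ 2 : ℝ)) : ℂ), Complex.norm_real, Real.norm_eq_abs,
            abs_of_pos (by positivity)]
      _ = _ := by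
          rw [lintegral_const_mul' _ _ (ENNReal.rpow_ne_top_of_nonneg hp0.le
            ENNReal.ofReal_ne_top), lint_scale2 hρ hEm, mul_assoc]
  have h5 : ∫⁻ t, w t * (∫⁻ y, ∫⁻ x : ℝ × ℝ,
      ‖EF (fun a => (Ap ρ).indicator (f a)) t y x‖ₑ ^ p) =
      (ENNReal.ofReal (ρ ^ 2) ^ p * ENNReal.ofReal (ρ ^ 2)⁻¹) * X := by
    rw [hX, ← lintegral_const_mul' _ _ hcst]
    congr 1
    ext t
    simp only [h4]
    rw [lintegral_const_mul' _ _ hcst]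
    ring
  rw [h5]
  refine (mul_le_mul' le_rfl h3).trans (le_of_eq ?_)
  rw [ENNReal.ofReal_rpow_of_pos (by positivity), ← ENNReal.ofReal_mul (by positivity), ← mul_assoc,
    ← ENNReal.ofReal_mul (by positivity)]
  congr 2
  have e1 : κ ^ (-s) = ρ ^ (-(2 * s)) * (1 + R ^ 2) ^ s := by
    rw [hκ, Real.div_rpow (by positivity) (by positivity), Real.rpow_neg (x := 1 + R ^ 2)
      (by positivity), div_inv_eq_mul]
    congr 1
    rw [← Real.rpow_natCast ρ 2, ← Real.rpow_mul hρ.le]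
    congr 1
    push_cast
    ring
  have e2 : (ρ ^ 2) ^ p = ρ ^ (2 * p) := by
    rw [← Real.rpow_natCast ρ 2, ← Real.rpow_mul hρ.le]
    congr 1
  have e3 : (ρ ^ 2)⁻¹ = ρ ^ (-(2:ℝ)) := by
    rw [Real.rpow_neg hρ.le]
    congr 1
    rw [← Real.rpow_natCast ρ 2]
    norm_num
  have e4 : ρ ^ (e * (p - 2)) = ρ ^ (2 * p) * ρ ^ (-(2:ℝ)) * ρ ^ (-(2 * s)) * ρ ^ (-(2:ℝ)) := by
    rw [← Real.rpow_add hρ, ← Real.rpow_add hρ, ← Real.rpow_add hρ]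
    congr 1
    rw [hsd]
    ring
  rw [e1, e2, e3, e4]
  ring

end Pool.Agent.R245.PC
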