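import Mathlib
import Pool.Agent.R245.PC.C7
set_option autoImplicit false

/-! Summation over the annuli, with a rough parameter. -/

namespace Pool.Agent.R245.PC

open Pool.Agent.R245.PB MeasureTheory Set Complex Filter Real
open scoped ENNReal Topology

/-- the kernel -/
noncomputable def kq (t y : ℝ) (x : ℝ × ℝ) (q : ℝ × (ℝ × ℝ)) : ℂ :=
  ec (q.2.1 * x.1 + q.2.2 * x.2 + (q.2.1 ^ 2 + q.2.2 ^ 2) * t) * ec (q.1 * y + q.1 ^ 2 * t)

lemma kq_norm (t y : ℝ) (x : ℝ × ℝ) (q : ℝ × (ℝ × ℝ)) : ‖kq t y x q‖ = 1 := by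
  unfold kq
  rw [norm_mul, ec_norm, ec_norm, one_mul]

lemma kq_meas (t y : ℝ) (x : ℝ × ℝ) : Measurable (kq t y x) := by
  unfold kq
  refine Measurable.mul (ec_meas.comp ?_) (ec_meas.comp ?_)
  · apply Continuous.measurable
    fun_prop
  · apply Continuous.measurable
    fun_prop

lemma kq_int {f : ℝ → ℝ × ℝ → ℂ} (hf : Integrable fun q : ℝ × (ℝ × ℝ) => f q.1 q.2) (t y : ℝ)
    (x : ℝ × ℝ) : Integrable fun q : ℝ × (ℝ × ℝ) => f q.1 q.2 * kq t y x q :=
  hf.mul_bdd (c := 1) (kq_meas t y x).aestronglyMeasurable (ae_of_all _ fun s => (kq_norm _ _ _ _).le)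

lemma EF_prod {f : ℝ → ℝ × ℝ → ℂ} (hf : Integrable fun q : ℝ × (ℝ × ℝ) => f q.1 q.2) (t y : ℝ)
    (x : ℝ × ℝ) : EF f t y x = ∫ q : ℝ × (ℝ × ℝ), f q.1 q.2 * kq t y x q := by
  have h1 := kq_int hf t y x
  have hv : (volume : Measure (ℝ × (ℝ × ℝ))) = volume.prod volume := rfl
  rw [hv] at h1 ⊢
  rw [integral_prod _ h1]
  unfold EF E1 Pool.Agent.R245.PB.Ext kq
  congr 1
  ext a
  rw [← integral_mul_const]
  congr 1
  ext ξ
  ring

/-- the main estimate at the origin and unit scale, with a weight in time -/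
theorem main0P {p m : ℝ} (hp2 : 2 < p) (hp : p < 10 / 3) (hm : 0 ≤ m)
    (hs : (4 - p) / 2 < (p - 2) + m) (R : ℝ) (hR0 : 0 < R) : ∃ C : ℝ, 0 < C ∧
    ∀ (f : ℝ → ℝ × ℝ → ℂ) (v : ℝ → ℝ × ℝ → ℝ≥0∞),
    (Measurable fun q : ℝ × (ℝ × ℝ) => f q.1 q.2) → (Measurable fun q : ℝ × (ℝ × ℝ) => v q.1 q.2) →
    (∀ a ξ, R ^ 2 < nsq ξ → f a ξ = 0) → (∀ a, 1 < |a| → ∀ ξ, f a ξ = 0) →
    (∀ a ξ, eVariationOn (fun s : ℝ => f a (s • ξ)) (Ici 1) ≤ v a ξ) →
    ∫⁻ t, ENNReal.ofReal ((1 + |t|) ^ (-m)) * (∫⁻ y, ∫⁻ x : ℝ × ℝ, ‖EF f t y x‖ₑ ^ p) ≤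
      ENNReal.ofReal C * ∫⁻ a, (∫⁻ ξ, v a ξ ^ p) := by
  obtain ⟨e, he0, hA'⟩ := annSP hp2 hp hm hs
  obtain ⟨C, hC, hA⟩ := hA' R hR0
  have hp0 : 0 < p := by linarith
  set γ : ℝ := e / p with hγ
  have hγ0 : 0 < γ := div_pos he0 hp0
  set q : ℝ := (1 / 2 : ℝ) ^ γ with hq
  have hq0 : 0 < q := by positivity
  have hq1 : q < 1 := Real.rpow_lt_one (by norm_num) (by norm_num) hγ0
  have h1q : 0 < 1 - q := by linarith
  refine ⟨C * R ^ e * ((1 - q)⁻¹) ^ p, by positivity, ?_⟩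
  intro f v hf hvm hR hf0 hv
  set Z := ∫⁻ a, (∫⁻ ξ, v a ξ ^ p) with hZ
  by_cases htop : Z = ⊤
  · rw [htop, ENNReal.mul_top]
    · exact le_top
    · simp only [ne_eq, ENNReal.ofReal_eq_zero, not_le]
      positivity
  -- integrability of `f`
  set B : Set (ℝ × (ℝ × ℝ)) := Icc (-1:ℝ) 1 ×ˢ {ξ | nsq ξ ≤ R ^ 2} with hB
  have hBm : MeasurableSet B := measurableSet_Icc.prod (measurableSet_le nsq_meas measurable_const)
  have hBfin : volume B < ⊤ := by
    have hsub : B ⊆ Icc (-1:ℝ) 1 ×ˢ (Icc (-R) R ×ˢ Icc (-R) R) := by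
      rintro ⟨a, ξ⟩ ⟨ha, hξ⟩
      refine ⟨ha, ?_⟩
      have h1 : ξ.1 ^ 2 + ξ.2 ^ 2 ≤ R ^ 2 := hξ
      refine ⟨abs_le.1 (abs_le_of_sq_le_sq (by nlinarith [sq_nonneg ξ.2]) hR0.le),
        abs_le.1 (abs_le_of_sq_le_sq (by nlinarith [sq_nonneg ξ.1]) hR0.le)⟩
    refine lt_of_le_of_lt (measure_mono hsub) ?_
    rw [Measure.volume_eq_prod, Measure.volume_eq_prod, Measure.prod_prod, Measure.prod_prod,
      Real.volume_Icc, Real.volume_Icc]
    exact ENNReal.mul_lt_top ENNReal.ofReal_lt_top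
      (ENNReal.mul_lt_top ENNReal.ofReal_lt_top ENNReal.ofReal_lt_top)
  have hvol : (volume : Measure (ℝ × (ℝ × ℝ))) = volume.prod volume := rfl
  have hnull : ∀ᵐ q : ℝ × (ℝ × ℝ), 0 < nsq q.2 := by
    have h1 : Measurable fun q : ℝ × (ℝ × ℝ) => nsq q.2 := nsq_meas.comp measurable_snd
    rw [hvol]
    exact Measure.ae_prod_iff_ae_ae (measurableSet_lt measurable_const h1) |>.2
      (ae_of_all _ fun a => nsq_null)
  have hfI : Integrable fun q : ℝ × (ℝ × ℝ) => f q.1 q.2 := by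
    refine ⟨hf.aestronglyMeasurable, ?_⟩
    have e1 : ∫⁻ q : ℝ × (ℝ × ℝ), ‖f q.1 q.2‖ₑ = ∫⁻ q in B, ‖f q.1 q.2‖ₑ := by
      rw [← lintegral_indicator hBm]
      congr 1
      ext q
      by_cases hq : q ∈ B
      · rw [indicator_of_mem hq]
      · rw [indicator_of_notMem hq]
        by_cases h1 : q.1 ∈ Icc (-1:ℝ) 1
        · have h2 : R ^ 2 < nsq q.2 := by
            by_contra hc
            exact hq ⟨h1, not_lt.1 hc⟩
          rw [hR _ _ h2, enorm_zero]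
        · rw [hf0 q.1 (by rw [← not_le, abs_le]; exact h1), enorm_zero]
    have j1 := Pool.Agent.H438R2.PD.A5.jensenp (volume.restrict B)
      (fun q : ℝ × (ℝ × ℝ) => ‖f q.1 q.2‖ₑ) hf.enorm.aemeasurable p (by linarith)
    have j2 : ∫⁻ q in B, ‖f q.1 q.2‖ₑ ^ p ≤ Z := by
      have e2 : Z = ∫⁻ q : ℝ × (ℝ × ℝ), v q.1 q.2 ^ p := by
        rw [hvol, lintegral_prod _ (hvm.pow_const p).aemeasurable]
      rw [e2]
      refine (setLIntegral_le_lintegral _ _).trans ?_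
      apply lintegral_mono_ae
      filter_upwards [hnull] with q hq
      exact ENNReal.rpow_le_rpow (f_le_v (hR q.1) (hv q.1) hq) hp0.le
    change ∫⁻ q : ℝ × (ℝ × ℝ), ‖f q.1 q.2‖ₑ < ⊤
    rw [e1]
    by_contra hc
    have h2 : ∫⁻ q in B, ‖f q.1 q.2‖ₑ = ⊤ := by simpa using hc
    rw [h2, ENNReal.top_rpow_of_pos hp0, Measure.restrict_apply_univ] at j1
    have h3 : (volume B) ^ (p - 1) * ∫⁻ q in B, ‖f q.1 q.2‖ₑ ^ p < ⊤ := by
      apply ENNReal.mul_lt_top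
      · exact ENNReal.rpow_lt_top_of_nonneg (by linarith) hBfin.ne
      · exact lt_of_le_of_lt j2 (lt_top_iff_ne_top.2 htop)
    exact absurd (lt_of_le_of_lt j1 h3) (by simp)
  -- the pieces
  set S : ℕ → Set (ℝ × (ℝ × ℝ)) := fun k => univ ×ˢ Ap (rk R k) with hS
  have hSm : ∀ k, MeasurableSet (S k) := fun k => MeasurableSet.univ.prod (Ap_meas _)
  have hSd : Pairwise (Function.onFun Disjoint S) := by
    intro j k hjk
    have h1 : Disjoint (Ap (rk R j)) (Ap (rk R k)) := Ap_disj hR0 hjk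
    rw [Function.onFun, Set.disjoint_left]
    rintro ⟨a, ξ⟩ ⟨-, h2⟩ ⟨-, h3⟩
    exact Set.disjoint_left.1 h1 h2 h3
  have hpm : ∀ k, Measurable fun q : ℝ × (ℝ × ℝ) => (Ap (rk R k)).indicator (f q.1) q.2 := by
    intro k
    have e1 : (fun q : ℝ × (ℝ × ℝ) => (Ap (rk R k)).indicator (f q.1) q.2) =
        (S k).indicator fun q : ℝ × (ℝ × ℝ) => f q.1 q.2 := by
      ext q
      by_cases hq : q.2 ∈ Ap (rk R k)
      · rw [indicator_of_mem hq, indicator_of_mem (show q ∈ S k from ⟨mem_univ _, hq⟩)]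
      · rw [indicator_of_notMem hq, indicator_of_notMem (fun h => hq h.2)]
    rw [e1]
    exact hf.indicator (hSm k)
  have hpi : ∀ k, Integrable fun q : ℝ × (ℝ × ℝ) => (Ap (rk R k)).indicator (f q.1) q.2 := by
    intro k
    refine hfI.mono (hpm k).aestronglyMeasurable (ae_of_all _ fun q => ?_)
    by_cases hq : q.2 ∈ Ap (rk R k)
    · rw [indicator_of_mem hq]
    · rw [indicator_of_notMem hq, norm_zero]
      exact norm_nonneg _
  -- the series
  have hser : ∀ t y x, ‖EF f t y x‖ₑ ≤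
      ∑' k : ℕ, ‖EF (fun a => (Ap (rk R k)).indicator (f a)) t y x‖ₑ := by
    intro t y x
    set g : ℝ × (ℝ × ℝ) → ℂ := fun q => f q.1 q.2 * kq t y x q with hg
    have hgI : Integrable g := kq_int hfI t y x
    have hsum := hasSum_integral_iUnion (f := g) hSm hSd hgI.integrableOn
    have e1 : ∀ k : ℕ, ∫ q in S k, g q =
        EF (fun a => (Ap (rk R k)).indicator (f a)) t y x := by
      intro k
      rw [← integral_indicator (hSm k), EF_prod (hpi k)]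
      congr 1
      ext q
      by_cases hq : q.2 ∈ Ap (rk R k)
      · rw [indicator_of_mem (show q ∈ S k from ⟨mem_univ _, hq⟩), indicator_of_mem hq]
      · rw [indicator_of_notMem (fun h => hq h.2), indicator_of_notMem hq, zero_mul]
    have e2 : ∫ q in ⋃ k : ℕ, S k, g q = EF f t y x := by
      rw [EF_prod hfI, ← integral_indicator (MeasurableSet.iUnion fun k => hSm k)]
      apply integral_congr_ae
      filter_upwards [hnull] with q hq
      by_cases hm : q ∈ ⋃ k : ℕ, S k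
      · rw [indicator_of_mem hm]
      · rw [indicator_of_notMem hm]
        have : R ^ 2 < nsq q.2 := by
          by_contra hc
          obtain ⟨k, hk⟩ := mem_iUnion.1 (Ap_union hR0 hq (not_lt.1 hc))
          exact hm (mem_iUnion.2 ⟨k, mem_univ _, hk⟩)
        rw [hR _ _ this, zero_mul]
    rw [e2] at hsum
    simp only [e1] at hsum
    have hlim := hsum.tendsto_sum_nat.enorm
    refine le_of_tendsto' hlim fun n => ?_
    exact (enorm_sum_le _ _).trans (ENNReal.sum_le_tsum _)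
  set w : ℝ → ℝ≥0∞ := fun t => ENNReal.ofReal ((1 + |t|) ^ (-m)) with hw
  have hwm : Measurable w := (Measurable.pow_const (by fun_prop) _).ennreal_ofReal
  set P : Measure (ℝ × ℝ × (ℝ × ℝ)) := (volume.withDensity w).prod (volume.prod volume) with hPd
  have hP3 : ∀ {F : ℝ × ℝ × (ℝ × ℝ) → ℝ≥0∞}, Measurable F → ∫⁻ z, F z ∂P =
      ∫⁻ t, w t * (∫⁻ y, ∫⁻ x : ℝ × ℝ, F (t, y, x)) := by
    intro F hF
    rw [hPd, lintegral_prod _ hF.aemeasurable, lintegral_withDensity_eq_lintegral_mul _ hwm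
      hF.lintegral_prod_right']
    congr 1
    ext t
    simp only [Pi.mul_apply]
    have : Measurable fun q : ℝ × (ℝ × ℝ) => F (t, q) := hF.comp (by fun_prop)
    rw [lintegral_prod _ this.aemeasurable]
  have hmk : ∀ k, Measurable fun z : ℝ × ℝ × (ℝ × ℝ) =>
      ‖EF (fun a => (Ap (rk R k)).indicator (f a)) z.1 z.2.1 z.2.2‖ₑ := fun k =>
    (EF_meas (f := fun a => (Ap (rk R k)).indicator (f a)) (hpm k)).enorm
  have hk : ∀ k : ℕ, (∫⁻ z, ‖EF (fun a => (Ap (rk R k)).indicator (f a)) z.1 z.2.1 z.2.2‖ₑ ^ p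
      ∂P) ^ (1 / p) ≤ (ENNReal.ofReal (C * R ^ e) * Z) ^ (1 / p) * ENNReal.ofReal (q ^ k) := by
    intro k
    have hrk : rk R k ≤ R := by
      unfold rk
      exact mul_le_of_le_one_right hR0.le (pow_le_one₀ (by norm_num) (by norm_num))
    have h1 := hA f v hf hvm hR hf0 hv (rk R k) (rk_pos hR0 k) hrk
    rw [hP3 ((hmk k).pow_const p)]
    refine (ENNReal.rpow_le_rpow h1 (by positivity)).trans (le_of_eq ?_)
    have e1 : C * rk R k ^ e = (C * R ^ e) * (q ^ k) ^ p := by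
      have e2 : (q ^ k) ^ p = ((1 / 2 : ℝ) ^ k) ^ e := by
        rw [hq, ← Real.rpow_natCast, ← Real.rpow_mul (by positivity),
          ← Real.rpow_mul (by positivity), ← Real.rpow_natCast, ← Real.rpow_mul (by positivity)]
        congr 1
        rw [hγ]
        field_simp
      rw [e2]
      unfold rk
      rw [Real.mul_rpow hR0.le (by positivity)]
      ring
    rw [e1, ENNReal.ofReal_mul (by positivity), mul_right_comm,
      ENNReal.mul_rpow_of_nonneg _ _ (by positivity)]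
    congr 1
    rw [← ENNReal.ofReal_rpow_of_nonneg (by positivity) hp0.le, ← ENNReal.rpow_mul,
      mul_one_div_cancel hp0.ne', ENNReal.rpow_one]
  have hsum : ∑' k : ℕ, ENNReal.ofReal (q ^ k) = ENNReal.ofReal ((1 - q)⁻¹) := by
    rw [← ENNReal.ofReal_tsum_of_nonneg (fun k => by positivity)
      (summable_geometric_of_lt_one hq0.le hq1), tsum_geometric_of_lt_one hq0.le hq1]
  calc ∫⁻ t, w t * (∫⁻ y, ∫⁻ x : ℝ × ℝ, ‖EF f t y x‖ₑ ^ p)
      = ∫⁻ z, ‖EF f z.1 z.2.1 z.2.2‖ₑ ^ p ∂P := by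
        rw [hP3 ((EF_meas hf).enorm.pow_const p)]
    _ ≤ ∫⁻ z, (∑' k : ℕ, ‖EF (fun a => (Ap (rk R k)).indicator (f a)) z.1 z.2.1 z.2.2‖ₑ) ^ p
        ∂P := by
        apply lintegral_mono
        intro z
        exact ENNReal.rpow_le_rpow (hser _ _ _) hp0.le
    _ ≤ (∑' k : ℕ, (∫⁻ z, ‖EF (fun a => (Ap (rk R k)).indicator (f a)) z.1 z.2.1 z.2.2‖ₑ ^ p
        ∂P) ^ (1 / p)) ^ p := Pool.Agent.TH335.RF.mink P p (by linarith) _ hmk
    _ ≤ (∑' k : ℕ, (ENNReal.ofReal (C * R ^ e) * Z) ^ (1 / p) * ENNReal.ofReal (q ^ k)) ^ p :=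
        ENNReal.rpow_le_rpow (ENNReal.tsum_le_tsum hk) hp0.le
    _ = _ := by
        rw [ENNReal.tsum_mul_left, hsum, ENNReal.mul_rpow_of_nonneg _ _ hp0.le, ← ENNReal.rpow_mul,
          one_div_mul_cancel hp0.ne', ENNReal.rpow_one,
          ENNReal.ofReal_rpow_of_nonneg (by positivity) hp0.le, mul_right_comm,
          ← ENNReal.ofReal_mul (by positivity)]

end Pool.Agent.R245.PC
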