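import Mathlib
import Pool.Agent.R245.PC.C8
import Pool.Agent.R245.PB.Gal
set_option autoImplicit false

/-! Coordinate free form. -/

namespace Pool.Agent.R245.PC

open Pool.Agent.R245.PB MeasureTheory Set Complex Filter Real
open scoped ENNReal Topology RealInnerProductSpace

/-- three dimensional space -/
abbrev V3 := EuclideanSpace ℝ (Fin 3)

/-- coordinates of the frequencies, first coordinate separated -/
noncomputable def cb : V3 ≃ᵐ ℝ × (ℝ × ℝ) :=
  ((MeasurableEquiv.toLp 2 (Fin 3 → ℝ)).symm.trans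
    (MeasurableEquiv.piFinSuccAbove (fun _ => ℝ) 0)).trans
      ((MeasurableEquiv.refl ℝ).prodCongr MeasurableEquiv.finTwoArrow)

lemma cb_apply (v : V3) : cb v = (v 0, (v 1, v 2)) := rfl

lemma cb_mp : MeasurePreserving cb (volume : Measure V3) volume := by
  have h1 := PiLp.volume_preserving_ofLp (Fin 3)
  have h2 := volume_preserving_piFinSuccAbove (fun _ : Fin 3 => ℝ) 0
  have h3 := (MeasurePreserving.id (volume : Measure ℝ)).prod (volume_preserving_finTwoArrow ℝ)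
  exact h3.comp (h2.comp h1)

/-- the extension operator on `ℝ^3` -/
noncomputable def ET (f : V3 → ℂ) (z : V3 × ℝ) : ℂ := ∫ ξ, f ξ * ec (⟪ξ, z.1⟫ + ‖ξ‖ ^ 2 * z.2)

lemma ET_meas {f : V3 → ℂ} (hf : Measurable f) : Measurable (ET f) := by
  unfold ET
  have h1 : Measurable fun q : (V3 × ℝ) × V3 => f q.2 * ec (⟪q.2, q.1.1⟫ + ‖q.2‖ ^ 2 * q.1.2) := by
    refine (hf.comp measurable_snd).mul (ec_meas.comp ?_)
    apply Continuous.measurable
    fun_prop
  exact (h1.stronglyMeasurable.integral_prod_right' (ν := (volume : Measure V3))).measurable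

/-- functions in coordinates -/
noncomputable def fc {β : Type*} (f : V3 → β) (a : ℝ) (ξ : ℝ × ℝ) : β := f (cb.symm (a, ξ))

lemma fc_meas {β : Type*} [MeasurableSpace β] {f : V3 → β} (hf : Measurable f) :
    Measurable fun q : ℝ × (ℝ × ℝ) => fc f q.1 q.2 := hf.comp cb.symm.measurable

lemma ET_EF {f : V3 → ℂ} (hfm : Measurable f) (hf : Integrable f) (x : V3) (t : ℝ) :
    ET f (x, t) = EF (fc f) t (x 0) (x 1, x 2) := by
  have hI : Integrable fun q : ℝ × (ℝ × ℝ) => fc f q.1 q.2 := by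
    have := (cb_mp.symm cb).integrable_comp_emb cb.symm.measurableEmbedding (g := f)
    exact this.2 hf
  rw [EF_prod hI]
  unfold ET
  rw [← cb_mp.integral_comp cb.measurableEmbedding]
  congr 1
  ext ξ
  beta_reduce
  unfold fc kq
  rw [Prod.mk.eta, MeasurableEquiv.symm_apply_apply]
  congr 1
  rw [← ec_add]
  congr 1
  rw [cb_apply, EuclideanSpace.norm_sq_eq, Fin.sum_univ_three, PiLp.inner_apply,
    Fin.sum_univ_three]
  simp
  ring

lemma ET_lint {f : V3 → ℂ} (hfm : Measurable f) (hf : Integrable f) (p : ℝ) :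
    ∫⁻ z, ‖ET f z‖ₑ ^ p = ∫⁻ t, ∫⁻ y, ∫⁻ x : ℝ × ℝ, ‖EF (fc f) t y x‖ₑ ^ p := by
  have hm : Measurable fun z : V3 × ℝ => ‖ET f z‖ₑ ^ p := (ET_meas hfm).enorm.pow_const p
  have hv : (volume : Measure (V3 × ℝ)) = volume.prod volume := rfl
  rw [hv, lintegral_prod_symm' _ hm]
  congr 1
  ext t
  have hm2 : Measurable fun q : ℝ × (ℝ × ℝ) => ‖EF (fc f) t q.1 q.2‖ₑ ^ p :=
    ((EF_meas (fc_meas hfm)).comp (f := fun q : ℝ × (ℝ × ℝ) => (t, q.1, q.2))
      (by fun_prop)).enorm.pow_const p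
  have e1 : ∫⁻ y, ∫⁻ x : ℝ × ℝ, ‖EF (fc f) t y x‖ₑ ^ p =
      ∫⁻ q : ℝ × (ℝ × ℝ), ‖EF (fc f) t q.1 q.2‖ₑ ^ p :=
    (lintegral_prod _ hm2.aemeasurable).symm
  rw [e1, ← cb_mp.lintegral_comp hm2]
  apply lintegral_congr
  intro x
  rw [ET_EF hfm hf]
  rfl

/-- the projection onto the axis -/
noncomputable def PA (c e ξ : V3) : V3 := c + ⟪ξ - c, e⟫ • e

lemma PA_split {e : V3} (he : ‖e‖ = 1) (c ξ : V3) (s : ℝ) :
    ‖(PA c e ξ + s • (ξ - PA c e ξ)) - c‖ ^ 2 =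
      ⟪ξ - c, e⟫ ^ 2 + s ^ 2 * ‖ξ - PA c e ξ‖ ^ 2 := by
  set η := ξ - c with hη
  set b : ℝ := ⟪η, e⟫ with hb
  have h1 : PA c e ξ = c + b • e := rfl
  have h2 : ξ - PA c e ξ = η - b • e := by
    rw [h1, hη]
    abel
  have h3 : (PA c e ξ + s • (ξ - PA c e ξ)) - c = b • e + s • (η - b • e) := by
    rw [h2, h1]
    abel
  have h4 : ⟪b • e, s • (η - b • e)⟫ = 0 := by
    rw [inner_smul_left, inner_smul_right, inner_sub_right, inner_smul_right,
      real_inner_self_eq_norm_sq, he, real_inner_comm, ← hb]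
    simp
  rw [h3, h2, norm_add_sq_real, h4, norm_smul, norm_smul, he, mul_pow, mul_pow, Real.norm_eq_abs,
    Real.norm_eq_abs, sq_abs, sq_abs]
  ring

lemma PA_pyth {e : V3} (he : ‖e‖ = 1) (c ξ : V3) :
    ‖ξ - c‖ ^ 2 = ⟪ξ - c, e⟫ ^ 2 + ‖ξ - PA c e ξ‖ ^ 2 := by
  have h := PA_split he c ξ 1
  rw [one_smul, one_pow, one_mul, add_sub_cancel] at h
  exact h

/-- the majorant dominates the function off the axis -/
lemma ax_le {e : V3} (he : ‖e‖ = 1) {c : V3} {R : ℝ} {f : V3 → ℂ} {v : V3 → ℝ≥0∞}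
    (hR : ∀ ξ, R < ‖ξ - c‖ → f ξ = 0)
    (hv : ∀ ξ, eVariationOn (fun s : ℝ => f (PA c e ξ + s • (ξ - PA c e ξ))) (Ici 1) ≤ v ξ)
    {ξ : V3} (h0 : ξ ≠ PA c e ξ) : ‖f ξ‖ₑ ≤ v ξ := by
  have hd : 0 < ‖ξ - PA c e ξ‖ := norm_pos_iff.2 (sub_ne_zero.2 h0)
  set d := ‖ξ - PA c e ξ‖ with hdd
  set s : ℝ := max 1 ((|R| + 1) / d) with hs
  have hs1 : 1 ≤ s := le_max_left _ _
  have h1 := eVariationOn.edist_le (fun s : ℝ => f (PA c e ξ + s • (ξ - PA c e ξ))) (s := Ici 1)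
    (x := 1) (y := s) (mem_Ici.2 le_rfl) (mem_Ici.2 hs1)
  have h2 : f (PA c e ξ + s • (ξ - PA c e ξ)) = 0 := by
    apply hR
    have h3 := PA_split he c ξ s
    rw [← hdd] at h3
    have h4 : (|R| + 1) / d ≤ s := le_max_right _ _
    rw [div_le_iff₀ hd] at h4
    have h5 : (|R| + 1) ^ 2 ≤ ‖PA c e ξ + s • (ξ - PA c e ξ) - c‖ ^ 2 := by
      rw [h3, ← mul_pow]
      have := pow_le_pow_left₀ (by positivity) h4 2
      nlinarith [sq_nonneg (⟪ξ - c, e⟫ : ℝ)]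
    have h6 := abs_le_of_sq_le_sq' (a := |R| + 1) h5 (norm_nonneg _)
    have h7 : |R| + 1 ≤ ‖PA c e ξ + s • (ξ - PA c e ξ) - c‖ := h6.2
    linarith [le_abs_self R]
  simp only [one_smul, h2, edist_zero_right, add_sub_cancel] at h1
  exact h1.trans (hv ξ)

lemma ax_null {e : V3} (he : ‖e‖ = 1) (c : V3) : ∀ᵐ ξ : V3, ξ ≠ PA c e ξ := by
  have h1 : (AffineSubspace.mk' c (Submodule.span ℝ {e}) : Set V3) ⊇ {ξ | ξ = PA c e ξ} := by
    intro ξ hξ
    have h2 : ξ = c + ⟪ξ - c, e⟫ • e := hξ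
    rw [SetLike.mem_coe, AffineSubspace.mem_mk', vsub_eq_sub, Submodule.mem_span_singleton]
    refine ⟨⟪ξ - c, e⟫, ?_⟩
    nth_rewrite 2 [h2]
    abel
  have h3 : (volume : Measure V3) (AffineSubspace.mk' c (Submodule.span ℝ {e}) : Set V3) = 0 := by
    apply Measure.addHaar_affineSubspace
    intro h
    have h4 : (AffineSubspace.mk' c (Submodule.span ℝ {e})).direction = ⊤ := by
      rw [h, AffineSubspace.direction_top]
    rw [AffineSubspace.direction_mk'] at h4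
    have h5 : Module.finrank ℝ (Submodule.span ℝ {e}) ≤ 1 := by
      refine (finrank_span_le_card {e}).trans ?_
      simp
    rw [h4, finrank_top, finrank_euclideanSpace_fin] at h5
    omega
  rw [ae_iff]
  refine measure_mono_null ?_ h3
  intro ξ hξ
  simp only [ne_eq, not_not, mem_setOf_eq] at hξ
  exact h1 hξ

/-- integrability -/
lemma ax_int {e : V3} (he : ‖e‖ = 1) {c : V3} {R : ℝ} {f : V3 → ℂ} {v : V3 → ℝ≥0∞}
    (hf : Measurable f) (hR : ∀ ξ, R < ‖ξ - c‖ → f ξ = 0)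
    (hv : ∀ ξ, eVariationOn (fun s : ℝ => f (PA c e ξ + s • (ξ - PA c e ξ))) (Ici 1) ≤ v ξ)
    {p : ℝ} (hp : 1 < p) (hZ : ∫⁻ ξ, v ξ ^ p < ⊤) : Integrable f := by
  have hp0 : 0 < p := by linarith
  set B : Set V3 := Metric.closedBall c R with hB
  have hBm : MeasurableSet B := Metric.isClosed_closedBall.measurableSet
  have hBfin : volume B < ⊤ := measure_closedBall_lt_top
  refine ⟨hf.aestronglyMeasurable, ?_⟩
  have e1 : ∫⁻ ξ, ‖f ξ‖ₑ = ∫⁻ ξ in B, ‖f ξ‖ₑ := by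
    rw [← lintegral_indicator hBm]
    congr 1
    ext ξ
    by_cases hq : ξ ∈ B
    · rw [indicator_of_mem hq]
    · rw [indicator_of_notMem hq]
      have : R < ‖ξ - c‖ := by
        rw [hB, Metric.mem_closedBall, dist_eq_norm] at hq
        exact not_le.1 hq
      rw [hR ξ this, enorm_zero]
  have j1 := Pool.Agent.H438R2.PD.A5.jensenp (volume.restrict B)
    (fun ξ : V3 => ‖f ξ‖ₑ) hf.enorm.aemeasurable p hp
  have j2 : ∫⁻ ξ in B, ‖f ξ‖ₑ ^ p ≤ ∫⁻ ξ, v ξ ^ p := by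
    refine (setLIntegral_le_lintegral _ _).trans ?_
    apply lintegral_mono_ae
    filter_upwards [ax_null he c] with ξ hξ
    exact ENNReal.rpow_le_rpow (ax_le he hR hv hξ) hp0.le
  change ∫⁻ ξ, ‖f ξ‖ₑ < ⊤
  rw [e1]
  by_contra hc
  have h2 : ∫⁻ ξ in B, ‖f ξ‖ₑ = ⊤ := by simpa using hc
  rw [h2, ENNReal.top_rpow_of_pos hp0, Measure.restrict_apply_univ] at j1
  have h3 : (volume B) ^ (p - 1) * ∫⁻ ξ in B, ‖f ξ‖ₑ ^ p < ⊤ := by
    apply ENNReal.mul_lt_top
    · exact ENNReal.rpow_lt_top_of_nonneg (by linarith) hBfin.ne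
    · exact lt_of_le_of_lt j2 hZ
  exact absurd (lt_of_le_of_lt j1 h3) (by simp)

/-- the first basis vector -/
noncomputable def e0 : V3 := EuclideanSpace.single 0 1

lemma e0_norm : ‖e0‖ = 1 := by simp [e0]

lemma inner_e0 (ξ : V3) : ⟪ξ, e0⟫ = ξ 0 := by
  unfold e0
  rw [EuclideanSpace.inner_single_right]
  simp

/-- the estimate for the coordinate axis and the unit ball -/
theorem mainU {p : ℝ} (hp : 8 / 3 < p) (hp' : p < 10 / 3) : ∃ C : ℝ, 0 < C ∧
    ∀ (f : V3 → ℂ) (v : V3 → ℝ≥0∞), Measurable f → Measurable v → (∀ ξ, 1 < ‖ξ‖ → f ξ = 0) →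
    (∀ ξ, eVariationOn (fun s : ℝ => f (PA 0 e0 ξ + s • (ξ - PA 0 e0 ξ))) (Ici 1) ≤ v ξ) →
    ∫⁻ z, ‖ET f z‖ₑ ^ p ≤ ENNReal.ofReal C * ∫⁻ ξ, v ξ ^ p := by
  obtain ⟨C, hC, hM⟩ := main0P (p := p) (m := 0) (by linarith) hp' le_rfl (by linarith) 1 one_pos
  refine ⟨C, hC, ?_⟩
  intro f v hf hvm hR hv
  by_cases htop : ∫⁻ ξ, v ξ ^ p = ⊤
  · rw [htop, ENNReal.mul_top]
    · exact le_top
    · simp only [ne_eq, ENNReal.ofReal_eq_zero, not_le]
      exact hC
  have hR' : ∀ ξ, 1 < ‖ξ - 0‖ → f ξ = 0 := by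
    intro ξ hξ
    rw [sub_zero] at hξ
    exact hR ξ hξ
  have hfI : Integrable f := ax_int e0_norm hf hR' hv (by linarith) (lt_top_iff_ne_top.2 htop)
  rw [ET_lint hf hfI]
  have hn : ∀ (a : ℝ) (ξ : ℝ × ℝ), ‖cb.symm (a, ξ)‖ ^ 2 = a ^ 2 + nsq ξ := by
    intro a ξ
    set w := cb.symm (a, ξ) with hw
    have h1 : cb w = (a, ξ) := by rw [hw, MeasurableEquiv.apply_symm_apply]
    rw [cb_apply] at h1
    have h2 : w 0 = a := congrArg Prod.fst h1
    have h3 : w 1 = ξ.1 := congrArg (fun q => q.2.1) h1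
    have h4 : w 2 = ξ.2 := congrArg (fun q => q.2.2) h1
    rw [EuclideanSpace.norm_sq_eq, Fin.sum_univ_three]
    unfold nsq
    simp only [Real.norm_eq_abs, sq_abs, h2, h3, h4]
    ring
  have h := hM (fc f) (fc v) (fc_meas hf) (fc_meas hvm) (by
      intro a ξ hξ
      apply hR
      have h1 := hn a ξ
      by_contra hc
      have h2 : ‖cb.symm (a, ξ)‖ ^ 2 ≤ 1 := by
        have := pow_le_pow_left₀ (norm_nonneg _) (not_lt.1 hc) 2
        simpa using this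
      nlinarith [sq_nonneg a]) (by
      intro a ha ξ
      apply hR
      have h1 := hn a ξ
      by_contra hc
      have h2 : ‖cb.symm (a, ξ)‖ ^ 2 ≤ 1 := by
        have := pow_le_pow_left₀ (norm_nonneg _) (not_lt.1 hc) 2
        simpa using this
      have h3 : 0 ≤ nsq ξ := by
        unfold nsq
        positivity
      have h4 : 1 < a ^ 2 := by
        rw [← sq_abs]
        nlinarith [abs_nonneg a]
      nlinarith) (by
      intro a ξ
      have h1 := hv (cb.symm (a, ξ))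
      refine le_trans (le_of_eq ?_) h1
      congr 1
      ext s
      unfold fc
      congr 1
      apply cb.injective
      rw [MeasurableEquiv.apply_symm_apply]
      set w := cb.symm (a, ξ) with hw
      have h2 : cb w = (a, ξ) := by rw [hw, MeasurableEquiv.apply_symm_apply]
      rw [cb_apply] at h2
      have h3 : w 0 = a := congrArg Prod.fst h2
      have h4 : w 1 = ξ.1 := congrArg (fun q => q.2.1) h2
      have h5 : w 2 = ξ.2 := congrArg (fun q => q.2.2) h2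
      rw [cb_apply]
      unfold PA
      rw [sub_zero, inner_e0, zero_add]
      unfold e0
      ext
      · simp [h3]
      · simp [h4]
      · simp [h5])
  have e1 : ∀ t : ℝ, ENNReal.ofReal ((1 + |t|) ^ (-(0:ℝ))) = 1 := by
    intro t
    rw [neg_zero, Real.rpow_zero, ENNReal.ofReal_one]
  simp only [e1, one_mul] at h
  refine h.trans (le_of_eq ?_)
  congr 1
  have hv2 : Measurable fun q : ℝ × (ℝ × ℝ) => fc v q.1 q.2 ^ p := (fc_meas hvm).pow_const p
  have e2 : ∫⁻ a, ∫⁻ ξ, fc v a ξ ^ p = ∫⁻ q : ℝ × (ℝ × ℝ), fc v q.1 q.2 ^ p :=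
    (lintegral_prod _ hv2.aemeasurable).symm
  rw [e2, ← cb_mp.lintegral_comp hv2]
  apply lintegral_congr
  intro ξ
  unfold fc
  rw [Prod.mk.eta, MeasurableEquiv.symm_apply_apply]

end Pool.Agent.R245.PC
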