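import Mathlib
import Pool.Agent.R245.PC.C9
set_option autoImplicit false

/-! Any axis and any scale. -/

namespace Pool.Agent.R245.PC

open Pool.Agent.R245.PB MeasureTheory Set Complex Filter Real
open scoped ENNReal Topology RealInnerProductSpace

/-- transplantation -/
noncomputable def tr {β : Type*} (c : V3) (R : ℝ) (A : V3 ≃ₗᵢ[ℝ] V3) (f : V3 → β) (η : V3) : β :=
  f (c + R • A η)

lemma finV3 : Module.finrank ℝ V3 = 3 := by simp

lemma ET_tr (f : V3 → ℂ) (c : V3) {R : ℝ} (hR : 0 < R) (A : V3 ≃ₗᵢ[ℝ] V3) (x : V3) (t : ℝ) :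
    ET f (x, t) = (R ^ 3 : ℝ) * (ec (⟪c, x⟫ + ‖c‖ ^ 2 * t) *
      ET (tr c R A f) (R • A.symm (x + (2 * t) • c), R ^ 2 * t)) := by
  unfold ET
  set G : V3 → ℂ := fun ξ => f ξ * ec (⟪ξ, x⟫ + ‖ξ‖ ^ 2 * t) with hG
  have h1 : ∫ ξ, G ξ = ∫ ξ, G (c + ξ) := (integral_add_left_eq_self G c).symm
  have h2 : ∫ ξ, G (c + ξ) = (R ^ 3 : ℝ) * ∫ η, G (c + R • η) := by
    have h := Measure.integral_comp_smul (μ := (volume : Measure V3)) (fun ξ => G (c + ξ)) R
    rw [finV3, abs_of_pos (by positivity)] at h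
    rw [h, Complex.real_smul, ← mul_assoc, ← Complex.ofReal_mul, mul_inv_cancel₀ (by positivity),
      Complex.ofReal_one, one_mul]
  have h3 : ∫ η, G (c + R • η) = ∫ η, G (c + R • A η) :=
    (A.measurePreserving.integral_comp A.toHomeomorph.measurableEmbedding
      (fun η => G (c + R • η))).symm
  have h4 : ∫ ξ, f ξ * ec (⟪ξ, (x, t).1⟫ + ‖ξ‖ ^ 2 * (x, t).2) = ∫ ξ, G ξ := rfl
  rw [h4, h1, h2, h3]
  congr 1
  rw [← integral_const_mul]
  apply integral_congr_ae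
  refine ae_of_all _ fun η => ?_
  rw [hG]
  simp only
  unfold tr
  have e1 : (⟪c + R • A η, x⟫ : ℝ) + ‖c + R • A η‖ ^ 2 * t = (⟪c, x⟫ + ‖c‖ ^ 2 * t) +
      (⟪η, R • A.symm (x + (2 * t) • c)⟫ + ‖η‖ ^ 2 * (R ^ 2 * t)) := by
    have a1 : (⟪η, A.symm (x + (2 * t) • c)⟫ : ℝ) = ⟪A η, x⟫ + 2 * t * ⟪A η, c⟫ := by
      have : (⟪A η, x + (2 * t) • c⟫ : ℝ) = ⟪η, A.symm (x + (2 * t) • c)⟫ := by
        have h := A.inner_map_map η (A.symm (x + (2 * t) • c))
        rw [LinearIsometryEquiv.apply_symm_apply] at h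
        exact h
      rw [← this, inner_add_right, inner_smul_right]
    have a2 : ‖c + R • A η‖ ^ 2 = ‖c‖ ^ 2 + 2 * (R * ⟪A η, c⟫) + R ^ 2 * ‖η‖ ^ 2 := by
      rw [norm_add_sq_real, norm_smul, LinearIsometryEquiv.norm_map, mul_pow, Real.norm_eq_abs,
        sq_abs, inner_smul_right, real_inner_comm]
    rw [a2, inner_smul_right, a1, inner_add_left, inner_smul_left]
    simp only [conj_trivial]
    ring
  rw [e1, ec_add]
  ring

lemma lint_scaleV {R : ℝ} (hR : 0 < R) {G : V3 → ℝ≥0∞} (hG : Measurable G) :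
    ∫⁻ z, G (R • z) = ENNReal.ofReal (R ^ 3)⁻¹ * ∫⁻ z, G z := by
  have h1 := lintegral_map (μ := (volume : Measure V3)) hG (measurable_const_smul R)
  rw [Measure.map_addHaar_smul volume hR.ne', lintegral_smul_measure, smul_eq_mul, finV3,
    abs_of_pos (by positivity)] at h1
  exact h1.symm

lemma tr_meas {β : Type*} [MeasurableSpace β] {f : V3 → β} (hf : Measurable f) (c : V3) (R : ℝ)
    (A : V3 ≃ₗᵢ[ℝ] V3) : Measurable (tr c R A f) := by
  unfold tr
  refine hf.comp ?_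
  exact ((A.continuous.measurable).const_smul R).const_add c

lemma tr_lint {v : V3 → ℝ≥0∞} (hv : Measurable v) (c : V3) {R : ℝ} (hR : 0 < R)
    (A : V3 ≃ₗᵢ[ℝ] V3) : ∫⁻ η, tr c R A v η = ENNReal.ofReal (R ^ 3)⁻¹ * ∫⁻ ξ, v ξ := by
  unfold tr
  have m1 : Measurable fun ξ => v (c + ξ) := hv.comp (measurable_const_add c)
  have m2 : Measurable fun ξ => v (c + R • ξ) := m1.comp (measurable_const_smul R)
  have h1 : ∫⁻ η, v (c + R • A η) = ∫⁻ η, v (c + R • η) :=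
    A.measurePreserving.lintegral_comp m2
  rw [h1, lint_scaleV hR m1]
  congr 1
  exact lintegral_add_left_eq_self v c

lemma ET_scale {f : V3 → ℂ} (hf : Measurable f) (c : V3) {R : ℝ} (hR : 0 < R) (A : V3 ≃ₗᵢ[ℝ] V3)
    {p : ℝ} (hp : 0 < p) : ∫⁻ z, ‖ET f z‖ₑ ^ p =
      ENNReal.ofReal (R ^ (3 * p - 5)) * ∫⁻ z, ‖ET (tr c R A f) z‖ₑ ^ p := by
  set g := tr c R A f with hg
  have hgm : Measurable g := tr_meas hf c R A
  have hv : (volume : Measure (V3 × ℝ)) = volume.prod volume := rfl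
  have hm1 : Measurable fun z : V3 × ℝ => ‖ET f z‖ₑ ^ p := (ET_meas hf).enorm.pow_const p
  have hm2 : Measurable fun z : V3 × ℝ => ‖ET g z‖ₑ ^ p := (ET_meas hgm).enorm.pow_const p
  rw [hv, lintegral_prod_symm' _ hm1, lintegral_prod_symm' _ hm2]
  set H : ℝ → ℝ≥0∞ := fun t => ∫⁻ x, ‖ET g (x, t)‖ₑ ^ p with hH
  have hHm : Measurable H := hm2.lintegral_prod_left'
  have h1 : ∀ t, ∫⁻ x, ‖ET f (x, t)‖ₑ ^ p =
      (ENNReal.ofReal (R ^ 3) ^ p * ENNReal.ofReal (R ^ 3)⁻¹) * H (R ^ 2 * t) := by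
    intro t
    have e1 : ∀ x, ‖ET f (x, t)‖ₑ ^ p = ENNReal.ofReal (R ^ 3) ^ p *
        (fun x => ‖ET g (R • A.symm x, R ^ 2 * t)‖ₑ ^ p) (x + (2 * t) • c) := by
      intro x
      simp only
      rw [ET_tr f c hR A, enorm_mul, enorm_mul, ← ofReal_norm (ec _), ec_norm, ENNReal.ofReal_one,
        one_mul, ENNReal.mul_rpow_of_nonneg _ _ hp.le, ← ofReal_norm (((R ^ 3 : ℝ)) : ℂ),
        Complex.norm_real, Real.norm_eq_abs, abs_of_pos (by positivity)]
    simp only [e1]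
    rw [lintegral_const_mul' _ _ (ENNReal.rpow_ne_top_of_nonneg hp.le ENNReal.ofReal_ne_top),
      lintegral_add_right_eq_self (fun x => ‖ET g (R • A.symm x, R ^ 2 * t)‖ₑ ^ p), mul_assoc]
    congr 1
    have m0 : Measurable fun x : V3 => ‖ET g (x, R ^ 2 * t)‖ₑ ^ p :=
      hm2.comp (f := fun x : V3 => (x, R ^ 2 * t)) (by fun_prop)
    have m1 : Measurable fun x : V3 => ‖ET g (R • x, R ^ 2 * t)‖ₑ ^ p :=
      m0.comp (measurable_const_smul R)
    have e2 : ∫⁻ x, ‖ET g (R • A.symm x, R ^ 2 * t)‖ₑ ^ p = ∫⁻ x, ‖ET g (R • x, R ^ 2 * t)‖ₑ ^ p :=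
      A.symm.measurePreserving.lintegral_comp m1
    rw [e2, lint_scaleV hR m0]
  simp only [h1]
  have hc : (ENNReal.ofReal (R ^ 3) ^ p * ENNReal.ofReal (R ^ 3)⁻¹) ≠ ⊤ :=
    ENNReal.mul_ne_top (ENNReal.rpow_ne_top_of_nonneg hp.le ENNReal.ofReal_ne_top)
      ENNReal.ofReal_ne_top
  rw [lintegral_const_mul' _ _ hc, lint_scale1 (by positivity) hHm, ← mul_assoc]
  congr 1
  rw [ENNReal.ofReal_rpow_of_pos (by positivity), ← ENNReal.ofReal_mul (by positivity),
    ← ENNReal.ofReal_mul (by positivity)]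
  congr 1
  have a1 : (R ^ 3) ^ p = R ^ (3 * p) := by
    rw [← Real.rpow_natCast R 3, ← Real.rpow_mul hR.le]
    congr 1
  have a2 : (R ^ 3)⁻¹ = R ^ (-(3:ℝ)) := by
    rw [Real.rpow_neg hR.le]
    congr 1
    rw [← Real.rpow_natCast R 3]
    norm_num
  have a3 : (R ^ 2)⁻¹ = R ^ (-(2:ℝ)) := by
    rw [Real.rpow_neg hR.le]
    congr 1
    rw [← Real.rpow_natCast R 2]
    norm_num
  rw [a1, a2, a3, ← Real.rpow_add hR, ← Real.rpow_add hR]
  congr 1
  ring

/-- an isometry with a given image of the first vector -/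
lemma exA {e : V3} (he : ‖e‖ = 1) : ∃ A : V3 ≃ₗᵢ[ℝ] V3, A e0 = e := by
  have h : ‖e0‖ = ‖e‖ := by rw [e0_norm, he]
  exact ⟨Submodule.reflection (Submodule.span ℝ {e0 - e})ᗮ, Submodule.reflection_sub h⟩

/-- the main estimate -/
theorem mainAx {p : ℝ} (hp : 8 / 3 < p) (hp' : p < 10 / 3) : ∃ C : ℝ, 0 < C ∧
    ∀ (c e : V3), ‖e‖ = 1 → ∀ (R : ℝ) (f : V3 → ℂ) (v : V3 → ℝ≥0∞), 0 < R →
    Measurable f → Measurable v → (∀ ξ, R < ‖ξ - c‖ → f ξ = 0) →
    (∀ ξ, eVariationOn (fun s : ℝ => f (PA c e ξ + s • (ξ - PA c e ξ))) (Ici 1) ≤ v ξ) →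
    ∫⁻ z, ‖ET f z‖ₑ ^ p ≤ ENNReal.ofReal (C * R ^ (3 * p - 8)) * ∫⁻ ξ, v ξ ^ p := by
  obtain ⟨C, hC, hM⟩ := mainU hp hp'
  have hp0 : 0 < p := by linarith
  refine ⟨C, hC, ?_⟩
  intro c e he R f v hR0 hf hvm hR hv
  obtain ⟨A, hA⟩ := exA he
  rw [ET_scale hf c hR0 A hp0]
  have h := hM (tr c R A f) (tr c R A v) (tr_meas hf c R A) (tr_meas hvm c R A) (by
      intro η hη
      unfold tr
      apply hR
      rw [add_sub_cancel_left, norm_smul, LinearIsometryEquiv.norm_map, Real.norm_eq_abs,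
        abs_of_pos hR0]
      nlinarith) (by
      intro η
      have h1 := hv (c + R • A η)
      refine le_trans (le_of_eq ?_) h1
      congr 1
      ext s
      unfold tr
      congr 1
      have hb : (⟪c + R • A η - c, e⟫ : ℝ) = R * η 0 := by
        rw [add_sub_cancel_left, inner_smul_left, ← hA, LinearIsometryEquiv.inner_map_map, inner_e0]
        simp
      unfold PA
      rw [hb, sub_zero, inner_e0, zero_add, map_add, map_smul, map_smul, map_sub, map_smul, hA]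
      module)
  refine (mul_le_mul' le_rfl h).trans (le_of_eq ?_)
  have e1 : ∫⁻ ξ, tr c R A v ξ ^ p = ENNReal.ofReal (R ^ 3)⁻¹ * ∫⁻ ξ, v ξ ^ p :=
    tr_lint (hvm.pow_const p) c hR0 A
  rw [e1, ← mul_assoc, ← mul_assoc, ← ENNReal.ofReal_mul (by positivity),
    ← ENNReal.ofReal_mul (by positivity)]
  congr 2
  have a2 : (R ^ 3)⁻¹ = R ^ (-(3:ℝ)) := by
    rw [Real.rpow_neg hR0.le]
    congr 1
    rw [← Real.rpow_natCast R 3]
    norm_num
  have a3 : R ^ (3 * p - 8) = R ^ (3 * p - 5) * R ^ (-(3:ℝ)) := by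
    rw [← Real.rpow_add hR0]
    congr 1
    ring
  rw [a2, a3]
  ring

/-- bounded majorants, all exponents -/
theorem mainB {q : ℝ} (hq : 8 / 3 < q) : ∃ C : ℝ, 0 < C ∧
    ∀ (c e : V3), ‖e‖ = 1 → ∀ (R V : ℝ) (f : V3 → ℂ), 0 < R → 0 ≤ V → Measurable f →
    (∀ ξ, R < ‖ξ - c‖ → f ξ = 0) →
    (∀ ξ, eVariationOn (fun s : ℝ => f (PA c e ξ + s • (ξ - PA c e ξ))) (Ici 1) ≤
      ENNReal.ofReal V) →
    ∫⁻ z, ‖ET f z‖ₑ ^ q ≤ ENNReal.ofReal (C * R ^ (3 * q - 5) * V ^ q) := by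
  set p : ℝ := min q 3 with hpd
  have hp : 8 / 3 < p := lt_min hq (by norm_num)
  have hp' : p < 10 / 3 := lt_of_le_of_lt (min_le_right _ _) (by norm_num)
  have hpq : p ≤ q := min_le_left _ _
  have hp0 : 0 < p := by linarith
  obtain ⟨C, hC, hM⟩ := mainAx hp hp'
  refine ⟨8 ^ (q - p) * C * 8, by positivity, ?_⟩
  intro c e he R V f hR0 hV0 hf hR hv
  set B : Set V3 := Metric.closedBall c R with hB
  have hBm : MeasurableSet B := Metric.isClosed_closedBall.measurableSet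
  have hvol : volume B ≤ ENNReal.ofReal (8 * R ^ 3) := by
    have h1 : volume B = ENNReal.ofReal (R ^ 3) * volume (Metric.ball (0 : V3) 1) := by
      rw [hB, Measure.addHaar_closedBall volume c hR0.le, finV3]
    rw [h1]
    have h2 : volume (Metric.ball (0 : V3) 1) ≤ ENNReal.ofReal 8 := by
      have h3 : Metric.ball (0 : V3) 1 ⊆ cb ⁻¹' (Icc (-1) 1 ×ˢ (Icc (-1) 1 ×ˢ Icc (-1) 1)) := by
        intro ξ hξ
        rw [mem_ball_zero_iff] at hξ
        have h4 : ‖ξ‖ ^ 2 < 1 := by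
          have := pow_lt_pow_left₀ hξ (norm_nonneg _) two_ne_zero
          simpa using this
        rw [EuclideanSpace.norm_sq_eq, Fin.sum_univ_three] at h4
        simp only [Real.norm_eq_abs, sq_abs] at h4
        rw [mem_preimage, cb_apply]
        have b0 : (ξ 0) ^ 2 ≤ 1 ^ 2 := by nlinarith [sq_nonneg (ξ 1), sq_nonneg (ξ 2)]
        have b1 : (ξ 1) ^ 2 ≤ 1 ^ 2 := by nlinarith [sq_nonneg (ξ 0), sq_nonneg (ξ 2)]
        have b2 : (ξ 2) ^ 2 ≤ 1 ^ 2 := by nlinarith [sq_nonneg (ξ 0), sq_nonneg (ξ 1)]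
        exact ⟨abs_le.1 (abs_le_of_sq_le_sq b0 one_pos.le),
          abs_le.1 (abs_le_of_sq_le_sq b1 one_pos.le), abs_le.1 (abs_le_of_sq_le_sq b2 one_pos.le)⟩
      refine (measure_mono h3).trans (le_of_eq ?_)
      rw [cb_mp.measure_preimage (measurableSet_Icc.prod
        (measurableSet_Icc.prod measurableSet_Icc)).nullMeasurableSet, Measure.volume_eq_prod,
        Measure.volume_eq_prod, Measure.prod_prod, Measure.prod_prod, Real.volume_Icc,
        ← ENNReal.ofReal_mul (by norm_num), ← ENNReal.ofReal_mul (by norm_num)]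
      norm_num
    refine (mul_le_mul' le_rfl h2).trans (le_of_eq ?_)
    rw [← ENNReal.ofReal_mul (by positivity)]
    congr 1
    ring
  set v : V3 → ℝ≥0∞ := B.indicator fun _ => ENNReal.ofReal V with hvd
  have hvm : Measurable v := measurable_const.indicator hBm
  have hv' : ∀ ξ, eVariationOn (fun s : ℝ => f (PA c e ξ + s • (ξ - PA c e ξ))) (Ici 1) ≤ v ξ := by
    intro ξ
    by_cases hξ : ξ ∈ B
    · rw [hvd, indicator_of_mem hξ]
      exact hv ξ
    · have h1 : R < ‖ξ - c‖ := by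
        rw [hB, Metric.mem_closedBall, dist_eq_norm] at hξ
        exact not_le.1 hξ
      have h2 : ∀ s : ℝ, 1 ≤ s → f (PA c e ξ + s • (ξ - PA c e ξ)) = 0 := by
        intro s hs
        apply hR
        have h3 := PA_split he c ξ s
        have h4 := PA_pyth he c ξ
        have h5 : ‖ξ - c‖ ^ 2 ≤ ‖PA c e ξ + s • (ξ - PA c e ξ) - c‖ ^ 2 := by
          rw [h3, h4]
          have : 1 ≤ s ^ 2 := by nlinarith
          nlinarith [sq_nonneg ‖ξ - PA c e ξ‖]
        have h6 := (sq_le_sq₀ (norm_nonneg _) (norm_nonneg _)).1 h5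
        linarith
      have h3 : eVariationOn (fun s : ℝ => f (PA c e ξ + s • (ξ - PA c e ξ))) (Ici 1) = 0 := by
        apply eVariationOn.constant_on
        intro a ha b hb
        obtain ⟨s, hs, rfl⟩ := ha
        obtain ⟨s', hs', rfl⟩ := hb
        simp only
        rw [h2 s hs, h2 s' hs']
      rw [h3]
      exact zero_le
  have hZ : ∫⁻ ξ, v ξ ^ p ≤ ENNReal.ofReal (V ^ p * (8 * R ^ 3)) := by
    have e1 : ∀ ξ, v ξ ^ p = B.indicator (fun _ => ENNReal.ofReal V ^ p) ξ := by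
      intro ξ
      by_cases hξ : ξ ∈ B
      · rw [hvd, indicator_of_mem hξ, indicator_of_mem hξ]
      · rw [hvd, indicator_of_notMem hξ, indicator_of_notMem hξ, ENNReal.zero_rpow_of_pos hp0]
    simp only [e1]
    rw [lintegral_indicator hBm, setLIntegral_const, ENNReal.ofReal_mul (by positivity),
      ENNReal.ofReal_rpow_of_nonneg hV0 hp0.le]
    exact mul_le_mul' le_rfl hvol
  have hmain := (hM c e he R f v hR0 hf hvm hR hv').trans (mul_le_mul' le_rfl hZ)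
  rw [← ENNReal.ofReal_mul (by positivity)] at hmain
  -- the trivial bound
  have hsup : ∀ z, ‖ET f z‖ₑ ≤ ENNReal.ofReal (V * (8 * R ^ 3)) := by
    intro z
    unfold ET
    refine (enorm_integral_le_lintegral_enorm _).trans ?_
    have e1 : ∀ ξ, ‖f ξ * ec (⟪ξ, z.1⟫ + ‖ξ‖ ^ 2 * z.2)‖ₑ = ‖f ξ‖ₑ := by
      intro ξ
      rw [enorm_mul, ← ofReal_norm (ec _), ec_norm, ENNReal.ofReal_one, mul_one]
    simp only [e1]
    calc ∫⁻ ξ, ‖f ξ‖ₑ ≤ ∫⁻ ξ, v ξ := by
          apply lintegral_mono_ae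
          filter_upwards [ax_null he c] with ξ hξ
          exact ax_le he hR hv' hξ
      _ = ENNReal.ofReal V * volume B := by
          rw [hvd, lintegral_indicator hBm, setLIntegral_const]
      _ ≤ _ := by
          rw [ENNReal.ofReal_mul hV0]
          exact mul_le_mul' le_rfl hvol
  have hqp : 0 ≤ q - p := by linarith
  calc ∫⁻ z, ‖ET f z‖ₑ ^ q = ∫⁻ z, ‖ET f z‖ₑ ^ (q - p) * ‖ET f z‖ₑ ^ p := by
        congr 1
        ext z
        rw [← ENNReal.rpow_add_of_nonneg _ _ hqp hp0.le]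
        congr 1
        ring
    _ ≤ ∫⁻ z, ENNReal.ofReal (V * (8 * R ^ 3)) ^ (q - p) * ‖ET f z‖ₑ ^ p := by
        apply lintegral_mono
        intro z
        exact mul_le_mul' (ENNReal.rpow_le_rpow (hsup z) hqp) le_rfl
    _ = ENNReal.ofReal (V * (8 * R ^ 3)) ^ (q - p) * ∫⁻ z, ‖ET f z‖ₑ ^ p :=
        lintegral_const_mul' _ _ (ENNReal.rpow_ne_top_of_nonneg hqp ENNReal.ofReal_ne_top)
    _ ≤ ENNReal.ofReal (V * (8 * R ^ 3)) ^ (q - p) *
        ENNReal.ofReal (C * R ^ (3 * p - 8) * (V ^ p * (8 * R ^ 3))) :=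
        mul_le_mul' le_rfl hmain
    _ = _ := by
        rw [ENNReal.ofReal_rpow_of_nonneg (by positivity) hqp, ← ENNReal.ofReal_mul (by positivity)]
        congr 1
        have a1 : (V * (8 * R ^ 3)) ^ (q - p) = V ^ (q - p) * (8 ^ (q - p) * R ^ (3 * (q - p))) := by
          rw [Real.mul_rpow hV0 (by positivity), Real.mul_rpow (by norm_num) (by positivity),
            ← Real.rpow_natCast R 3, ← Real.rpow_mul hR0.le]
          congr 3
        have a2 : V ^ q = V ^ (q - p) * V ^ p := by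
          rcases hV0.eq_or_lt with h0 | h0
          · rw [← h0, Real.zero_rpow (by linarith : q ≠ 0), Real.zero_rpow hp0.ne', mul_zero]
          · rw [← Real.rpow_add h0]
            congr 1
            ring
        have a3 : R ^ (3 * q - 5) = R ^ (3 * (q - p)) * R ^ (3 * p - 8) * R ^ 3 := by
          rw [← Real.rpow_natCast R 3, ← Real.rpow_add hR0, ← Real.rpow_add hR0]
          congr 1
          push_cast
          ring
        rw [a1, a2, a3]
        ring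

end Pool.Agent.R245.PC
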